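import Pool.Agent.T2h55.UP.Stm

/-! Project UP (owner helper55), task UP_APP: trigonometric approximation. -/

set_option autoImplicit false

open Filter Topology MeasureTheory Finset

namespace Pool.Agent.T2h55.UP

namespace APP

theorem int_e (k : ℤ) (hk : k ≠ 0) :
    ∫ x in (0 : ℝ)..1, Complex.exp (2 * Real.pi * Complex.I * k * x) = 0 := by
  have hc : (2 * Real.pi * Complex.I * k : ℂ) ≠ 0 :=
    mul_ne_zero Complex.two_pi_I_ne_zero (Int.cast_ne_zero.2 hk)
  rw [integral_exp_mul_complex hc]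
  have h1 : Complex.exp (2 * Real.pi * Complex.I * k * ((1 : ℝ) : ℂ)) = 1 := by
    have h2 : (2 * Real.pi * Complex.I * k * ((1 : ℝ) : ℂ) : ℂ) = k * (2 * Real.pi * Complex.I) := by
      push_cast
      ring
    rw [h2]
    exact Complex.exp_int_mul_two_pi_mul_I k
  rw [h1]
  simp

theorem int_pos {φ : ℝ → ℝ} (hc : Continuous φ) (hp : ∀ x, φ (x + 1) = φ x) (h0 : ∀ x, 0 ≤ φ x)
    (hx : ∃ x, φ x ≠ 0) : 0 < ∫ x in (0 : ℝ)..1, φ x := by
  obtain ⟨x, hx⟩ := hx
  have hper : Function.Periodic φ 1 := hp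
  have h1 : φ (Int.fract x) = φ x := by
    have := hper.sub_int_mul_eq ⌊x⌋ (x := x)
    rw [mul_one] at this
    exact this
  refine intervalIntegral.integral_pos zero_lt_one hc.continuousOn (fun x _ => h0 x)
    ⟨Int.fract x, ⟨Int.fract_nonneg x, (Int.fract_lt_one x).le⟩, ?_⟩
  rw [h1]
  exact lt_of_le_of_ne (h0 x) (Ne.symm hx)

theorem approx {φ : ℝ → ℝ} (hc : Continuous φ) (hp : ∀ x, φ (x + 1) = φ x) {η : ℝ} (hη : 0 < η) :
    ∃ (K : Finset ℤ) (c : ℤ → ℂ), ∀ x : ℝ,
      ‖(φ x : ℂ) - ∑ k ∈ K, c k * Complex.exp (2 * Real.pi * Complex.I * k * x)‖ ≤ η := by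
  have hper : Function.Periodic (fun x => (φ x : ℂ)) 1 := fun x => by
    show ((φ (x + 1) : ℝ) : ℂ) = φ x
    rw [hp]
  have hcc : Continuous (fun x => (φ x : ℂ)) := Complex.continuous_ofReal.comp hc
  let f : C(AddCircle (1 : ℝ), ℂ) := ⟨hper.lift, continuous_coinduced_dom.mpr hcc⟩
  have hf : ∀ x : ℝ, f (x : AddCircle (1 : ℝ)) = φ x := fun x => rfl
  have : Fact ((0 : ℝ) < 1) := ⟨zero_lt_one⟩
  have h1 : f ∈ (Submodule.span ℂ (Set.range (@fourier (1 : ℝ)))).topologicalClosure := by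
    rw [span_fourier_closure_eq_top]
    trivial
  have h2 : f ∈ closure ((Submodule.span ℂ (Set.range (@fourier (1 : ℝ))) :
      Submodule ℂ C(AddCircle (1 : ℝ), ℂ)) : Set C(AddCircle (1 : ℝ), ℂ)) := h1
  rw [Metric.mem_closure_iff] at h2
  obtain ⟨g, hg, hfg⟩ := h2 η hη
  obtain ⟨c, hcg⟩ := (Finsupp.mem_span_range_iff_exists_finsupp).1 hg
  refine ⟨c.support, c, fun x => ?_⟩
  have h3 : ∑ k ∈ c.support, c k * Complex.exp (2 * Real.pi * Complex.I * k * x) =
      g (x : AddCircle (1 : ℝ)) := by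
    rw [← hcg, Finsupp.sum, ContinuousMap.sum_apply]
    refine Finset.sum_congr rfl fun k _ => ?_
    rw [ContinuousMap.smul_apply, fourier_coe_apply, smul_eq_mul]
    congr 2
    simp
  rw [h3, ← hf, ← dist_eq_norm]
  exact (ContinuousMap.dist_apply_le_dist _).trans hfg.le

end APP

theorem app : S_APP := by
  intro φ hc hp h0 hx
  have hJ := APP.int_pos hc hp h0 hx
  set J := ∫ x in (0 : ℝ)..1, φ x with hJd
  refine ⟨J / 2, by linarith, fun η hη => ?_⟩
  obtain ⟨K, c, hK⟩ := APP.approx hc hp (η := min η (J / 2)) (lt_min hη (by linarith))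
  obtain ⟨c₀, hc₀⟩ : ∃ c₀ : ℂ, c₀ = if (0 : ℤ) ∈ K then c 0 else 0 := ⟨_, rfl⟩
  have h1 : ∀ x : ℝ, ∑ k ∈ K, c k * Complex.exp (2 * Real.pi * Complex.I * k * x) =
      c₀ + ∑ k ∈ K.erase 0, c k * Complex.exp (2 * Real.pi * Complex.I * k * x) := by
    intro x
    by_cases h : (0 : ℤ) ∈ K
    · rw [← Finset.add_sum_erase K _ h, hc₀, if_pos h]
      simp
    · rw [hc₀, if_neg h, zero_add, Finset.erase_eq_of_notMem h]
  have h2 : ∀ x : ℝ, ‖(φ x : ℂ) - c₀ -
      ∑ k ∈ K.erase 0, c k * Complex.exp (2 * Real.pi * Complex.I * k * x)‖ ≤ min η (J / 2) := by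
    intro x
    have := hK x
    rw [h1, ← sub_sub] at this
    exact this
  refine ⟨K.erase 0, c, c₀, Finset.notMem_erase _ _, ?_, fun x => (h2 x).trans (min_le_left _ _)⟩
  have h3 : ∫ x in (0 : ℝ)..1, ((φ x : ℂ) - c₀ -
      ∑ k ∈ K.erase 0, c k * Complex.exp (2 * Real.pi * Complex.I * k * x)) = J - c₀ := by
    have i1 : IntervalIntegrable (fun x : ℝ => (φ x : ℂ)) volume 0 1 :=
      (Complex.continuous_ofReal.comp hc).intervalIntegrable _ _
    have i2 : IntervalIntegrable (fun _ : ℝ => c₀) volume 0 1 :=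
      continuous_const.intervalIntegrable _ _
    have i3 : ∀ k : ℤ, IntervalIntegrable (fun x : ℝ =>
        c k * Complex.exp (2 * Real.pi * Complex.I * k * x)) volume 0 1 := fun k =>
      (by fun_prop : Continuous fun x : ℝ =>
        c k * Complex.exp (2 * Real.pi * Complex.I * k * x)).intervalIntegrable _ _
    have i4 : IntervalIntegrable (fun x : ℝ => ∑ k ∈ K.erase 0,
        c k * Complex.exp (2 * Real.pi * Complex.I * k * x)) volume 0 1 :=
      (by fun_prop : Continuous fun x : ℝ => ∑ k ∈ K.erase 0,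
        c k * Complex.exp (2 * Real.pi * Complex.I * k * x)).intervalIntegrable _ _
    rw [intervalIntegral.integral_sub (i1.sub i2) i4, intervalIntegral.integral_sub i1 i2,
      intervalIntegral.integral_finsetSum fun k _ => i3 k]
    have h4 : ∑ k ∈ K.erase 0, ∫ x in (0 : ℝ)..1,
        c k * Complex.exp (2 * Real.pi * Complex.I * k * x) = 0 := by
      refine Finset.sum_eq_zero fun k hk => ?_
      rw [intervalIntegral.integral_const_mul, APP.int_e k (Finset.ne_of_mem_erase hk), mul_zero]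
    rw [h4, sub_zero, intervalIntegral.integral_ofReal, intervalIntegral.integral_const, hJd]
    simp
  have h4 : ‖(J : ℂ) - c₀‖ ≤ J / 2 := by
    rw [← h3]
    have := intervalIntegral.norm_integral_le_of_norm_le_const (a := (0 : ℝ)) (b := 1)
      (f := fun x : ℝ => ((φ x : ℂ) - c₀ -
        ∑ k ∈ K.erase 0, c k * Complex.exp (2 * Real.pi * Complex.I * k * x))) (C := J / 2)
      (fun x _ => (h2 x).trans (min_le_right _ _))
    simpa using this
  have h5 : ‖(J : ℂ)‖ = J := by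
    rw [Complex.norm_real, Real.norm_eq_abs, abs_of_pos hJ]
  have h6 := norm_sub_norm_le (J : ℂ) c₀
  rw [h5] at h6
  linarith

end Pool.Agent.T2h55.UP
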