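import Pool.Agent.T2h55.UP.StmB

/-! Task AVG of project UP, part B. -/

set_option autoImplicit false

open Filter Topology MeasureTheory Finset
open Pool.Agent.Y821.ME

namespace Pool.Agent.T2h55.UP

namespace AVG

/-- scaled series -/
theorem ser_scaled (hlap : S_LAP) (hser : S_SER) (lam B A : ℝ) (hA : 0 < A) (c : ℕ → ℂ) (hc : ∀ n, ‖c n‖ ≤ 2 * A)
    (hB : ∀ v, 1 ≤ v → ‖Mx c v‖ ≤ B * Real.sqrt v) (u : ℝ) :
    D (aF lam (Mx c)) u = (Real.exp (-u / 2) : ℂ) *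
      ∑' n : ℕ, mu (n + 1) * c (n + 1) * (VR ((n + 1 : ℕ) * Real.exp (lam - u)) : ℝ) ∧
    D (fun t => aF lam (Mx c) (-t)) u = (Real.exp (u / 2) : ℂ) *
      ∑' n : ℕ, mu (n + 1) * c (n + 1) * (VL ((n + 1 : ℕ) * Real.exp (lam + u)) : ℝ) := by
  have hAC : (A : ℂ) ≠ 0 := Complex.ofReal_ne_zero.2 hA.ne'
  set c' : ℕ → ℂ := fun n => (A : ℂ)⁻¹ * c n with hc'
  have hcc : c = fun n => ∑ i ∈ ({0} : Finset ℕ), (A : ℂ) * c' n := by
    funext n
    rw [Finset.sum_singleton, hc']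
    simp only
    rw [← mul_assoc, mul_inv_cancel₀ hAC, one_mul]
  have hc'2 : ∀ n, ‖c' n‖ ≤ 2 := by
    intro n
    rw [hc']
    simp only
    rw [norm_mul, norm_inv, Complex.norm_real, Real.norm_of_nonneg hA.le, inv_mul_le_iff₀ hA]
    linarith [hc n]
  have hMx : ∀ v, Mx c' v = (A : ℂ)⁻¹ * Mx c v := by
    intro v
    unfold Mx
    rw [Finset.mul_sum]
    refine Finset.sum_congr rfl fun n _ => ?_
    rw [hc']
    ring
  have hB' : ∀ v, 1 ≤ v → ‖Mx c' v‖ ≤ (A⁻¹ * B) * Real.sqrt v := by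
    intro v hv
    rw [hMx, norm_mul, norm_inv, Complex.norm_real, Real.norm_of_nonneg hA.le, mul_assoc]
    exact mul_le_mul_of_nonneg_left (hB v hv) (inv_nonneg.2 hA.le)
  have haF : ∀ t, aF lam (Mx c) t = (A : ℂ) * aF lam (Mx c') t := by
    intro t
    have h1 := aF_sum hlap ({0} : Finset ℕ) (fun _ => (A : ℂ)) (fun _ => c') lam (fun _ => A⁻¹ * B)
      (fun i _ v hv => hB' v hv) t
    rw [← hcc, Finset.sum_singleton] at h1
    exact h1
  have hD1 : D (aF lam (Mx c)) u = (A : ℂ) * D (aF lam (Mx c')) u := by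
    unfold D
    rw [haF, haF, haF]
    ring
  have hD2 : D (fun t => aF lam (Mx c) (-t)) u = (A : ℂ) * D (fun t => aF lam (Mx c') (-t)) u := by
    unfold D
    simp only
    rw [haF, haF, haF]
    ring
  obtain ⟨h1, h2⟩ := hser lam (A⁻¹ * B) c' hc'2 hB' u
  constructor
  · rw [hD1, h1, ← mul_assoc, mul_comm (A : ℂ), mul_assoc, ← tsum_mul_left]
    congr 2
    funext n
    rw [hc']
    simp only
    field_simp
  · rw [hD2, h2, ← mul_assoc, mul_comm (A : ℂ), mul_assoc, ← tsum_mul_left]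
    congr 2
    funext n
    rw [hc']
    simp only
    field_simp

end AVG

theorem avg : S_AVG := by
  intro hlap hser ι _ w cr cl cr' cl' A hA1 hw0 hw1 hc hcr hcl hcr' hcl' lam lam' κ s C' hb TR TL TR' TL'
    hTR hTL hTR' hTL' U
  have hA0 : 0 < A := by linarith
  choose Br hBr using hcr
  choose Bl hBl using hcl
  choose Br' hBr' using hcr'
  choose Bl' hBl' using hcl'
  have hn : ∀ (c : ι → ℕ → ℂ), (∀ b n, ‖c b n‖ ≤ 2 * A) → ∀ n, ‖∑ b, (w b : ℂ) * c b n‖ ≤ 2 * A := by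
    intro c hc n
    refine (norm_sum_le _ _).trans ?_
    calc ∑ b, ‖(w b : ℂ) * c b n‖ ≤ ∑ b, w b * (2 * A) := by
          refine Finset.sum_le_sum fun b _ => ?_
          rw [norm_mul, Complex.norm_real, Real.norm_of_nonneg (hw0 b)]
          exact mul_le_mul_of_nonneg_left (hc b n) (hw0 b)
      _ = 2 * A := by rw [← Finset.sum_mul, hw1, one_mul]
  have hM : ∀ (c : ι → ℕ → ℂ) (B : ι → ℝ), (∀ b v, 1 ≤ v → ‖Mx (c b) v‖ ≤ B b * Real.sqrt v) →
      ∀ v, 1 ≤ v → ‖Mx (fun n => ∑ b, (w b : ℂ) * c b n) v‖ ≤ (∑ b, w b * B b) * Real.sqrt v := by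
    intro c B hB v hv
    rw [Mx_sum univ (fun b => (w b : ℂ)) c, Finset.sum_mul]
    refine (norm_sum_le _ _).trans (Finset.sum_le_sum fun b _ => ?_)
    rw [norm_mul, Complex.norm_real, Real.norm_of_nonneg (hw0 b), mul_assoc]
    exact mul_le_mul_of_nonneg_left (hB b v hv) (hw0 b)
  have hTRn : ∀ n, ‖TR n‖ ≤ 2 * A := by rw [hTR]; exact hn cr fun b n => (hc b n).1
  have hTLn : ∀ n, ‖TL n‖ ≤ 2 * A := by rw [hTL]; exact hn cl fun b n => (hc b n).2.1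
  have hTRn' : ∀ n, ‖TR' n‖ ≤ 2 * A := by rw [hTR']; exact hn cr' fun b n => (hc b n).2.2.1
  have hTLn' : ∀ n, ‖TL' n‖ ≤ 2 * A := by rw [hTL']; exact hn cl' fun b n => (hc b n).2.2.2
  have hMR : ∀ v, 1 ≤ v → ‖Mx TR v‖ ≤ (∑ b, w b * Br b) * Real.sqrt v := by rw [hTR]; exact hM cr Br hBr
  have hML : ∀ v, 1 ≤ v → ‖Mx TL v‖ ≤ (∑ b, w b * Bl b) * Real.sqrt v := by rw [hTL]; exact hM cl Bl hBl
  have hMR' : ∀ v, 1 ≤ v → ‖Mx TR' v‖ ≤ (∑ b, w b * Br' b) * Real.sqrt v := by rw [hTR']; exact hM cr' Br' hBr'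
  have hML' : ∀ v, 1 ≤ v → ‖Mx TL' v‖ ≤ (∑ b, w b * Bl' b) * Real.sqrt v := by rw [hTL']; exact hM cl' Bl' hBl'
  have hAv : ∀ u, ‖(aF lam (Mx TR) u - aF lam (Mx TL) (-u)) -
      (κ : ℂ) * (aF lam' (Mx TR') (u - s) - aF lam' (Mx TL') (-(u - s)))‖ ≤ C' := by
    intro u
    have h1 := aF_sum hlap univ (fun b => (w b : ℂ)) cr lam Br (fun b _ v hv => hBr b v hv) u
    have h2 := aF_sum hlap univ (fun b => (w b : ℂ)) cl lam Bl (fun b _ v hv => hBl b v hv) (-u)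
    have h3 := aF_sum hlap univ (fun b => (w b : ℂ)) cr' lam' Br' (fun b _ v hv => hBr' b v hv) (u - s)
    have h4 := aF_sum hlap univ (fun b => (w b : ℂ)) cl' lam' Bl' (fun b _ v hv => hBl' b v hv) (-(u - s))
    rw [hTR, hTL, hTR', hTL', h1, h2, h3, h4]
    have h5 : (∑ b, (w b : ℂ) * aF lam (Mx (cr b)) u - ∑ b, (w b : ℂ) * aF lam (Mx (cl b)) (-u)) -
        (κ : ℂ) * (∑ b, (w b : ℂ) * aF lam' (Mx (cr' b)) (u - s) -
          ∑ b, (w b : ℂ) * aF lam' (Mx (cl' b)) (-(u - s))) =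
        ∑ b, (w b : ℂ) * ((aF lam (Mx (cr b)) u - aF lam (Mx (cl b)) (-u)) -
          (κ : ℂ) * (aF lam' (Mx (cr' b)) (u - s) - aF lam' (Mx (cl' b)) (-(u - s)))) := by
      rw [← Finset.sum_sub_distrib, ← Finset.sum_sub_distrib, Finset.mul_sum, ← Finset.sum_sub_distrib]
      refine Finset.sum_congr rfl fun b _ => ?_
      ring
    rw [h5]
    refine (norm_sum_le _ _).trans ?_
    calc ∑ b, ‖(w b : ℂ) * ((aF lam (Mx (cr b)) u - aF lam (Mx (cl b)) (-u)) -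
          (κ : ℂ) * (aF lam' (Mx (cr' b)) (u - s) - aF lam' (Mx (cl' b)) (-(u - s))))‖
        ≤ ∑ b, w b * C' := by
          refine Finset.sum_le_sum fun b _ => ?_
          rw [norm_mul, Complex.norm_real, Real.norm_of_nonneg (hw0 b)]
          by_cases h0 : w b = 0
          · rw [h0, zero_mul, zero_mul]
          · exact mul_le_mul_of_nonneg_left (hb b h0 u) (hw0 b)
      _ = C' := by rw [← Finset.sum_mul, hw1, one_mul]
  have hD := norm_D_le (fun t => (aF lam (Mx TR) t - aF lam (Mx TL) (-t)) -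
    (κ : ℂ) * (aF lam' (Mx TR') (t - s) - aF lam' (Mx TL') (-(t - s)))) C' hAv (-U)
  have e1 : D (fun t => (aF lam (Mx TR) t - aF lam (Mx TL) (-t)) -
      (κ : ℂ) * (aF lam' (Mx TR') (t - s) - aF lam' (Mx TL') (-(t - s)))) (-U) =
      (D (aF lam (Mx TR)) (-U) - D (fun t => aF lam (Mx TL) (-t)) (-U)) -
      (κ : ℂ) * (D (aF lam' (Mx TR')) (-(U + s)) - D (fun t => aF lam' (Mx TL') (-t)) (-(U + s))) := by
    unfold D
    simp only
    rw [show -U - s = -(U + s) by ring, show -U + Real.log 2 - s = -(U + s) + Real.log 2 by ring,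
      show -U + 2 * Real.log 2 - s = -(U + s) + 2 * Real.log 2 by ring]
    ring
  rw [e1, (AVG.ser_scaled hlap hser lam _ A hA0 TR hTRn hMR (-U)).1,
    (AVG.ser_scaled hlap hser lam _ A hA0 TL hTLn hML (-U)).2,
    (AVG.ser_scaled hlap hser lam' _ A hA0 TR' hTRn' hMR' (-(U + s))).1,
    (AVG.ser_scaled hlap hser lam' _ A hA0 TL' hTLn' hML' (-(U + s))).2] at hD
  rw [neg_neg, sub_neg_eq_add, ← sub_eq_add_neg, neg_neg, sub_neg_eq_add, ← sub_eq_add_neg] at hD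
  exact hD

end Pool.Agent.T2h55.UP
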