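import Pool.Agent.T2h55.UP.Stm

/-! BMP: a periodic bump function -/

set_option autoImplicit false

open Filter Topology MeasureTheory Finset
open Pool.Agent.Y821.ME

namespace Pool.Agent.T2h55.UP

theorem bmp : S_BMP := by
  intro α β hαβ
  obtain ⟨c, hc⟩ : ∃ c : ℝ, c = (α + β) / 2 := ⟨_, rfl⟩
  obtain ⟨d, hd⟩ : ∃ d : ℝ, d = (β - α) / 2 := ⟨_, rfl⟩
  have hd0 : 0 < d := by rw [hd]; linarith
  refine ⟨fun x => max 0 (d - ‖((x - c : ℝ) : AddCircle (1 : ℝ))‖), ?_, ?_, ?_, ⟨c, ?_⟩, ?_⟩
  · refine continuous_const.max (continuous_const.sub (continuous_norm.comp ?_))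
    exact (AddCircle.continuous_mk' (1 : ℝ)).comp (continuous_id.sub continuous_const)
  · intro x
    have e : ((x + 1 - c : ℝ) : AddCircle (1 : ℝ)) = ((x - c : ℝ) : AddCircle (1 : ℝ)) := by
      have : x + 1 - c = (x - c) + 1 := by ring
      rw [this]
      exact AddCircle.coe_add_period 1 (x - c)
    simp only [e]
  · intro x
    exact le_max_left _ _
  · simp only [sub_self, AddCircle.coe_zero, norm_zero, sub_zero]
    rw [max_eq_right hd0.le]
    exact hd0.ne'
  · intro x hx
    have h1 : ‖((x - c : ℝ) : AddCircle (1 : ℝ))‖ < d := by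
      by_contra hcon
      push Not at hcon
      exact hx (max_eq_left (by linarith))
    rw [AddCircle.norm_eq] at h1
    simp only [inv_one, one_mul, mul_one] at h1
    refine ⟨-round (x - c), ?_⟩
    rw [abs_lt] at h1
    push_cast
    constructor <;> linarith [h1.1, h1.2]

end Pool.Agent.T2h55.UP
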