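import Pool.Agent.T2h55.UP.StmB

/-! Task CRK of project UP, part B: the coefficients for every exponent `k ≥ 2`. -/

set_option autoImplicit false

open Filter Topology MeasureTheory Finset
open Pool.Agent.Y821.ME

namespace Pool.Agent.T2h55.UP

namespace CRK

section

variable {p k : ℕ} [NeZero (p ^ k)]

omit [NeZero (p ^ k)] in
theorem isUnit_nat (hp : p.Prime) (n : ℕ) (hn : ¬ p ∣ n) : IsUnit (n : ZMod (p ^ k)) := by
  rw [ZMod.isUnit_iff_coprime]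
  exact (Nat.Coprime.pow_left _ ((Nat.Prime.coprime_iff_not_dvd hp).mpr hn)).symm

omit [NeZero (p ^ k)] in
theorem not_isUnit_nat (hp : p.Prime) (hk : 1 ≤ k) (n : ℕ) (hn : p ∣ n) :
    ¬ IsUnit (n : ZMod (p ^ k)) := by
  rw [ZMod.isUnit_iff_coprime]
  intro h
  have h1 : p ∣ Nat.gcd n (p ^ k) := Nat.dvd_gcd hn (dvd_pow_self p (by omega))
  rw [h] at h1
  exact hp.one_lt.ne' (Nat.dvd_one.mp h1)

theorem cR_eq (hch : S_CHK) (hp : p.Prime) (hp2 : p ≠ 2) (hk : 2 ≤ k) (a : (ZMod (p ^ k))ˣ) (n : ℕ) :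
    cR (p ^ k) a n = (cop p k a n + cop p k (-a) n) / 2 := by
  unfold cop
  by_cases hn : p ∣ n
  · rw [if_pos hn, if_pos hn]
    have h1 := not_isUnit_nat (k := k) hp (by omega) n hn
    unfold cR
    rw [Finset.sum_eq_zero]
    · simp
    · intro χ _
      rw [MulChar.map_nonunit _ h1, mul_zero]
  · rw [if_neg hn, if_neg hn]
    obtain ⟨n', hn'⟩ := isUnit_nat (k := k) hp n hn
    have h1 := (hch p k hp hp2 hk a).1 n'
    rw [hn'] at h1
    unfold cR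
    rw [h1, neg_mul]

theorem norm_cR_le (hch : S_CHK) (hp : p.Prime) (hp2 : p ≠ 2) (hk : 2 ≤ k) (a : (ZMod (p ^ k))ˣ) (n : ℕ) :
    ‖cR (p ^ k) a n‖ ≤ 1 := by
  rw [cR_eq hch hp hp2 hk]
  have h1 : ∀ b : ZMod (p ^ k), ‖cop p k b n‖ ≤ 1 := by
    intro b
    unfold cop
    split_ifs
    · simp
    · rw [norm_ee]
  rw [norm_div, Complex.norm_ofNat]
  have := norm_add_le (cop p k (a : ZMod (p ^ k)) n) (cop p k (-a) n)
  have := h1 a
  have := h1 (-a)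
  linarith

theorem Mx_cR (hch : S_CHK) (hp : p.Prime) (hp2 : p ≠ 2) (hk : 2 ≤ k) (a : (ZMod (p ^ k))ˣ) (v : ℝ) :
    Mx (cR (p ^ k) a) v = (Mx (cop p k a) v + Mx (cop p k (-a)) v) / 2 := by
  unfold Mx
  rw [← Finset.sum_add_distrib, Finset.sum_div]
  refine Finset.sum_congr rfl fun n _ => ?_
  rw [cR_eq hch hp hp2 hk]
  ring

theorem cR_bound (hch : S_CHK) (hp : p.Prime) (hp2 : p ≠ 2) (hk : 2 ≤ k) {C : ℝ} (hC : 0 ≤ C)
    (h : Two.HypQ C p k) (a : (ZMod (p ^ k))ˣ) :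
    ∃ B : ℝ, ∀ v, 1 ≤ v → ‖Mx (cR (p ^ k) a) v‖ ≤ B * Real.sqrt v := by
  obtain ⟨B1, -, h1⟩ := Two.Mx_cop_all hp hk hC h (a : ZMod (p ^ k)) a.isUnit
  obtain ⟨B2, -, h2⟩ := Two.Mx_cop_all hp hk hC h (-a : ZMod (p ^ k)) a.isUnit.neg
  refine ⟨(B1 + B2) / 2, fun v hv => ?_⟩
  rw [Mx_cR hch hp hp2 hk, norm_div, Complex.norm_ofNat]
  have := norm_add_le (Mx (cop p k (a : ZMod (p ^ k))) v) (Mx (cop p k (-a)) v)
  have := h1 v (by linarith)
  have := h2 v (by linarith)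
  linarith

end

end CRK

theorem crk (h : S_CHK) : S_CRK := by
  intro p k _ hp hp2 hk a
  refine ⟨CRK.cR_eq h hp hp2 hk a, CRK.norm_cR_le h hp hp2 hk a, ?_, ?_, ?_⟩
  · intro n hn
    have h1 := CRK.not_isUnit_nat (k := k) hp (by omega) n hn
    unfold cL
    refine Finset.sum_eq_zero fun χ _ => ?_
    rw [MulChar.map_nonunit _ h1, mul_zero]
  · intro m n hn
    have h1 := (h p k hp hp2 hk a).2 m
    rw [hn] at h1
    unfold cL
    exact h1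
  · intro C₁ hC₁ hQ
    refine ⟨CRK.cR_bound h hp hp2 hk hC₁ hQ a, ?_⟩
    exact Two.cL_bound (p ^ k) (fun χ hχ => Two.Mx_chi hp (by omega) hC₁ hQ hχ) (a : ZMod (p ^ k))

end Pool.Agent.T2h55.UP
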