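import Pool.Agent.T2h55.UP.StmB

/-! Task DT of project UP, part B: translations. -/

set_option autoImplicit false

open Filter Topology MeasureTheory Finset
open Pool.Agent.Y821.ME

namespace Pool.Agent.T2h55.UP

theorem dt : S_DT := by
  intro A s hA k hk1 hk2 hk3
  obtain ⟨Γ, c, h⟩ := hA k hk1 hk2 hk3
  refine ⟨Γ, fun γ => c γ * Complex.exp (-(Complex.I * γ * s)), fun u => ?_⟩
  have h1 := h (u - s)
  have h2 : ∫ v : ℝ, A (v - s) * ∫ t : ℝ, k t * Complex.exp (Complex.I * t * (u - v)) =
      ∫ v : ℝ, A v * ∫ t : ℝ, k t * Complex.exp (Complex.I * t * ((u - s : ℝ) - v)) := by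
    rw [← integral_sub_right_eq_self
      (fun v : ℝ => A v * ∫ t : ℝ, k t * Complex.exp (Complex.I * t * ((u - s : ℝ) - v))) s]
    refine integral_congr_ae (Eventually.of_forall fun v => ?_)
    simp only
    congr 2
    funext t
    congr 2
    push_cast
    ring
  rw [h2]
  simp only [Complex.ofReal_sub] at h1 ⊢
  rw [h1]
  refine Finset.sum_congr rfl fun γ _ => ?_
  rw [mul_assoc (c γ), ← Complex.exp_add]
  congr 2
  ring

end Pool.Agent.T2h55.UP
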