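import Pool.Agent.T2h55.UP.FinB

/-! # Infinitely many big points modulo one -/

set_option autoImplicit false

open Filter Topology MeasureTheory Finset
open Pool.Agent.Y821.ME

namespace Pool.Agent.T2h55.UP

theorem F_add_int' (R : ℕ) (x : ℝ) (m : ℤ) : F R (x + m) = F R x := by
  unfold F
  refine Finset.sum_congr rfl fun n _ => ?_
  congr 1
  have e : 2 * (Real.pi : ℂ) * Complex.I * n * ((x + m : ℝ) : ℂ) =
      2 * Real.pi * Complex.I * n * (x : ℂ) + ((n * m : ℤ) : ℂ) * (2 * Real.pi * Complex.I) := by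
    push_cast
    ring
  rw [e, Complex.exp_add, Complex.exp_int_mul_two_pi_mul_I, mul_one]

theorem Big_fract {x : ℝ} (h : Big x) : Big (Int.fract x) := by
  intro C
  refine (h C).mono fun R hR => ?_
  have e : Int.fract x = x + ((-⌊x⌋ : ℤ) : ℝ) := by
    rw [Int.fract]
    push_cast
    ring
  rw [e, F_add_int']
  exact hR

/-- the dichotomy -/
theorem dichC (h : S_MAINB) : (∀ᶠ x in residual ℝ, Big x) ∨ ∀ p : ℕ, p.Prime → p ≠ 2 →
    ∀ᶠ l : ℕ in atTop, ∃ a : ℕ, ¬ p ∣ a ∧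
      (Big ((a : ℝ) / (p : ℝ) ^ (2 * l)) ∨ Big ((a : ℝ) / (p : ℝ) ^ (2 * l - 1))) := by
  by_cases hB : ∀ᶠ x in residual ℝ, Big x
  · exact Or.inl hB
  · exact Or.inr fun p hp hp2 => (dichB h hp hp2).resolve_right hB

theorem infinite_big (h : S_MAINB) : {x : ℝ | x ∈ Set.Ico (0 : ℝ) 1 ∧ Big x}.Infinite := by
  rcases dichC h with h1 | h1
  · intro hfin
    have hd : Dense {x : ℝ | Big x} := dense_of_mem_residual h1
    have hd2 := hd.sdiff_finite hfin
    obtain ⟨x, hx1, hx2⟩ := hd2.inter_open_nonempty (Set.Ioo (0 : ℝ) 1) isOpen_Ioo ⟨1 / 2, by norm_num, by norm_num⟩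
    exact hx2.2 ⟨⟨hx1.1.le, hx1.2⟩, hx2.1⟩
  · obtain ⟨l₀, hl₀⟩ := eventually_atTop.1 (h1 3 Nat.prime_three (by norm_num))
    have h2 : ∀ n : ℕ, ∃ a k : ℕ, ¬ 3 ∣ a ∧ 2 * (l₀ + n) + 1 ≤ k ∧ k ≤ 2 * (l₀ + n) + 2 ∧
        Big ((a : ℝ) / (3 : ℝ) ^ k) := by
      intro n
      obtain ⟨a, ha, hb | hb⟩ := hl₀ (l₀ + n + 1) (by omega)
      · refine ⟨a, 2 * (l₀ + n + 1), ha, by omega, by omega, ?_⟩
        exact_mod_cast hb
      · refine ⟨a, 2 * (l₀ + n + 1) - 1, ha, by omega, by omega, ?_⟩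
        exact_mod_cast hb
    choose a k ha hk1 hk2 hb using h2
    refine Set.infinite_of_injective_forall_mem (f := fun n : ℕ => Int.fract ((a n : ℝ) / (3 : ℝ) ^ k n)) ?_
      (fun n => ⟨⟨Int.fract_nonneg _, Int.fract_lt_one _⟩, Big_fract (hb n)⟩)
    have key : ∀ m n : ℕ, m < n →
        Int.fract ((a m : ℝ) / (3 : ℝ) ^ k m) ≠ Int.fract ((a n : ℝ) / (3 : ℝ) ^ k n) := by
      intro m n hmn heq
      obtain ⟨z, hz⟩ := Int.fract_eq_fract.1 heq
      have hkk : k m < k n := by have := hk1 n; have := hk2 m; omega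
      obtain ⟨d, hd⟩ : ∃ d, k n = k m + d + 1 := ⟨k n - k m - 1, by omega⟩
      have h3 : (3 : ℝ) ^ k m ≠ 0 := by positivity
      have h4 : (3 : ℝ) ^ k n = (3 : ℝ) ^ k m * (3 * 3 ^ d) := by
        rw [hd]; ring
      have h5 : (a n : ℝ) = (a m : ℝ) * (3 * 3 ^ d) - z * ((3 : ℝ) ^ k m * (3 * 3 ^ d)) := by
        rw [h4] at hz
        have h6 : (3 * 3 ^ d : ℝ) ≠ 0 := by positivity
        field_simp at hz
        linarith
      have h6 : (a n : ℤ) = 3 * ((a m : ℤ) * 3 ^ d - z * (3 ^ k m * 3 ^ d)) := by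
        have h7 : ((a n : ℤ) : ℝ) = ((3 * ((a m : ℤ) * 3 ^ d - z * (3 ^ k m * 3 ^ d)) : ℤ) : ℝ) := by
          push_cast
          linarith
        exact_mod_cast h7
      have h8 : (3 : ℤ) ∣ (a n : ℤ) := ⟨_, h6⟩
      exact ha n (by exact_mod_cast h8)
    intro m n hmn
    rcases lt_trichotomy m n with hlt | heq | hgt
    · exact absurd hmn (key m n hlt)
    · exact heq
    · exact absurd hmn.symm (key n m hgt)

end Pool.Agent.T2h55.UP
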