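import Pool.Agent.T2h55.UP.StmB

/-!
# Project UP, part B: task HV
-/

set_option autoImplicit false

open Filter Topology MeasureTheory Finset
open Pool.Agent.Y821.ME

namespace Pool.Agent.T2h55.UP

namespace HV

theorem F_add_int (R : ℕ) (x : ℝ) (n : ℤ) : F R (x + n) = F R x := by
  unfold F
  refine Finset.sum_congr rfl fun m _ => ?_
  congr 1
  have h : (2 * Real.pi * Complex.I * (m : ℂ) * ((x + (n : ℝ) : ℝ) : ℂ) : ℂ) =
      2 * Real.pi * Complex.I * m * (x : ℂ) + ((m * n : ℤ) : ℂ) * (2 * Real.pi * Complex.I) := by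
    push_cast
    ring
  rw [h, Complex.exp_add, Complex.exp_int_mul_two_pi_mul_I, mul_one]

theorem mu_mul_prime {p : ℕ} (hp : p.Prime) (m : ℕ) : mu (p * m) = if p ∣ m then 0 else -mu m := by
  unfold mu
  by_cases h : p ∣ m
  · rw [if_pos h]
    have h1 : ¬ Squarefree (p * m) := by
      intro hs
      obtain ⟨c, rfl⟩ := h
      have h2 := hs p ⟨c, by ring⟩
      exact hp.one_lt.ne' (Nat.isUnit_iff.mp h2)
    rw [ArithmeticFunction.moebius_eq_zero_of_not_squarefree h1]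
    simp
  · rw [if_neg h]
    have hc : Nat.Coprime p m := (Nat.Prime.coprime_iff_not_dvd hp).mpr h
    rw [ArithmeticFunction.isMultiplicative_moebius.map_mul_of_coprime hc,
      ArithmeticFunction.moebius_apply_prime hp]
    push_cast
    ring

theorem ee_int {q : ℕ} [NeZero q] (j : ℤ) : ee q (j : ZMod q) = Complex.exp (2 * Real.pi * Complex.I * j / q) :=
  ZMod.stdAddChar_coe j

theorem ee_red {q q' p : ℕ} [NeZero q] [NeZero q'] (hq : q = p * q') (hp : p ≠ 0) (a : ZMod q) (a' : ZMod q')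
    (ha : a' = (a.val : ZMod q')) (m : ℕ) : ee q (a * ((p * m : ℕ) : ZMod q)) = ee q' (a' * m) := by
  have h1 : a * ((p * m : ℕ) : ZMod q) = (((a.val * (p * m) : ℕ) : ℤ) : ZMod q) := by
    push_cast
    rw [ZMod.natCast_val, ZMod.cast_id', id]
  have h2 : a' * (m : ZMod q') = (((a.val * m : ℕ) : ℤ) : ZMod q') := by
    push_cast
    rw [ha]
  have hp0 : (p : ℂ) ≠ 0 := Nat.cast_ne_zero.mpr hp
  have hq0 : (q' : ℂ) ≠ 0 := Nat.cast_ne_zero.mpr (NeZero.ne q')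
  rw [h1, h2, ee_int, ee_int]
  congr 1
  have h3 : ((q : ℕ) : ℂ) = (p : ℂ) * q' := by rw [hq]; push_cast; ring
  rw [h3]
  push_cast
  field_simp

theorem split {p k k' : ℕ} [NeZero (p ^ k)] [NeZero (p ^ k')] (hp : p.Prime) (hk : k = k' + 1)
    (a : ZMod (p ^ k)) (a' : ZMod (p ^ k')) (ha : a' = (a.val : ZMod (p ^ k'))) (v : ℝ) :
    Mx (fun n => ee (p ^ k) (a * n)) v = Mx (cop p k a) v - Mx (cop p k' a') (v / p) := by
  have hq : p ^ k = p * p ^ k' := by rw [hk, pow_succ]; ring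
  unfold Mx
  have hfl : ⌊v / (p : ℝ)⌋₊ = ⌊v⌋₊ / p := Nat.floor_div_natCast v p
  rw [hfl]
  set N := ⌊v⌋₊ with hN
  have h1 : ∑ n ∈ Icc 1 N, mu n * ee (p ^ k) (a * n) =
      ∑ n ∈ Icc 1 N, mu n * cop p k a n +
        ∑ n ∈ (Icc 1 N).filter (fun n => p ∣ n), mu n * ee (p ^ k) (a * n) := by
    rw [Finset.sum_filter, ← Finset.sum_add_distrib]
    refine Finset.sum_congr rfl fun n _ => ?_
    unfold cop
    by_cases h : p ∣ n
    · rw [if_pos h, if_pos h]; ring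
    · rw [if_neg h, if_neg h]; ring
  have h2 : ∑ n ∈ (Icc 1 N).filter (fun n => p ∣ n), mu n * ee (p ^ k) (a * n) =
      ∑ m ∈ Icc 1 (N / p), mu (p * m) * ee (p ^ k) (a * ((p * m : ℕ) : ZMod (p ^ k))) := by
    symm
    rw [← Finset.sum_image (f := fun n : ℕ => mu n * ee (p ^ k) (a * n)) (g := fun m : ℕ => p * m)
      (s := Icc 1 (N / p))]
    · refine Finset.sum_congr ?_ fun _ _ => rfl
      ext n
      simp only [Finset.mem_image, Finset.mem_filter, Finset.mem_Icc]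
      constructor
      · rintro ⟨m, ⟨h3, h4⟩, rfl⟩
        refine ⟨⟨Nat.mul_pos hp.pos h3, ?_⟩, dvd_mul_right p m⟩
        rw [mul_comm]
        exact (Nat.le_div_iff_mul_le hp.pos).mp h4
      · rintro ⟨⟨h3, h4⟩, ⟨m, rfl⟩⟩
        refine ⟨m, ⟨Nat.pos_of_ne_zero ?_, ?_⟩, rfl⟩
        · rintro rfl; simp at h3
        · rw [Nat.le_div_iff_mul_le hp.pos, mul_comm]; exact h4
    · intro x _ y _ hxy
      exact Nat.eq_of_mul_eq_mul_left hp.pos hxy
  rw [h1, h2, sub_eq_add_neg, ← Finset.sum_neg_distrib]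
  congr 1
  refine Finset.sum_congr rfl fun m _ => ?_
  rw [mu_mul_prime hp, ee_red hq hp.ne_zero a a' ha m]
  unfold cop
  by_cases h : p ∣ m
  · rw [if_pos h, if_pos h]; ring
  · rw [if_neg h, if_neg h]; ring

theorem cop_neg {p k : ℕ} [NeZero (p ^ k)] (a : ZMod (p ^ k)) (n : ℕ) :
    cop p k (-a) n = (starRingEnd ℂ) (cop p k a n) := by
  unfold cop
  by_cases h : p ∣ n
  · rw [if_pos h, if_pos h, map_zero]
  · rw [if_neg h, if_neg h]
    unfold ee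
    rw [neg_mul, AddChar.map_neg_eq_conj]

theorem Mx_cop_neg {p k : ℕ} [NeZero (p ^ k)] (a : ZMod (p ^ k)) (v : ℝ) :
    Mx (cop p k (-a)) v = (starRingEnd ℂ) (Mx (cop p k a) v) := by
  unfold Mx
  rw [map_sum]
  refine Finset.sum_congr rfl fun n _ => ?_
  rw [cop_neg, map_mul]
  congr 1
  unfold mu
  rw [map_intCast]

theorem Mx_half {c c₁ c₂ : ℕ → ℂ} (h : ∀ n, c n = (c₁ n + c₂ n) / 2) (v : ℝ) :
    Mx c v = (Mx c₁ v + Mx c₂ v) / 2 := by
  unfold Mx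
  rw [← Finset.sum_add_distrib, Finset.sum_div]
  refine Finset.sum_congr rfl fun n _ => ?_
  rw [h n]
  ring

end HV

open HV in
theorem hv (h : S_CRK) : S_HV := by
  intro p l _ _ hp hp2 hl C α β R₀ hC hF a ⟨n, hn⟩
  have hkk : 2 * l = (2 * l - 1) + 1 := by omega
  refine ⟨max R₀ 0, fun v hv => ?_⟩
  have hv0 : 0 ≤ v := (le_max_right _ _).trans hv
  have hvR : (R₀ : ℝ) ≤ v := (le_max_left _ _).trans hv
  have hc1 := (h p (2 * l) hp hp2 (by omega) a).1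
  have hc2 := (h p (2 * l - 1) hp hp2 (by omega) (rd p l a)).1
  set b : ZMod (p ^ (2 * l)) := (a : ZMod (p ^ (2 * l))) with hb
  set b' : ZMod (p ^ (2 * l - 1)) := ((rd p l a : (ZMod (p ^ (2 * l - 1)))ˣ) : ZMod (p ^ (2 * l - 1))) with hb'
  have hbb : b' = (b.val : ZMod (p ^ (2 * l - 1))) := by
    rw [hb', rd, ZMod.unitsMap_val, ZMod.natCast_val]
  have hs := split hp hkk b b' hbb v
  rw [Mx_ee] at hs
  have hM1 : Mx (cR (p ^ (2 * l)) b) v = (Mx (cop p (2 * l) b) v + Mx (cop p (2 * l) (-b)) v) / 2 :=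
    Mx_half hc1 v
  have hM2 : Mx (cR (p ^ (2 * l - 1)) b') (v / p) =
      (Mx (cop p (2 * l - 1) b') (v / p) + Mx (cop p (2 * l - 1) (-b')) (v / p)) / 2 :=
    Mx_half hc2 (v / p)
  rw [hM1, hM2, Mx_cop_neg, Mx_cop_neg]
  set A : ℂ := F ⌊v⌋₊ (((b.val / (p ^ (2 * l) : ℕ) : ℚ) : ℝ)) with hA
  have hA1 : ‖A‖ ≤ C * Real.sqrt v := by
    have h1 : R₀ ≤ ⌊v⌋₊ := Nat.le_floor hvR
    have h2 := hF _ hn ⌊v⌋₊ h1
    rw [F_add_int] at h2
    have h3 : (((b.val / (p ^ (2 * l) : ℕ) : ℚ) : ℝ)) = (b.val : ℝ) / (p : ℝ) ^ (2 * l) := by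
      push_cast
      ring
    rw [hA, h3]
    exact h2.trans (floor_bound hC hv0)
  have h4 : (Mx (cop p (2 * l) b) v + (starRingEnd ℂ) (Mx (cop p (2 * l) b) v)) / 2 -
      (Mx (cop p (2 * l - 1) b') (v / p) + (starRingEnd ℂ) (Mx (cop p (2 * l - 1) b') (v / p))) / 2 =
      (A + (starRingEnd ℂ) A) / 2 := by
    rw [hs, map_sub]
    ring
  rw [h4, norm_div, Complex.norm_ofNat]
  have h5 : ‖A + (starRingEnd ℂ) A‖ ≤ ‖A‖ + ‖A‖ := by
    refine (norm_add_le _ _).trans (le_of_eq ?_)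
    rw [RCLike.norm_conj]
  linarith

end Pool.Agent.T2h55.UP
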