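import Pool.Agent.T2h55.UP.StmB
import Pool.Agent.Y821.ME.Fin2C

/-!
# Project UP, part B, task INEQB (helper62): the inequality for two levels
-/

set_option autoImplicit false

open Filter Topology MeasureTheory Finset
open Pool.Agent.Y821.ME

namespace Pool.Agent.T2h55.UP

namespace INEQB

section

variable (q : ℕ) [NeZero q]

/-- one level -/
theorem one (htrig : S_TRIG) (hlap : S_LAP) (hpair : S_PAIR)
    (hq : 2 ≤ q) (hch0 : ∀ χ : DirichletCharacter ℂ q, χ.IsPrimitive →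
      ∃ B : ℝ, 0 ≤ B ∧ ∀ v : ℝ, 1 ≤ v → ‖Mx (fun n => χ n) v‖ ≤ B * Real.sqrt v) (a : ZMod q)
    (lam : ℝ) (hlam : lam = Real.log (q / Real.pi) / 2) :
    Continuous (fun u => aF lam (Mx (cR q a)) u - aF lam (Mx (cL q a)) (-u)) ∧
    (∃ B : ℝ, ∀ u, ‖aF lam (Mx (cR q a)) u - aF lam (Mx (cL q a)) (-u)‖ ≤ B) ∧
    Disc (fun u => aF lam (Mx (cR q a)) u - aF lam (Mx (cL q a)) (-u)) ∧
    Tendsto (fun u => ‖aF lam (Mx (cL q a)) (-u)‖) atTop (𝓝 0) := by
  classical
  have hev : ∀ χ ∈ Ev q, χ.Even ∧ χ.IsPrimitive := fun χ hχ => by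
    unfold Ev at hχ
    exact (Finset.mem_filter.mp hχ).2
  have hBχ : ∀ χ : DirichletCharacter ℂ q, ∃ B : ℝ, χ.IsPrimitive → ∀ v, 1 ≤ v →
      ‖Mx (fun n => χ n) v‖ ≤ B * Real.sqrt v := by
    intro χ
    by_cases hp : χ.IsPrimitive
    · obtain ⟨B, -, hB⟩ := hch0 χ hp
      exact ⟨B, fun _ => hB⟩
    · exact ⟨0, fun hp' => absurd hp' hp⟩
  choose Bχ hBχ using hBχ
  have hP : ∀ χ ∈ Ev q, Pair (aF lam (Mx (fun n => χ n)))
      (fun u => (DirichletCharacter.rootNumber χ)⁻¹ * aF lam (Mx (fun n => χ⁻¹ n)) u) := by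
    intro χ hχ
    obtain ⟨he, hp⟩ := hev χ hχ
    rw [hlam]
    refine hpair q χ hq hp he ⟨max (Bχ χ) (Bχ χ⁻¹), fun v hv => ⟨?_, ?_⟩⟩
    · exact (hBχ χ hp v hv).trans (mul_le_mul_of_nonneg_right (le_max_left _ _) (Real.sqrt_nonneg _))
    · exact (hBχ χ⁻¹ (inv_prim q hp) v hv).trans
        (mul_le_mul_of_nonneg_right (le_max_right _ _) (Real.sqrt_nonneg _))
  -- the function
  set A : ℝ → ℂ := fun u => ∑ χ ∈ Ev q, cf q a χ * (aF lam (Mx (fun n => χ n)) u -
    (DirichletCharacter.rootNumber χ)⁻¹ * aF lam (Mx (fun n => χ⁻¹ n)) (-u)) with hA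
  have hAeq : A = fun u => aF lam (Mx (cR q a)) u - aF lam (Mx (cL q a)) (-u) := by
    funext u
    have h1 := aF_sum hlap (Ev q) (fun χ => cf q a χ) (fun χ n => χ n) lam Bχ
      (fun χ hχ v hv => hBχ χ (hev χ hχ).2 v hv) u
    have h2 := aF_sum hlap (Ev q) (fun χ => cf q a χ * (DirichletCharacter.rootNumber χ)⁻¹)
      (fun χ n => χ⁻¹ n) lam (fun χ => Bχ χ⁻¹)
      (fun χ hχ v hv => hBχ χ⁻¹ (inv_prim q (hev χ hχ).2) v hv) (-u)
    have h3 : cR q a = fun n : ℕ => ∑ χ ∈ Ev q, cf q a χ * χ n := rfl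
    have h4 : cL q a = fun n : ℕ => ∑ χ ∈ Ev q, cf q a χ * (DirichletCharacter.rootNumber χ)⁻¹ * χ⁻¹ n := rfl
    rw [h3, h4, h1, h2, hA, ← Finset.sum_sub_distrib]
    refine Finset.sum_congr rfl fun χ _ => ?_
    ring
  have hcont : ∀ χ ∈ Ev q, Continuous (fun u => aF lam (Mx (fun n => χ n)) u -
      (DirichletCharacter.rootNumber χ)⁻¹ * aF lam (Mx (fun n => χ⁻¹ n)) (-u)) := by
    intro χ hχ
    exact (hP χ hχ).ca.sub ((hP χ hχ).cb.comp continuous_neg)
  have hbdd : ∀ χ ∈ Ev q, ∃ B : ℝ, ∀ u, ‖aF lam (Mx (fun n => χ n)) u -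
      (DirichletCharacter.rootNumber χ)⁻¹ * aF lam (Mx (fun n => χ⁻¹ n)) (-u)‖ ≤ B := by
    intro χ hχ
    obtain ⟨B, hB⟩ := (hP χ hχ).bd
    refine ⟨B + B, fun u => (norm_sub_le _ _).trans (add_le_add (hB u).1 (hB (-u)).2.2.1)⟩
  have hdisc : Disc A := Disc_sum (Ev q) (fun χ => cf q a χ) _ hcont hbdd
    (fun χ hχ => htrig _ _ (hP χ hχ))
  have hAc : Continuous A := continuous_finsetSum _ fun χ hχ => continuous_const.mul (hcont χ hχ)
  have hAb : ∃ B : ℝ, ∀ u, ‖A u‖ ≤ B := by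
    have hex : ∀ χ : DirichletCharacter ℂ q, ∃ B : ℝ, χ ∈ Ev q → ∀ u, ‖aF lam (Mx (fun n => χ n)) u -
      (DirichletCharacter.rootNumber χ)⁻¹ * aF lam (Mx (fun n => χ⁻¹ n)) (-u)‖ ≤ B := by
      intro χ
      by_cases hχ : χ ∈ Ev q
      · obtain ⟨B, hB⟩ := hbdd χ hχ
        exact ⟨B, fun _ => hB⟩
      · exact ⟨0, fun h => absurd h hχ⟩
    choose B hB using hex
    refine ⟨∑ χ ∈ Ev q, ‖cf q a χ‖ * B χ, fun u => (norm_sum_le _ _).trans
      (Finset.sum_le_sum fun χ hχ => ?_)⟩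
    rw [norm_mul]
    exact mul_le_mul_of_nonneg_left (hB χ hχ u) (norm_nonneg _)
  obtain ⟨BL, hBL⟩ := Two.cL_bound q hch0 a
  obtain ⟨-, -, ⟨B', hB'⟩, -⟩ := hlap lam BL (Mx (cL q a)) (Mx_measurable _) (Mx_lt_one _) hBL
  rw [hAeq] at hdisc hAc hAb
  refine ⟨hAc, hAb, hdisc, ?_⟩
  have h2 : Tendsto (fun u : ℝ => B' * Real.exp (-u / 2)) atTop (𝓝 (B' * 0)) := by
    refine Tendsto.const_mul _ ?_
    refine Real.tendsto_exp_atBot.comp ?_
    have h3 : (fun u : ℝ => -u / 2) = fun u => -(u / 2) := by funext u; ring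
    rw [h3]
    exact tendsto_neg_atTop_atBot.comp (tendsto_id.atTop_div_const (by norm_num))
  rw [mul_zero] at h2
  exact squeeze_zero (fun u => norm_nonneg _) (fun u => (hB' (-u)).2) h2

end

/-- two functions with means -/
theorem aF_sub (lam u : ℝ) (M N : ℝ → ℂ)
    (hM : IntegrableOn (fun v : ℝ => M v * (th1 (v * Real.exp (lam - u)) / v : ℝ)) (Set.Ioi 0))
    (hN : IntegrableOn (fun v : ℝ => N v * (th1 (v * Real.exp (lam - u)) / v : ℝ)) (Set.Ioi 0)) :
    aF lam (fun v => M v - N v) u = aF lam M u - aF lam N u := by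
  unfold aF
  rw [← mul_sub, ← integral_sub hM hN]
  congr 2
  funext v
  ring

end INEQB

open INEQB in
theorem ineqb : S_INEQB := by
  intro htrig hsup hlap hlim hpair hsh hdt p q q' _ _ hp hq hq' hch hch' C a a' hC hB hB' hv lam hlam
    u
  have hp1 : (1 : ℝ) ≤ p := by exact_mod_cast hp
  have hp0 : (0 : ℝ) < p := by linarith
  have hq2 : 2 ≤ q := by
    rw [hq]
    nlinarith
  set s : ℝ := 3 / 2 * Real.log p with hs
  have hlam' : lam - Real.log p / 2 = Real.log (q' / Real.pi) / 2 := by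
    have h1 : (q : ℝ) / Real.pi = p * (q' / Real.pi) := by
      rw [hq]
      push_cast
      ring
    have h2 : (0 : ℝ) < q' / Real.pi := by
      have : (0 : ℝ) < q' := by exact_mod_cast (by omega : 0 < q')
      positivity
    rw [hlam, h1, Real.log_mul hp0.ne' h2.ne']
    ring
  obtain ⟨c1, ⟨b1, hb1⟩, d1, t1⟩ := one q htrig hlap hpair hq2 hch a lam hlam
  obtain ⟨c2, ⟨b2, hb2⟩, d2, t2⟩ := one q' htrig hlap hpair hq' hch' a' _ hlam'
  set lam' := lam - Real.log p / 2 with hl'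
  set A₁ : ℝ → ℂ := fun u => aF lam (Mx (cR q a)) u - aF lam (Mx (cL q a)) (-u) with hA1
  set A₂ : ℝ → ℂ := fun u => aF lam' (Mx (cR q' a')) u - aF lam' (Mx (cL q' a')) (-u) with hA2
  set A : ℝ → ℂ := fun u => A₁ u - (kap p : ℂ) * A₂ (u - s) with hA
  have hAc : Continuous A := c1.sub (continuous_const.mul (c2.comp (continuous_id.sub continuous_const)))
  have hAb : ∃ B : ℝ, ∀ u, ‖A u‖ ≤ B := by
    refine ⟨b1 + ‖(kap p : ℂ)‖ * b2, fun u => (norm_sub_le _ _).trans (add_le_add (hb1 u) ?_)⟩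
    rw [norm_mul]
    exact mul_le_mul_of_nonneg_left (hb2 _) (norm_nonneg _)
  have hAd : Disc A := by
    have h1 := Disc_sum (Finset.univ : Finset Bool) (fun b => if b then (1 : ℂ) else -(kap p : ℂ))
      (fun b => if b then A₁ else fun u => A₂ (u - s)) ?_ ?_ ?_
    · have e : A = fun u => ∑ b : Bool, (if b then (1 : ℂ) else -(kap p : ℂ)) *
          (if b then A₁ else fun u => A₂ (u - s)) u := by
        funext u
        simp only [Fintype.sum_bool, hA]
        simp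
        ring
      rw [e]
      exact h1
    · intro b _
      cases b
      · simp only [Bool.false_eq_true, if_false]
        exact c2.comp (continuous_id.sub continuous_const)
      · simpa using c1
    · intro b _
      cases b
      · simpa using ⟨b2, fun u => hb2 (u - s)⟩
      · simpa using ⟨b1, hb1⟩
    · intro b _
      cases b
      · simpa using hdt A₂ s d2
      · simpa using d1
  -- the upper limit
  obtain ⟨BR, hBR⟩ := hB
  obtain ⟨BR', hBR'⟩ := hB'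
  obtain ⟨v₀, hv₀⟩ := hv
  have hM1m : Measurable (Mx (cR q a)) := Mx_measurable _
  have hM2m : Measurable fun v : ℝ => Mx (cR q' a') (v / p) :=
    (Mx_measurable _).comp (measurable_id.div_const _)
  have hM2z : ∀ v : ℝ, v < 1 → Mx (cR q' a') (v / p) = 0 := by
    intro v hv
    refine Mx_lt_one _ _ ?_
    rw [div_lt_one hp0]
    linarith
  have hM2b : ∀ v : ℝ, 1 ≤ v → ‖Mx (cR q' a') (v / p)‖ ≤ |BR'| * Real.sqrt v := by
    intro v hv
    rcases le_or_gt 1 (v / p) with h | h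
    · refine (hBR' _ h).trans ?_
      refine (mul_le_mul_of_nonneg_right (le_abs_self _) (Real.sqrt_nonneg _)).trans ?_
      refine mul_le_mul_of_nonneg_left (Real.sqrt_le_sqrt ?_) (abs_nonneg _)
      exact div_le_self (by linarith) hp1
    · rw [Mx_lt_one _ _ h, norm_zero]
      positivity
  obtain ⟨-, i1, -, -⟩ := hlap lam BR (Mx (cR q a)) hM1m (Mx_lt_one _) hBR
  obtain ⟨-, i2, -, -⟩ := hlap lam |BR'| (fun v => Mx (cR q' a') (v / p)) hM2m hM2z hM2b
  have hMain : ∀ u, aF lam (fun v => Mx (cR q a) v - Mx (cR q' a') (v / p)) u =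
      aF lam (Mx (cR q a)) u - (kap p : ℂ) * aF lam' (Mx (cR q' a')) (u - s) := by
    intro u
    rw [aF_sub lam u _ _ (i1 u) (i2 u), hsh lam p hp (Mx (cR q' a')) u]
  have hlimsup : ∀ ε : ℝ, 0 < ε → ∀ᶠ u in atTop, ‖A u‖ ≤ C * Real.exp (-lam / 2) * Kth + ε := by
    intro ε hε
    have h1 := hlim lam (BR + |BR'|) C v₀ (fun v => Mx (cR q a) v - Mx (cR q' a') (v / p))
      (hM1m.sub hM2m) (fun v hv => by rw [Mx_lt_one _ _ hv, hM2z v hv, sub_zero])
      (fun v hv => (norm_sub_le _ _).trans (by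
        rw [add_mul]
        exact add_le_add (hBR v hv) (hM2b v hv))) hv₀ (ε / 2) (by positivity)
    have h3 : Tendsto (fun u => ‖aF lam (Mx (cL q a)) (-u)‖ +
        ‖(kap p : ℂ)‖ * ‖aF lam' (Mx (cL q' a')) (-(u - s))‖) atTop (𝓝 (0 + ‖(kap p : ℂ)‖ * 0)) := by
      refine t1.add (Tendsto.const_mul _ ?_)
      exact t2.comp (tendsto_atTop_add_const_right _ (-s) tendsto_id)
    rw [mul_zero, add_zero] at h3
    have h5 := h3.eventually (gt_mem_nhds (half_pos hε))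
    filter_upwards [h1, h5] with u hu1 hu2
    have e : A u = aF lam (fun v => Mx (cR q a) v - Mx (cR q' a') (v / p)) u -
        aF lam (Mx (cL q a)) (-u) + (kap p : ℂ) * aF lam' (Mx (cL q' a')) (-(u - s)) := by
      rw [hMain]
      simp only [hA, hA1, hA2]
      ring
    rw [e]
    refine (norm_add_le _ _).trans ?_
    rw [norm_mul]
    have h6 := norm_sub_le (aF lam (fun v => Mx (cR q a) v - Mx (cR q' a') (v / p)) u)
      (aF lam (Mx (cL q a)) (-u))
    linarith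
  exact hsup A hAc hAb hAd (C * Real.exp (-lam / 2) * Kth) hlimsup u

end Pool.Agent.T2h55.UP
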