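import Pool.Agent.T2h55.UP.StmB
import Pool.Agent.Y821.ME.KlM

/-! Task KLO of project UP, part B: Kloosterman sums modulo `p ^ (2l-1)`. -/

set_option autoImplicit false

open Filter Topology MeasureTheory Finset
open Pool.Agent.Y821.ME

namespace Pool.Agent.T2h55.UP

namespace KLOA

section

variable {p l : ℕ}

theorem P_sq (hl : 2 ≤ l) : (((p ^ l : ℕ) : ZMod (p ^ (2 * l - 1)))) ^ 2 = 0 := by
  rw [← Nat.cast_pow, ← pow_mul, ZMod.natCast_eq_zero_iff]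
  exact pow_dvd_pow p (by omega)

theorem dvd_of_P [NeZero (p ^ (2 * l - 1))] (hp : p.Prime) (hl : 2 ≤ l) (y : ZMod (p ^ (2 * l - 1)))
    (hy : ((p ^ l : ℕ) : ZMod (p ^ (2 * l - 1))) * y = 0) : p ^ (l - 1) ∣ y.val := by
  have h1 : ((p ^ l : ℕ) : ZMod (p ^ (2 * l - 1))) * y = ((p ^ l * y.val : ℕ) : ZMod (p ^ (2 * l - 1))) := by
    rw [Nat.cast_mul (p ^ l) y.val, ZMod.natCast_zmod_val]
  rw [h1, ZMod.natCast_eq_zero_iff] at hy
  have h2 : p ^ (2 * l - 1) = p ^ l * p ^ (l - 1) := by rw [← pow_add]; congr 1; omega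
  have hpos : 0 < p ^ l := pow_pos hp.pos l
  obtain ⟨v, hv⟩ : ∃ v, v = y.val := ⟨_, rfl⟩
  rw [← hv] at hy ⊢
  rw [h2] at hy
  exact (Nat.mul_dvd_mul_iff_left hpos).1 hy

/-- reduction modulo `p` -/
noncomputable def red (p l : ℕ) (hl : 2 ≤ l) : ZMod (p ^ (2 * l - 1)) →+* ZMod p :=
  ZMod.castHom (dvd_pow_self p (by omega : 2 * l - 1 ≠ 0)) (ZMod p)

theorem isUnit_of_red [NeZero (p ^ (2 * l - 1))] (hp : p.Prime) (hl : 2 ≤ l) (a : ZMod (p ^ (2 * l - 1)))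
    (ha : red p l hl a ≠ 0) : IsUnit a := by
  have h1 : a = ((a.val : ℕ) : ZMod (p ^ (2 * l - 1))) := (ZMod.natCast_zmod_val a).symm
  rw [h1, ZMod.isUnit_iff_coprime]
  apply Nat.Coprime.pow_right
  rw [Nat.coprime_comm, Nat.Prime.coprime_iff_not_dvd hp]
  intro hd
  apply ha
  rw [h1, map_natCast]
  exact (ZMod.natCast_eq_zero_iff _ _).mpr hd

theorem red_P [NeZero (p ^ (2 * l - 1))] (hp : p.Prime) (hl : 2 ≤ l) (y : ZMod (p ^ (2 * l - 1)))
    (hy : ((p ^ l : ℕ) : ZMod (p ^ (2 * l - 1))) * y = 0) : red p l hl y = 0 := by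
  have h := dvd_of_P hp hl y hy
  have h1 : y = ((y.val : ℕ) : ZMod (p ^ (2 * l - 1))) := (ZMod.natCast_zmod_val y).symm
  rw [h1, map_natCast]
  exact (ZMod.natCast_eq_zero_iff _ _).mpr ((dvd_pow_self p (by omega : l - 1 ≠ 0)).trans h)

theorem dich' [NeZero (p ^ (2 * l - 1))] (hp : p.Prime) (hp2 : p ≠ 2) (hl : 2 ≤ l)
    (x z : (ZMod (p ^ (2 * l - 1)))ˣ)
    (h : ((p ^ l : ℕ) : ZMod (p ^ (2 * l - 1))) * ((x : ZMod (p ^ (2 * l - 1))) ^ 2 -
      (z : ZMod (p ^ (2 * l - 1))) ^ 2) = 0) :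
    ((p ^ l : ℕ) : ZMod (p ^ (2 * l - 1))) * ((x : ZMod (p ^ (2 * l - 1))) - z) = 0 ∨
      ((p ^ l : ℕ) : ZMod (p ^ (2 * l - 1))) * ((x : ZMod (p ^ (2 * l - 1))) + z) = 0 := by
  have : Fact p.Prime := ⟨hp⟩
  by_cases h1 : red p l hl ((x : ZMod (p ^ (2 * l - 1))) - z) = 0
  · left
    have h2 : red p l hl ((x : ZMod (p ^ (2 * l - 1))) + z) ≠ 0 := by
      intro h3
      have h4 : (2 : ZMod p) * red p l hl (z : ZMod (p ^ (2 * l - 1))) = 0 := by
        rw [map_sub] at h1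
        rw [map_add] at h3
        linear_combination h3 - h1
      rcases mul_eq_zero.mp h4 with h5 | h5
      · exact two_ne hp hp2 h5
      · exact ((z.isUnit.map (red p l hl)).ne_zero) h5
    obtain ⟨u, hu⟩ := isUnit_of_red hp hl _ h2
    have h3 : ((p ^ l : ℕ) : ZMod (p ^ (2 * l - 1))) * ((x : ZMod (p ^ (2 * l - 1))) - z) * u = 0 := by
      rw [hu]
      linear_combination h
    exact (Units.mul_left_eq_zero u).mp h3
  · right
    obtain ⟨u, hu⟩ := isUnit_of_red hp hl _ h1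
    have h3 : ((p ^ l : ℕ) : ZMod (p ^ (2 * l - 1))) * ((x : ZMod (p ^ (2 * l - 1))) + z) * u = 0 := by
      rw [hu]
      linear_combination h
    exact (Units.mul_left_eq_zero u).mp h3

theorem card_cls [NeZero (p ^ (2 * l - 1))] (hp : p.Prime) (z : ZMod (p ^ (2 * l - 1))) :
    ((univ : Finset (ZMod (p ^ (2 * l - 1)))ˣ).filter (fun x : (ZMod (p ^ (2 * l - 1)))ˣ =>
      ((p ^ l : ℕ) : ZMod (p ^ (2 * l - 1))) * ((x : ZMod (p ^ (2 * l - 1))) - z) = 0)).card ≤ p ^ l := by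
  have h1 := IsAddCyclic.card_nsmul_eq_zero_le (α := ZMod (p ^ (2 * l - 1))) (n := p ^ l) (pow_pos hp.pos l)
  refine le_trans ?_ h1
  refine Finset.card_le_card_of_injOn (fun x : (ZMod (p ^ (2 * l - 1)))ˣ => (x : ZMod (p ^ (2 * l - 1))) - z) ?_ ?_
  · intro x hx
    have hx' := (Finset.mem_filter.1 hx).2
    refine Finset.mem_coe.2 (Finset.mem_filter.2 ⟨Finset.mem_univ _, ?_⟩)
    rw [nsmul_eq_mul]
    exact hx'
  · intro x _ y _ hxy
    exact Units.ext (sub_left_injective hxy)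

theorem card_sol [NeZero (p ^ (2 * l - 1))] (hp : p.Prime) (hp2 : p ≠ 2) (hl : 2 ≤ l)
    (c : ZMod (p ^ (2 * l - 1))) :
    ((univ : Finset (ZMod (p ^ (2 * l - 1)))ˣ).filter (fun x : (ZMod (p ^ (2 * l - 1)))ˣ =>
      ((p ^ l : ℕ) : ZMod (p ^ (2 * l - 1))) * ((x : ZMod (p ^ (2 * l - 1))) -
        c * ((x⁻¹ : (ZMod (p ^ (2 * l - 1)))ˣ) : ZMod (p ^ (2 * l - 1)))) = 0)).card ≤ 2 * p ^ l := by
  classical
  rcases ((univ : Finset (ZMod (p ^ (2 * l - 1)))ˣ).filter (fun x : (ZMod (p ^ (2 * l - 1)))ˣ =>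
      ((p ^ l : ℕ) : ZMod (p ^ (2 * l - 1))) * ((x : ZMod (p ^ (2 * l - 1))) -
        c * ((x⁻¹ : (ZMod (p ^ (2 * l - 1)))ˣ) : ZMod (p ^ (2 * l - 1)))) = 0)).eq_empty_or_nonempty with he | hne
  · rw [he, Finset.card_empty]
    exact Nat.zero_le _
  obtain ⟨z, hz⟩ := hne
  rw [Finset.mem_filter, cond_iff] at hz
  have hsub : (univ : Finset (ZMod (p ^ (2 * l - 1)))ˣ).filter (fun x : (ZMod (p ^ (2 * l - 1)))ˣ =>
      ((p ^ l : ℕ) : ZMod (p ^ (2 * l - 1))) * ((x : ZMod (p ^ (2 * l - 1))) -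
        c * ((x⁻¹ : (ZMod (p ^ (2 * l - 1)))ˣ) : ZMod (p ^ (2 * l - 1)))) = 0) ⊆
      (univ : Finset (ZMod (p ^ (2 * l - 1)))ˣ).filter (fun x : (ZMod (p ^ (2 * l - 1)))ˣ =>
        ((p ^ l : ℕ) : ZMod (p ^ (2 * l - 1))) * ((x : ZMod (p ^ (2 * l - 1))) - (z : ZMod (p ^ (2 * l - 1)))) = 0) ∪
      (univ : Finset (ZMod (p ^ (2 * l - 1)))ˣ).filter (fun x : (ZMod (p ^ (2 * l - 1)))ˣ =>
        ((p ^ l : ℕ) : ZMod (p ^ (2 * l - 1))) * ((x : ZMod (p ^ (2 * l - 1))) - (-(z : ZMod (p ^ (2 * l - 1))))) = 0) := by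
    intro x hx
    rw [Finset.mem_filter, cond_iff] at hx
    rw [Finset.mem_union, Finset.mem_filter, Finset.mem_filter, sub_neg_eq_add]
    have h1 : ((p ^ l : ℕ) : ZMod (p ^ (2 * l - 1))) * ((x : ZMod (p ^ (2 * l - 1))) ^ 2 -
        (z : ZMod (p ^ (2 * l - 1))) ^ 2) = 0 := by
      linear_combination hx.2 - hz.2
    rcases dich' hp hp2 hl x z h1 with h2 | h2
    · exact Or.inl ⟨Finset.mem_univ _, h2⟩
    · exact Or.inr ⟨Finset.mem_univ _, h2⟩
  refine (Finset.card_le_card hsub).trans ((Finset.card_union_le _ _).trans ?_)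
  have e1 := card_cls (l := l) hp (z : ZMod (p ^ (2 * l - 1)))
  have e2 := card_cls (l := l) hp (-(z : ZMod (p ^ (2 * l - 1))))
  omega

theorem norm_ee' (q : ℕ) [NeZero q] (x : ZMod q) : ‖ee q x‖ = 1 := norm_ee q x

/-- the map `x ↦ p x` from `ZMod q'` to `ZMod (p q')` -/
theorem lift_eq [NeZero (p ^ (2 * l - 1))] (hl : 2 ≤ l) (x : ZMod (p ^ (2 * l - 1))) (n : ℤ)
    (hx : x = (n : ZMod (p ^ (2 * l - 1)))) :
    ((p * x.val : ℕ) : ZMod (p ^ (2 * l))) = (p : ZMod (p ^ (2 * l))) * (n : ZMod (p ^ (2 * l))) := by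
  have h1 : (((x.val : ℕ) : ℤ) : ZMod (p ^ (2 * l - 1))) = (n : ZMod (p ^ (2 * l - 1))) := by
    rw [← hx, Int.cast_natCast, ZMod.natCast_zmod_val]
  rw [ZMod.intCast_eq_intCast_iff_dvd_sub] at h1
  have h2 : ((p ^ (2 * l) : ℕ) : ℤ) ∣ (p : ℤ) * n - ((p * x.val : ℕ) : ℤ) := by
    have h3 : ((p ^ (2 * l) : ℕ) : ℤ) = (p : ℤ) * ((p ^ (2 * l - 1) : ℕ) : ℤ) := by
      rw [← Nat.cast_mul, ← pow_succ']
      congr 2
      omega
    have h4 : (p : ℤ) * n - ((p * x.val : ℕ) : ℤ) = (p : ℤ) * (n - ((x.val : ℕ) : ℤ)) := by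
      push_cast
      ring
    rw [h3, h4]
    exact mul_dvd_mul_left _ h1
  have h5 := (ZMod.intCast_eq_intCast_iff_dvd_sub _ _ (p ^ (2 * l))).2 h2
  rw [Int.cast_natCast] at h5
  rw [h5]
  push_cast
  ring

theorem ee_lift [NeZero (p ^ (2 * l))] [NeZero (p ^ (2 * l - 1))] (hp : p.Prime) (hl : 2 ≤ l)
    (b : (ZMod (p ^ (2 * l)))ˣ) (h : ZMod (p ^ (2 * l - 1))) :
    ee (p ^ (2 * l - 1)) (((rd p l b : (ZMod (p ^ (2 * l - 1)))ˣ) : ZMod (p ^ (2 * l - 1))) * h) =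
      ee (p ^ (2 * l)) ((b : ZMod (p ^ (2 * l))) * ((p * h.val : ℕ) : ZMod (p ^ (2 * l)))) := by
  have hrd : ((rd p l b : (ZMod (p ^ (2 * l - 1)))ˣ) : ZMod (p ^ (2 * l - 1))) =
      (((b : ZMod (p ^ (2 * l))).val : ℕ) : ZMod (p ^ (2 * l - 1))) := by
    unfold rd
    rw [ZMod.unitsMap_def, Units.coe_map]
    change ZMod.castHom (pow_dvd_pow p (Nat.sub_le (2 * l) 1)) (ZMod (p ^ (2 * l - 1))) (b : ZMod (p ^ (2 * l))) = _
    conv_lhs => rw [← ZMod.natCast_zmod_val (b : ZMod (p ^ (2 * l)))]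
    rw [map_natCast]
  have h1 : ((rd p l b : (ZMod (p ^ (2 * l - 1)))ˣ) : ZMod (p ^ (2 * l - 1))) * h =
      ((((b : ZMod (p ^ (2 * l))).val * h.val : ℕ) : ℤ) : ZMod (p ^ (2 * l - 1))) := by
    rw [hrd, Int.cast_natCast, Nat.cast_mul, ZMod.natCast_zmod_val]
  have h2 : (b : ZMod (p ^ (2 * l))) * ((p * h.val : ℕ) : ZMod (p ^ (2 * l))) =
      ((((b : ZMod (p ^ (2 * l))).val * (p * h.val) : ℕ) : ℤ) : ZMod (p ^ (2 * l))) := by
    rw [Int.cast_natCast, Nat.cast_mul ((b : ZMod (p ^ (2 * l))).val), ZMod.natCast_zmod_val]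
  rw [h1, h2]
  unfold ee
  rw [ZMod.stdAddChar_coe, ZMod.stdAddChar_coe]
  congr 1
  have h3 : ((p ^ (2 * l) : ℕ) : ℂ) = (p : ℂ) * ((p ^ (2 * l - 1) : ℕ) : ℂ) := by
    rw [← Nat.cast_mul, ← pow_succ']
    congr 2
    omega
  have hp0 : (p : ℂ) ≠ 0 := Nat.cast_ne_zero.mpr hp.ne_zero
  have hq0 : ((p ^ (2 * l - 1) : ℕ) : ℂ) ≠ 0 := Nat.cast_ne_zero.mpr (pow_ne_zero _ hp.ne_zero)
  rw [h3]
  push_cast at hq0 ⊢
  field_simp

end

end KLOA

open KLOA in
theorem klo : S_KLO := by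
  classical
  intro p l _ _ hp hp2 hl
  have : Fact p.Prime := ⟨hp⟩
  refine ⟨?_, ?_⟩
  · intro c
    rw [kl_restrict (p ^ l) (p ^ (2 * l - 1)) (P_sq hl)]
    refine (norm_sum_le _ _).trans ?_
    rw [Finset.sum_congr rfl fun x _ => norm_ee' _ _, Finset.sum_const, nsmul_eq_mul, mul_one]
    exact_mod_cast card_sol hp hp2 hl (c : ZMod (p ^ (2 * l - 1)))
  · intro g g' hg'
    have hgred : red p l hl (g' : ZMod (p ^ (2 * l - 1))) = (g : ZMod p) := by
      rw [hg', map_intCast]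
    refine ⟨?_, ?_⟩
    · intro hns b
      rw [kl_restrict (p ^ l) (p ^ (2 * l - 1)) (P_sq hl)]
      refine Finset.sum_eq_zero fun x hx => ?_
      exfalso
      rw [Finset.mem_filter, cond_iff] at hx
      have h1 := red_P hp hl _ hx.2
      rw [map_sub, map_pow, Units.val_mul, map_mul, Units.val_pow_eq_pow_val, map_pow] at h1
      have hx0 : red p l hl (x : ZMod (p ^ (2 * l - 1))) ≠ 0 := (x.isUnit.map (red p l hl)).ne_zero
      have h2 : red p l hl (g' : ZMod (p ^ (2 * l - 1))) *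
          red p l hl ((g'⁻¹ : (ZMod (p ^ (2 * l - 1)))ˣ) : ZMod (p ^ (2 * l - 1))) = 1 := by
        rw [← map_mul, Units.mul_inv, map_one]
      rw [hgred] at h2
      apply hns
      refine ⟨red p l hl ((rd p l b : (ZMod (p ^ (2 * l - 1)))ˣ) : ZMod (p ^ (2 * l - 1))) /
        red p l hl (x : ZMod (p ^ (2 * l - 1))), ?_⟩
      field_simp
      linear_combination (g : ZMod p) * h1 +
        (red p l hl ((rd p l b : (ZMod (p ^ (2 * l - 1)))ˣ) : ZMod (p ^ (2 * l - 1)))) ^ 2 * h2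
    · intro r hr
      set r' : (ZMod (p ^ (2 * l - 1)))ˣ := rd p l r with hr'
      have hcast : ∀ x : (ZMod (p ^ (2 * l)))ˣ, ((rd p l x : (ZMod (p ^ (2 * l - 1)))ˣ) : ZMod (p ^ (2 * l - 1))) =
          ZMod.castHom (pow_dvd_pow p (Nat.sub_le (2 * l) 1)) (ZMod (p ^ (2 * l - 1))) (x : ZMod (p ^ (2 * l))) := by
        intro x
        rfl
      have hgr : (g' : ZMod (p ^ (2 * l - 1))) * (r' : ZMod (p ^ (2 * l - 1))) ^ 2 = 1 := by
        rw [hg', hr', hcast, ← map_pow]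
        have := congrArg (ZMod.castHom (pow_dvd_pow p (Nat.sub_le (2 * l) 1)) (ZMod (p ^ (2 * l - 1)))) hr
        rw [map_mul, map_intCast, map_one] at this
        exact this
      have hginv : ((g'⁻¹ : (ZMod (p ^ (2 * l - 1)))ˣ) : ZMod (p ^ (2 * l - 1))) = (r' : ZMod (p ^ (2 * l - 1))) ^ 2 :=
        Units.inv_eq_of_mul_eq_one_right hgr
      set h : (ZMod (p ^ (2 * l - 1)))ˣ → ZMod (p ^ (2 * l - 1)) := fun y =>
        (y : ZMod (p ^ (2 * l - 1))) + ((g'⁻¹ : (ZMod (p ^ (2 * l - 1)))ˣ) : ZMod (p ^ (2 * l - 1))) *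
          ((y⁻¹ : (ZMod (p ^ (2 * l - 1)))ˣ) : ZMod (p ^ (2 * l - 1))) with hh
      refine ⟨(univ : Finset (ZMod (p ^ (2 * l - 1)))ˣ).filter (fun y : (ZMod (p ^ (2 * l - 1)))ˣ =>
        ((p ^ l : ℕ) : ZMod (p ^ (2 * l - 1))) * ((y : ZMod (p ^ (2 * l - 1))) -
          ((g'⁻¹ : (ZMod (p ^ (2 * l - 1)))ˣ) : ZMod (p ^ (2 * l - 1))) *
          ((y⁻¹ : (ZMod (p ^ (2 * l - 1)))ˣ) : ZMod (p ^ (2 * l - 1)))) = 0),
        fun y => ((p * (h y).val : ℕ) : ZMod (p ^ (2 * l))), ?_, ?_, ?_⟩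
      · exact_mod_cast card_sol hp hp2 hl ((g'⁻¹ : (ZMod (p ^ (2 * l - 1)))ˣ) : ZMod (p ^ (2 * l - 1)))
      · intro y hy
        rw [Finset.mem_filter, cond_iff, hginv] at hy
        have hpp : (p : ZMod (p ^ (2 * l))) ^ (2 * l) = 0 := by
          rw [← Nat.cast_pow]
          exact ZMod.natCast_self _
        have hrval : (((r : ZMod (p ^ (2 * l))).val : ℤ) : ZMod (p ^ (2 * l))) = r := by
          rw [Int.cast_natCast, ZMod.natCast_zmod_val]
        have hrval' : (((r : ZMod (p ^ (2 * l))).val : ℤ) : ZMod (p ^ (2 * l - 1))) = r' := by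
          rw [hr', hcast, Int.cast_natCast]
          conv_rhs => rw [← ZMod.natCast_zmod_val (r : ZMod (p ^ (2 * l)))]
          rw [map_natCast]
        -- both signs
        have key : ∀ σ : ℤ, σ ^ 2 = 1 →
            ((p ^ l : ℕ) : ZMod (p ^ (2 * l - 1))) * ((y : ZMod (p ^ (2 * l - 1))) - (σ : ZMod (p ^ (2 * l - 1))) * (r' : ZMod (p ^ (2 * l - 1)))) = 0 →
            (p : ZMod (p ^ (2 * l))) * ((p * (h y).val : ℕ) : ZMod (p ^ (2 * l))) =
              σ * (2 * (p : ZMod (p ^ (2 * l))) ^ 2 * r) := by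
          intro σ hσ hy1
          obtain ⟨v, hv⟩ := dvd_of_P hp hl _ hy1
          have h1 : (y : ZMod (p ^ (2 * l - 1))) - (σ : ZMod (p ^ (2 * l - 1))) * (r' : ZMod (p ^ (2 * l - 1))) = (p : ZMod (p ^ (2 * l - 1))) ^ (l - 1) * v := by
            rw [← ZMod.natCast_zmod_val ((y : ZMod (p ^ (2 * l - 1))) - (σ : ZMod (p ^ (2 * l - 1))) * (r' : ZMod (p ^ (2 * l - 1)))), hv]
            push_cast
            ring
          set yi : ZMod (p ^ (2 * l - 1)) := ((y⁻¹ : (ZMod (p ^ (2 * l - 1)))ˣ) : ZMod (p ^ (2 * l - 1))) with hyi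
          have hyy : (y : ZMod (p ^ (2 * l - 1))) * yi = 1 := Units.mul_inv y
          have hσ' : (σ : ZMod (p ^ (2 * l - 1))) ^ 2 = 1 := by
            rw [← Int.cast_pow, hσ, Int.cast_one]
          have h2 : h y = 2 * (σ : ZMod (p ^ (2 * l - 1))) * (r' : ZMod (p ^ (2 * l - 1))) + (p : ZMod (p ^ (2 * l - 1))) ^ (2 * l - 2) * ((v : ZMod (p ^ (2 * l - 1))) ^ 2 * yi) := by
            have h3 : h y = 2 * (σ : ZMod (p ^ (2 * l - 1))) * (r' : ZMod (p ^ (2 * l - 1))) + ((y : ZMod (p ^ (2 * l - 1))) - (σ : ZMod (p ^ (2 * l - 1))) * (r' : ZMod (p ^ (2 * l - 1)))) ^ 2 * yi := by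
              rw [hh]
              simp only
              rw [hginv]
              linear_combination (-(y : ZMod (p ^ (2 * l - 1))) + 2 * (σ : ZMod (p ^ (2 * l - 1))) * (r' : ZMod (p ^ (2 * l - 1)))) * hyy - (r' : ZMod (p ^ (2 * l - 1))) ^ 2 * yi * hσ'
            rw [h3, h1]
            have h4 : (p : ZMod (p ^ (2 * l - 1))) ^ (2 * l - 2) = ((p : ZMod (p ^ (2 * l - 1))) ^ (l - 1)) ^ 2 := by
              rw [← pow_mul]
              congr 1
              omega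
            rw [h4]
            ring
          have h5 : h y = ((2 * σ * ((r : ZMod (p ^ (2 * l))).val : ℤ) +
              (p : ℤ) ^ (2 * l - 2) * ((v : ℤ) ^ 2 * (yi.val : ℤ)) : ℤ) : ZMod (p ^ (2 * l - 1))) := by
            rw [h2]
            push_cast
            rw [ZMod.natCast_zmod_val yi]
            rw [Int.cast_natCast] at hrval'
            rw [hrval']
          rw [lift_eq hl (h y) _ h5]
          push_cast
          rw [Int.cast_natCast] at hrval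
          rw [hrval]
          have h6 : (p : ZMod (p ^ (2 * l))) * ((p : ZMod (p ^ (2 * l))) * (2 * σ * r +
              (p : ZMod (p ^ (2 * l))) ^ (2 * l - 2) * ((v : ZMod (p ^ (2 * l))) ^ 2 * (yi.val : ZMod (p ^ (2 * l)))))) =
              σ * (2 * (p : ZMod (p ^ (2 * l))) ^ 2 * r) +
              ((p : ZMod (p ^ (2 * l))) ^ 2 * (p : ZMod (p ^ (2 * l))) ^ (2 * l - 2)) *
                ((v : ZMod (p ^ (2 * l))) ^ 2 * (yi.val : ZMod (p ^ (2 * l)))) := by ring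
          rw [h6, ← pow_add, show 2 + (2 * l - 2) = 2 * l by omega, hpp, zero_mul, add_zero]
        rcases dich' hp hp2 hl y r' hy.2 with h1 | h1
        · left
          have := key 1 (by norm_num) (by rw [Int.cast_one, one_mul]; exact h1)
          rw [this]
          push_cast
          ring
        · right
          have := key (-1) (by norm_num) (by
            rw [Int.cast_neg, Int.cast_one]
            linear_combination h1)
          rw [this]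
          push_cast
          ring
      · intro b
        rw [kl_restrict (p ^ l) (p ^ (2 * l - 1)) (P_sq hl)]
        set b' : (ZMod (p ^ (2 * l - 1)))ˣ := rd p l b with hb'
        have hbb : (b' : ZMod (p ^ (2 * l - 1))) * ((b'⁻¹ : (ZMod (p ^ (2 * l - 1)))ˣ) : ZMod (p ^ (2 * l - 1))) = 1 :=
          Units.mul_inv b'
        have hE : ∀ y : (ZMod (p ^ (2 * l - 1)))ˣ,
            ((b' ^ 2 * g'⁻¹ : (ZMod (p ^ (2 * l - 1)))ˣ) : ZMod (p ^ (2 * l - 1))) *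
              (((b' * y)⁻¹ : (ZMod (p ^ (2 * l - 1)))ˣ) : ZMod (p ^ (2 * l - 1))) =
            (b' : ZMod (p ^ (2 * l - 1))) * (((g'⁻¹ : (ZMod (p ^ (2 * l - 1)))ˣ) : ZMod (p ^ (2 * l - 1))) *
              ((y⁻¹ : (ZMod (p ^ (2 * l - 1)))ˣ) : ZMod (p ^ (2 * l - 1)))) := by
          intro y
          rw [mul_inv, Units.val_mul, Units.val_mul, Units.val_pow_eq_pow_val]
          linear_combination (b' : ZMod (p ^ (2 * l - 1))) *
            (((g'⁻¹ : (ZMod (p ^ (2 * l - 1)))ˣ) : ZMod (p ^ (2 * l - 1))) *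
              ((y⁻¹ : (ZMod (p ^ (2 * l - 1)))ˣ) : ZMod (p ^ (2 * l - 1)))) * hbb
        symm
        refine Finset.sum_equiv (Equiv.mulLeft b') ?_ ?_
        · intro y
          rw [Finset.mem_filter, Finset.mem_filter, Equiv.coe_mulLeft, hE, Units.val_mul]
          constructor
          · rintro ⟨_, h1⟩
            refine ⟨Finset.mem_univ _, ?_⟩
            linear_combination (b' : ZMod (p ^ (2 * l - 1))) * h1
          · rintro ⟨_, h1⟩
            refine ⟨Finset.mem_univ _, ?_⟩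
            linear_combination ((b'⁻¹ : (ZMod (p ^ (2 * l - 1)))ˣ) : ZMod (p ^ (2 * l - 1))) * h1 -
              (((p ^ l : ℕ) : ZMod (p ^ (2 * l - 1))) * ((y : ZMod (p ^ (2 * l - 1))) -
              ((g'⁻¹ : (ZMod (p ^ (2 * l - 1)))ˣ) : ZMod (p ^ (2 * l - 1))) *
              ((y⁻¹ : (ZMod (p ^ (2 * l - 1)))ˣ) : ZMod (p ^ (2 * l - 1))))) * hbb
        · intro y _
          rw [Equiv.coe_mulLeft, hE, Units.val_mul, ← mul_add]
          exact (ee_lift hp hl b (h y)).symm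

end Pool.Agent.T2h55.UP
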