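import Pool.Agent.T2h55.UP.Stm

set_option autoImplicit false

open Filter Topology MeasureTheory Finset
open Pool.Agent.Y821.ME

namespace Pool.Agent.T2h55.UP

theorem UP_LL.mu_sq {m : ℕ} (h : mu m ≠ 0) : mu m * mu m = 1 := by
  have h0 : ArithmeticFunction.moebius m ≠ 0 := by
    intro h1
    apply h
    unfold Pool.Agent.Y821.ME.mu
    rw [h1, Int.cast_zero]
  have h2 : ArithmeticFunction.moebius m = 1 ∨ ArithmeticFunction.moebius m = -1 :=
    ArithmeticFunction.moebius_ne_zero_iff_eq_or.1 h0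
  unfold Pool.Agent.Y821.ME.mu
  rcases h2 with h2 | h2 <;> rw [h2] <;> norm_num

theorem ll : S_LL := by
  classical
  intro hvb N hN S hS TL hTL δ hδ0 hδ hsmall
  have hN' : (1 : ℝ) ≤ N := by exact_mod_cast hN
  have hN3 : (1 : ℝ) ≤ (N : ℝ) ^ 3 := one_le_pow₀ hN'
  have hδ2 : δ ≤ 1 / 6000 := by
    have : δ * 6000 ≤ δ * (6000 * (N : ℝ) ^ 3) := by
      apply mul_le_mul_of_nonneg_left _ hδ0
      linarith
    linarith
  set TL' : ℕ → ℂ := fun m => if 1 ≤ m ∧ m ≤ 100 * N ^ 2 then (if m ∈ S then mu m / 2 else 0)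
    else TL m with hTL'
  have hb' : ∀ n, ‖TL' n‖ ≤ 2 := by
    intro n
    rw [hTL']
    simp only
    split_ifs with h1 h2
    · rw [norm_div]
      have := norm_mu_le n
      have e : ‖(2 : ℂ)‖ = 2 := by norm_num
      rw [e]
      linarith
    · rw [norm_zero]; norm_num
    · exact hTL n
  have hs' : ∀ m : ℕ, 1 ≤ m → m ≤ 100 * N ^ 2 → mu m * TL' m = if m ∈ S then (1 / 2 : ℂ) else 0 := by
    intro m h1 h2
    rw [hTL']
    simp only
    rw [if_pos ⟨h1, h2⟩]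
    split_ifs with h3
    · have h4 : mu m ≠ 0 := by
        intro h0
        have h5 := hsmall m h1 h2
        rw [if_pos h3, h0, zero_mul, zero_sub, norm_neg] at h5
        have e : ‖(1 / 2 : ℂ)‖ = 1 / 2 := by norm_num
        rw [e] at h5
        linarith
      have h5 := UP_LL.mu_sq h4
      linear_combination h5 / 2
    · rw [mul_zero]
  have hlow := left_lower hvb N hN S hS TL' hb' hs'
  set Z : ℝ := 10 * N with hZ
  have hZ0 : 10 ≤ Z := by rw [hZ]; linarith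
  have hV : ∀ n : ℕ, |VL ((n + 1 : ℕ) * (1 / Z))| ≤ 3 * Z ^ 3 * (1 / ((n : ℝ) + 1) ^ 3) := by
    intro n
    have hn : (0 : ℝ) < (n : ℝ) + 1 := by positivity
    have h1 := (hvb.1 (((n + 1 : ℕ) : ℝ) * (1 / Z)) (by positivity)).2
    refine h1.trans (le_of_eq ?_)
    push_cast
    field_simp
  have hbd : ∀ T : ℕ → ℂ, (∀ n, ‖T n‖ ≤ 2) → Summable fun n : ℕ =>
      mu (n + 1) * T (n + 1) * (VL ((n + 1 : ℕ) * (1 / Z)) : ℝ) := by
    intro T hT
    refine Summable.of_norm_bounded (cube_summable0.mul_left (6 * Z ^ 3)) ?_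
    intro n
    rw [norm_mul, norm_mul, Complex.norm_real, Real.norm_eq_abs]
    calc ‖mu (n + 1)‖ * ‖T (n + 1)‖ * |VL (((n + 1 : ℕ) : ℝ) * (1 / Z))|
        ≤ 1 * 2 * (3 * Z ^ 3 * (1 / ((n : ℝ) + 1) ^ 3)) := by
          gcongr
          · exact norm_mu_le _
          · exact hT _
          · exact hV n
      _ = _ := by ring
  have hs1 := hbd TL hTL
  have hs2 := hbd TL' hb'
  have hdiff : ‖(∑' n : ℕ, mu (n + 1) * TL' (n + 1) * (VL ((n + 1 : ℕ) * (1 / Z)) : ℝ)) -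
      ∑' n : ℕ, mu (n + 1) * TL (n + 1) * (VL ((n + 1 : ℕ) * (1 / Z)) : ℝ)‖ ≤ 1 := by
    rw [← hs2.tsum_sub hs1]
    have hterm : ∀ n : ℕ, ‖mu (n + 1) * TL' (n + 1) * ((VL ((n + 1 : ℕ) * (1 / Z)) : ℝ) : ℂ) -
        mu (n + 1) * TL (n + 1) * ((VL ((n + 1 : ℕ) * (1 / Z)) : ℝ) : ℂ)‖ ≤
        δ * (3 * Z ^ 3) * (1 / ((n : ℝ) + 1) ^ 3) := by
      intro n
      rw [← sub_mul, norm_mul, Complex.norm_real, Real.norm_eq_abs]
      have h1 : ‖mu (n + 1) * TL' (n + 1) - mu (n + 1) * TL (n + 1)‖ ≤ δ := by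
        by_cases h2 : n + 1 ≤ 100 * N ^ 2
        · rw [hs' (n + 1) (by omega) h2, norm_sub_rev]
          exact hsmall (n + 1) (by omega) h2
        · have e : TL' (n + 1) = TL (n + 1) := by
            rw [hTL']
            simp only
            rw [if_neg]
            rintro ⟨_, h3⟩
            exact h2 h3
          rw [e, sub_self, norm_zero]
          exact hδ0
      calc ‖mu (n + 1) * TL' (n + 1) - mu (n + 1) * TL (n + 1)‖ *
            |VL (((n + 1 : ℕ) : ℝ) * (1 / Z))|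
          ≤ δ * (3 * Z ^ 3 * (1 / ((n : ℝ) + 1) ^ 3)) := by
            gcongr
            exact hV n
        _ = _ := by ring
    refine (tsum_of_norm_bounded (cube_summable0.mul_left _).hasSum hterm).trans ?_
    rw [tsum_mul_left]
    have h3 := cube_tsum0
    calc δ * (3 * Z ^ 3) * ∑' n : ℕ, 1 / ((n : ℝ) + 1) ^ 3 ≤ δ * (3 * Z ^ 3) * 2 := by
          gcongr
      _ = δ * (6000 * (N : ℝ) ^ 3) := by rw [hZ]; ring
      _ ≤ 1 := hδ
  have h5 := norm_sub_norm_le (∑' n : ℕ, mu (n + 1) * TL' (n + 1) * (VL ((n + 1 : ℕ) * (1 / Z)) : ℝ))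
    (∑' n : ℕ, mu (n + 1) * TL (n + 1) * (VL ((n + 1 : ℕ) * (1 / Z)) : ℝ))
  linarith

end Pool.Agent.T2h55.UP
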