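import Pool.Agent.T2h55.UP.StmB

/-!
# Project UP, part B: task LLB
-/

set_option autoImplicit false

open Filter Topology MeasureTheory Finset
open Pool.Agent.Y821.ME

namespace Pool.Agent.T2h55.UP

theorem llb : S_LLB := by
  intro hvb Z A δ T hZ hA hAZ hδ hT hδZ hsmall
  have hZ' : (10 : ℝ) ≤ Z := by exact_mod_cast hZ
  have hZ0 : (0 : ℝ) < Z := by linarith
  set Y : ℕ := Z ^ 2 with hY
  have hYZ : (Y : ℝ) = (Z : ℝ) ^ 2 := by rw [hY]; push_cast; ring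
  have hY1 : 1 ≤ Y := by rw [hY]; exact Nat.one_le_pow 2 Z (by omega)
  set g : ℕ → ℂ := fun n => mu (n + 1) * T (n + 1) * (VL ((n + 1 : ℕ) * (1 / (Z : ℝ))) : ℝ) with hg
  have hV : ∀ n : ℕ, |VL (((n + 1 : ℕ) : ℝ) * (1 / (Z : ℝ)))| ≤ 3 * (Z : ℝ) ^ 3 * (1 / ((n : ℝ) + 1) ^ 3) := by
    intro n
    have hn : (0 : ℝ) < (n : ℝ) + 1 := by positivity
    have h1 := (hvb.1 (((n + 1 : ℕ) : ℝ) * (1 / (Z : ℝ))) (by positivity)).2
    refine h1.trans (le_of_eq ?_)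
    push_cast
    field_simp
  have hbound : ∀ n : ℕ, ‖g n‖ ≤ 6 * A * (Z : ℝ) ^ 3 * (1 / ((n : ℝ) + 1) ^ 3) := by
    intro n
    have hn : (0 : ℝ) < (n : ℝ) + 1 := by positivity
    rw [hg]
    simp only
    rw [norm_mul, norm_mul, Complex.norm_real, Real.norm_eq_abs]
    calc ‖mu (n + 1)‖ * ‖T (n + 1)‖ * |VL (((n + 1 : ℕ) : ℝ) * (1 / (Z : ℝ)))|
        ≤ 1 * (2 * A) * (3 * (Z : ℝ) ^ 3 * (1 / ((n : ℝ) + 1) ^ 3)) := by
          gcongr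
          · exact norm_mu_le _
          · exact hT _
          · exact hV n
      _ = _ := by ring
  have hhead1 : ∀ n ∈ range Y, ‖g n‖ ≤ δ * (3 * (Z : ℝ) ^ 3) * (1 / ((n : ℝ) + 1) ^ 3) := by
    intro n hn
    rw [Finset.mem_range] at hn
    have h1 := hsmall (n + 1) (by omega) (by omega)
    rw [hg]
    simp only
    rw [norm_mul, Complex.norm_real, Real.norm_eq_abs]
    calc ‖mu (n + 1) * T (n + 1)‖ * |VL (((n + 1 : ℕ) : ℝ) * (1 / (Z : ℝ)))|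
        ≤ δ * (3 * (Z : ℝ) ^ 3 * (1 / ((n : ℝ) + 1) ^ 3)) := by
          gcongr
          exact hV n
      _ = _ := by ring
  have hsum : Summable g := Summable.of_norm_bounded (cube_summable0.mul_left _) hbound
  have hsplit := hsum.sum_add_tsum_nat_add Y
  have htail : ‖∑' n : ℕ, g (n + Y)‖ ≤ 1 := by
    have h1 : ∀ n : ℕ, ‖g (n + Y)‖ ≤ 6 * A * (Z : ℝ) ^ 3 * (1 / ((n : ℝ) + Y + 1) ^ 3) := by
      intro n
      have := hbound (n + Y)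
      push_cast at this
      exact this
    have h2 : ‖∑' n : ℕ, g (n + Y)‖ ≤ ∑' n : ℕ, 6 * A * (Z : ℝ) ^ 3 * (1 / ((n : ℝ) + Y + 1) ^ 3) :=
      tsum_of_norm_bounded ((cube_summable Y hY1).mul_left _).hasSum h1
    refine h2.trans ?_
    rw [tsum_mul_left]
    have h3 := cube_tsum Y hY1
    calc 6 * A * (Z : ℝ) ^ 3 * ∑' n : ℕ, 1 / ((n : ℝ) + Y + 1) ^ 3
        ≤ 6 * A * (Z : ℝ) ^ 3 * (1 / (Y : ℝ) ^ 2) := by
          gcongr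
      _ = 6 * A / Z := by rw [hYZ]; field_simp
      _ ≤ 1 := by rw [div_le_one hZ0]; exact hAZ
  have hhead : ‖∑ n ∈ range Y, g n‖ ≤ 1 := by
    have h1 : ‖∑ n ∈ range Y, g n‖ ≤ ∑ n ∈ range Y, δ * (3 * (Z : ℝ) ^ 3) * (1 / ((n : ℝ) + 1) ^ 3) :=
      norm_sum_le_of_le _ hhead1
    refine h1.trans ?_
    rw [← Finset.mul_sum]
    have h2 : ∑ n ∈ range Y, (1 / ((n : ℝ) + 1) ^ 3) ≤ ∑' n : ℕ, (1 / ((n : ℝ) + 1) ^ 3) :=
      cube_summable0.sum_le_tsum _ (fun n _ => by positivity)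
    have h3 := cube_tsum0
    calc δ * (3 * (Z : ℝ) ^ 3) * ∑ n ∈ range Y, (1 / ((n : ℝ) + 1) ^ 3)
        ≤ δ * (3 * (Z : ℝ) ^ 3) * 2 := by
          gcongr
          exact h2.trans h3
      _ = δ * (6 * (Z : ℝ) ^ 3) := by ring
      _ ≤ 1 := hδZ
  calc ‖∑' n : ℕ, g n‖ = ‖∑ n ∈ range Y, g n + ∑' n : ℕ, g (n + Y)‖ := by rw [hsplit]
    _ ≤ ‖∑ n ∈ range Y, g n‖ + ‖∑' n : ℕ, g (n + Y)‖ := norm_add_le _ _
    _ ≤ 2 := by linarith

end Pool.Agent.T2h55.UP
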