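import Pool.Agent.T2h55.UP.StmB
import Pool.Agent.T2h55.UP.Main2

/-!
# Project UP, part B: the assembly
-/

set_option autoImplicit false

open Filter Topology MeasureTheory Finset
open Pool.Agent.Y821.ME

namespace Pool.Agent.T2h55.UP

theorem mainB (htrig : S_TRIG) (hsup : S_SUP) (hlap : S_LAP) (hlim : S_LIM) (hvb : S_VB) (hser : S_SER)
    (hpair : S_PAIR) (hch : S_CH) (hkl : S_KL2) (hsf : S_SF2)
    (hbmp : S_BMP) (hll : S_LL) (hcrk : S_CRK) (hklo : S_KLO) (hsh : S_SH) (hdt : S_DT) (hineq : S_INEQB)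
    (hhv : S_HV) (havgs : S_AVG) (hllb : S_LLB) (hrz : S_RZB)
    (p : ℕ) (hp : p.Prime) (hp2 : p ≠ 2) (C α β : ℝ) (R₀ : ℕ) (hC : 0 ≤ C) (hαβ : α < β)
    (hint : ∀ x ∈ Set.Ioo α β, ∀ R : ℕ, R₀ ≤ R → ‖F R x‖ ≤ C * Real.sqrt R) :
    ∃ l₀ : ℕ, ∀ l : ℕ, l₀ ≤ l → ∃ a : ℕ, ¬ p ∣ a ∧
      (Big ((a : ℝ) / (p : ℝ) ^ (2 * l)) ∨ Big ((a : ℝ) / (p : ℝ) ^ (2 * l - 1))) := by
  classical
  have hfact : Fact p.Prime := ⟨hp⟩
  have hpR : (1 : ℝ) ≤ p := by exact_mod_cast hp.one_lt.le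
  obtain ⟨φ, hφc, hφp, hφ0, hφne, hφs⟩ := hbmp α β hαβ
  obtain ⟨N₀, hN₀⟩ := hsf p hp
  obtain ⟨N, hN1, hN2, hN3⟩ := ((Two.big_N2 (5 * C * Kth + 724) p hp.one_lt.le).and
    ((eventually_ge_atTop 1).and (eventually_ge_atTop N₀))).exists
  set Sn : Finset ℕ := (Icc (2 * N) (3 * N)).filter (fun m => Squarefree m ∧ m % p = 1) with hSn
  have hcard : (N : ℝ) / (5 * p) ≤ Sn.card := by
    have := hN₀ N hN3
    rw [hSn]
    convert this
  have hN' : (1 : ℝ) ≤ N := by exact_mod_cast hN2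
  have hNN : N ≤ N ^ 2 := by nlinarith
  set S : Finset ℤ := Sn.image (fun m : ℕ => (m : ℤ)) with hS
  have hSmem : ∀ m : ℕ, ((m : ℤ) ∈ S ↔ m ∈ Sn) := by
    intro m
    rw [hS, Finset.mem_image]
    constructor
    · rintro ⟨k, hk, hk'⟩
      have : k = m := by exact_mod_cast hk'
      rwa [← this]
    · intro h
      exact ⟨m, h, rfl⟩
  have hSneg : ∀ m : ℕ, 1 ≤ m → -(m : ℤ) ∉ S := by
    intro m hm h
    rw [hS, Finset.mem_image] at h
    obtain ⟨k, -, hk⟩ := h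
    omega
  have hSsub : S ⊆ Gs (100 * N ^ 2) p := by
    intro g hg
    rw [hS, Finset.mem_image] at hg
    obtain ⟨m, hm, rfl⟩ := hg
    rw [hSn, Finset.mem_filter, Finset.mem_Icc] at hm
    obtain ⟨⟨h1, h2⟩, h3, h4⟩ := hm
    rw [Two.mem_Gs]
    refine ⟨⟨by omega, ?_⟩, ?_, ?_, ?_⟩
    · have : m ≤ 100 * N ^ 2 := by omega
      exact_mod_cast this
    · exact Int.squarefree_natCast.mpr h3
    · intro hd
      have hd' : p ∣ m := by exact_mod_cast hd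
      have := Nat.mod_eq_zero_of_dvd hd'
      omega
    · have h5 : ((m : ℤ) : ZMod p) = 1 := by
        have h6 : ((m : ℕ) : ZMod p) = ((1 : ℕ) : ZMod p) := by
          rw [ZMod.natCast_eq_natCast_iff, Nat.ModEq, h4, Nat.mod_eq_of_lt hp.one_lt]
        push_cast
        push_cast at h6
        exact h6
      rw [h5]
      exact IsSquare.one
  -- the precision
  set Z : ℕ := 10 * N * p ^ 2 with hZdef
  have hp3 : 3 ≤ p := by
    have := hp.two_le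
    omega
  have hp3R : (3 : ℝ) ≤ p := by exact_mod_cast hp3
  have hZR : (Z : ℝ) = 10 * N * p ^ 2 := by rw [hZdef]; push_cast; ring
  have hZN : (N : ℝ) ≤ Z := by
    rw [hZR]; nlinarith [mul_nonneg (by linarith : (0 : ℝ) ≤ N) (sq_nonneg ((p : ℝ) - 1)),
      mul_nonneg (by linarith : (0 : ℝ) ≤ N) (by linarith : (0 : ℝ) ≤ (p : ℝ) - 1)]
  have hZ90 : (90 : ℝ) ≤ Z := by
    rw [hZR]; nlinarith [sq_nonneg ((p : ℝ) - 3)]
  have hZ10 : 10 ≤ Z := by
    have : (10 : ℝ) ≤ Z := by linarith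
    exact_mod_cast this
  have hYY : 100 * N ^ 2 ≤ Z ^ 2 := by
    have h1 : 10 * N ≤ Z := by
      rw [hZdef]; exact Nat.le_mul_of_pos_right _ (pow_pos hp.pos 2)
    calc 100 * N ^ 2 = (10 * N) ^ 2 := by ring
      _ ≤ Z ^ 2 := Nat.pow_le_pow_left h1 2
  set sp : ℝ := Real.sqrt p with hsp
  have hsp1 : 1 ≤ sp := by rw [hsp, Real.one_le_sqrt]; linarith
  have hspp : sp * sp = p := Real.mul_self_sqrt (by linarith)
  have hsple : sp ≤ p := by nlinarith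
  set ε : ℝ := 1 / (12000 * p * (Z : ℝ) ^ 3) with hε
  have hZ3 : (0 : ℝ) < (Z : ℝ) ^ 3 := by positivity
  have hε0 : 0 < ε := by rw [hε]; positivity
  have hεeq : ε * (12000 * p * (Z : ℝ) ^ 3) = 1 := by
    rw [hε]; field_simp
  obtain ⟨l₀, hl₀, hall⟩ := hrz φ hφc hφp hφ0 hφne (100 * N ^ 2) (Z ^ 2) p hp2 hYY S (by convert hSsub) ε hε0
  refine ⟨l₀, fun l hl' => ?_⟩
  have hl2 : 2 ≤ l := hl₀.trans hl'
  have hl : 1 ≤ l := by omega
  have hnz : NeZero (p ^ (2 * l - 1)) := ⟨pow_ne_zero _ hp.ne_zero⟩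
  by_contra hcon
  push Not at hcon
  obtain ⟨r, hr, w, hw0, hw1, hwφ, hw, hwt⟩ := hall l hl'
  obtain ⟨C₁, hC₁, h⟩ := hq2 p (2 * l) hp (by omega) (fun a ha => not_big' (hcon a ha).1)
  obtain ⟨C₂, hC₂, h'⟩ := hq2 p (2 * l - 1) hp (by omega) (fun a ha => not_big' (hcon a ha).2)
  have hk1 : 2 ≤ 2 * l := by omega
  have hk2 : 2 ≤ 2 * l - 1 := by omega
  set TR : ℕ → ℂ := fun n => ∑ b, (w b : ℂ) *
      cR (p ^ (2 * l)) ((b ^ 2 : (ZMod (p ^ (2 * l)))ˣ) : ZMod (p ^ (2 * l))) n with hTR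
  set TL : ℕ → ℂ := fun n => ∑ b, (w b : ℂ) *
      cL (p ^ (2 * l)) ((b ^ 2 : (ZMod (p ^ (2 * l)))ˣ) : ZMod (p ^ (2 * l))) n with hTL
  set TR' : ℕ → ℂ := fun n => ∑ b, (w b : ℂ) *
      cR (p ^ (2 * l - 1)) ((rd p l (b ^ 2) : (ZMod (p ^ (2 * l - 1)))ˣ) : ZMod (p ^ (2 * l - 1))) n with hTR'
  set TL' : ℕ → ℂ := fun n => ∑ b, (w b : ℂ) *
      cL (p ^ (2 * l - 1)) ((rd p l (b ^ 2) : (ZMod (p ^ (2 * l - 1)))ˣ) : ZMod (p ^ (2 * l - 1))) n with hTL'
  set lam : ℝ := Real.log ((p ^ (2 * l) : ℕ) / Real.pi) / 2 with hlam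
  have hlam0 : 0 ≤ lam := by
    rw [hlam]
    refine div_nonneg (Real.log_nonneg ?_) (by norm_num)
    rw [le_div_iff₀ Real.pi_pos, one_mul]
    have h2 : 3 ^ 2 ≤ p ^ (2 * l) := (Nat.pow_le_pow_left hp3 2).trans (Nat.pow_le_pow_right hp.pos (by omega))
    have h3 : ((3 ^ 2 : ℕ) : ℝ) ≤ ((p ^ (2 * l) : ℕ) : ℝ) := by exact_mod_cast h2
    have := Real.pi_lt_four
    norm_num at h3 ⊢
    linarith
  have hlogp : 0 ≤ Real.log p := Real.log_nonneg hpR
  set U : ℝ := Real.log (10 * N) + lam with hU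
  have hZ : (0 : ℝ) < 10 * N := by linarith
  have hlogZ : 0 ≤ Real.log (10 * N) := Real.log_nonneg (by linarith)
  -- the square root of `q'`
  set rq : ℝ := Real.sqrt ((p ^ (2 * l - 1) : ℕ) : ℝ) with hrq
  have hsqpos : 0 < rq := by
    rw [hrq]; exact Real.sqrt_pos.2 (by exact_mod_cast pow_pos hp.pos _)
  have hsqsp : rq * sp = (p : ℝ) ^ l := by
    rw [hrq, hsp, ← Real.sqrt_mul (Nat.cast_nonneg _)]
    have e1 : ((p ^ (2 * l - 1) : ℕ) : ℝ) * p = ((p : ℝ) ^ l) ^ 2 := by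
      push_cast
      rw [← pow_succ, ← pow_mul]
      congr 1
      omega
    rw [e1, Real.sqrt_sq (by positivity)]
  -- norms of the coefficients
  have hcR1 : ∀ (b : (ZMod (p ^ (2 * l)))ˣ) (n : ℕ),
      ‖cR (p ^ (2 * l)) ((b ^ 2 : (ZMod (p ^ (2 * l)))ˣ) : ZMod (p ^ (2 * l))) n‖ ≤ 1 := fun b n =>
    (hcrk p (2 * l) hp hp2 hk1 (b ^ 2)).2.1 n
  have hcR1' : ∀ (a : (ZMod (p ^ (2 * l - 1)))ˣ) (n : ℕ),
      ‖cR (p ^ (2 * l - 1)) (a : ZMod (p ^ (2 * l - 1))) n‖ ≤ 1 := fun a n =>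
    (hcrk p (2 * l - 1) hp hp2 hk2 a).2.1 n
  have hcL2 : ∀ (b : (ZMod (p ^ (2 * l)))ˣ) (n : ℕ),
      ‖cL (p ^ (2 * l)) ((b ^ 2 : (ZMod (p ^ (2 * l)))ˣ) : ZMod (p ^ (2 * l))) n‖ ≤ 2 := fun b n =>
    Two.norm_cL_le hch hkl hp hp2 hl (b ^ 2) n
  have hcL2' : ∀ (a : (ZMod (p ^ (2 * l - 1)))ˣ) (n : ℕ),
      ‖cL (p ^ (2 * l - 1)) (a : ZMod (p ^ (2 * l - 1))) n‖ ≤ 2 * sp := by
    intro a n
    by_cases hn : p ∣ n
    · rw [(hcrk p (2 * l - 1) hp hp2 hk2 a).2.2.1 n hn, norm_zero]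
      linarith
    · have hu : IsUnit (n : ZMod (p ^ (2 * l - 1))) := by
        rw [ZMod.isUnit_iff_coprime]
        exact (Nat.Coprime.pow_left _ ((Nat.Prime.coprime_iff_not_dvd hp).mpr hn)).symm
      obtain ⟨m, hm⟩ := hu
      rw [(hcrk p (2 * l - 1) hp hp2 hk2 a).2.2.2.1 m n hm, norm_div]
      have h1 := (hklo p l hp hp2 hl2).1 (a * m⁻¹)
      have h2 := (hklo p l hp hp2 hl2).1 (-(a * m⁻¹))
      rw [Units.val_neg] at h2
      have h3 : ‖(2 * (Real.sqrt ((p ^ (2 * l - 1) : ℕ) : ℝ) : ℂ))‖ = 2 * rq := by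
        rw [norm_mul, Complex.norm_real, Real.norm_of_nonneg (Real.sqrt_nonneg _), Complex.norm_ofNat]
      rw [h3, div_le_iff₀ (by positivity)]
      refine (norm_add_le _ _).trans ?_
      have h4 : 2 * sp * (2 * rq) = 4 * (p : ℝ) ^ l := by rw [← hsqsp]; ring
      rw [h4]
      linarith
  have hsumle : ∀ (c : (ZMod (p ^ (2 * l)))ˣ → ℕ → ℂ) (A : ℝ), (∀ b n, ‖c b n‖ ≤ A) → ∀ n,
      ‖∑ b, (w b : ℂ) * c b n‖ ≤ A := by
    intro c A hc n
    refine (norm_sum_le _ _).trans ?_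
    calc ∑ b, ‖(w b : ℂ) * c b n‖ ≤ ∑ b, w b * A := by
          refine Finset.sum_le_sum fun b _ => ?_
          rw [norm_mul, Complex.norm_real, Real.norm_of_nonneg (hw0 b)]
          exact mul_le_mul_of_nonneg_left (hc b n) (hw0 b)
      _ = A := by rw [← Finset.sum_mul, hw1, one_mul]
  have hTR2 : ∀ n, ‖TR n‖ ≤ 2 := fun n => (hsumle _ 1 hcR1 n).trans (by norm_num)
  have hTL2 : ∀ n, ‖TL n‖ ≤ 2 := fun n => hsumle _ 2 hcL2 n
  have hTR2' : ∀ n, ‖TR' n‖ ≤ 2 := fun n =>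
    (hsumle _ 1 (fun b => hcR1' (rd p l (b ^ 2))) n).trans (by norm_num)
  have hTL2' : ∀ n, ‖TL' n‖ ≤ 2 * sp := fun n => hsumle _ (2 * sp) (fun b => hcL2' (rd p l (b ^ 2))) n
  -- the two levels
  have hqq : p ^ (2 * l) = p * p ^ (2 * l - 1) := by
    rw [← pow_succ']
    congr 1
    omega
  have hq2' : 2 ≤ p ^ (2 * l - 1) := by
    calc 2 ≤ p := hp.two_le
      _ = p ^ 1 := (pow_one p).symm
      _ ≤ p ^ (2 * l - 1) := Nat.pow_le_pow_right hp.pos (by omega)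
  have hA : ∀ b, w b ≠ 0 → ∀ u,
      ‖(aF lam (Mx (cR (p ^ (2 * l)) ((b ^ 2 : (ZMod (p ^ (2 * l)))ˣ) : ZMod (p ^ (2 * l))))) u -
        aF lam (Mx (cL (p ^ (2 * l)) ((b ^ 2 : (ZMod (p ^ (2 * l)))ˣ) : ZMod (p ^ (2 * l))))) (-u)) -
      (kap p : ℂ) * (aF (lam - Real.log p / 2) (Mx (cR (p ^ (2 * l - 1))
          ((rd p l (b ^ 2) : (ZMod (p ^ (2 * l - 1)))ˣ) : ZMod (p ^ (2 * l - 1))))) (u - 3 / 2 * Real.log p) -
        aF (lam - Real.log p / 2) (Mx (cL (p ^ (2 * l - 1))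
          ((rd p l (b ^ 2) : (ZMod (p ^ (2 * l - 1)))ˣ) : ZMod (p ^ (2 * l - 1))))) (-(u - 3 / 2 * Real.log p)))‖ ≤
      C * Real.exp (-lam / 2) * Kth := by
    intro b hb u
    exact hineq htrig hsup hlap hlim hpair hsh hdt p (p ^ (2 * l)) (p ^ (2 * l - 1)) hp.pos hqq hq2'
      (fun χ hχ => Two.Mx_chi hp (by omega) hC₁ h hχ) (fun χ hχ => Two.Mx_chi hp (by omega) hC₂ h' hχ)
      C _ _ hC ((hcrk p (2 * l) hp hp2 hk1 (b ^ 2)).2.2.2.2 C₁ hC₁ h).1
      ((hcrk p (2 * l - 1) hp hp2 hk2 (rd p l (b ^ 2))).2.2.2.2 C₂ hC₂ h').1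
      (hhv p l hp hp2 hl2 C α β R₀ hC hint (b ^ 2) (hφs _ (hwφ b hb))) lam hlam u
  have hmain := havgs hlap hser (ZMod (p ^ (2 * l)))ˣ w
    (fun b => cR (p ^ (2 * l)) ((b ^ 2 : (ZMod (p ^ (2 * l)))ˣ) : ZMod (p ^ (2 * l))))
    (fun b => cL (p ^ (2 * l)) ((b ^ 2 : (ZMod (p ^ (2 * l)))ˣ) : ZMod (p ^ (2 * l))))
    (fun b => cR (p ^ (2 * l - 1)) ((rd p l (b ^ 2) : (ZMod (p ^ (2 * l - 1)))ˣ) : ZMod (p ^ (2 * l - 1))))
    (fun b => cL (p ^ (2 * l - 1)) ((rd p l (b ^ 2) : (ZMod (p ^ (2 * l - 1)))ˣ) : ZMod (p ^ (2 * l - 1))))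
    sp hsp1 hw0 hw1
    (fun b n => ⟨(hcR1 b n).trans (by linarith), (hcL2 b n).trans (by linarith),
      (hcR1' _ n).trans (by linarith), hcL2' _ n⟩)
    (fun b => ((hcrk p (2 * l) hp hp2 hk1 (b ^ 2)).2.2.2.2 C₁ hC₁ h).1)
    (fun b => ((hcrk p (2 * l) hp hp2 hk1 (b ^ 2)).2.2.2.2 C₁ hC₁ h).2)
    (fun b => ((hcrk p (2 * l - 1) hp hp2 hk2 (rd p l (b ^ 2))).2.2.2.2 C₂ hC₂ h').1)
    (fun b => ((hcrk p (2 * l - 1) hp hp2 hk2 (rd p l (b ^ 2))).2.2.2.2 C₂ hC₂ h').2)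
    lam (lam - Real.log p / 2) (kap p) (3 / 2 * Real.log p) (C * Real.exp (-lam / 2) * Kth) hA
    TR TL TR' TL' hTR hTL hTR' hTL' U
  have he1 : Real.exp (lam - U) = 1 / (10 * N) := by
    rw [hU, show lam - (Real.log (10 * N) + lam) = -Real.log (10 * N) by ring, Real.exp_neg, Real.exp_log hZ,
      one_div]
  have he2 : Real.exp (lam - Real.log p / 2 - (U + 3 / 2 * Real.log p)) = 1 / (Z : ℝ) := by
    have e1 : lam - Real.log p / 2 - (U + 3 / 2 * Real.log p) = -(Real.log (10 * N) + 2 * Real.log p) := by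
      rw [hU]; ring
    have e2 : Real.log (10 * N) + 2 * Real.log p = Real.log Z := by
      rw [hZR, Real.log_mul hZ.ne' (by positivity), Real.log_pow]
      push_cast
      ring
    rw [e1, e2, Real.exp_neg, Real.exp_log (by linarith), one_div]
  rw [he1, he2] at hmain
  -- averages of Kloosterman sums
  have hGsub : Gs (100 * N ^ 2) p ⊆ Gs (Z ^ 2) p := by
    intro g hg
    rw [Two.mem_Gs] at hg ⊢
    have h1 : ((100 * N ^ 2 : ℕ) : ℤ) ≤ ((Z ^ 2 : ℕ) : ℤ) := by exact_mod_cast hYY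
    exact ⟨⟨by linarith [hg.1.1], by linarith [hg.1.2]⟩, hg.2⟩
  have hp0 : (p : ℂ) ^ l ≠ 0 := pow_ne_zero _ (Nat.cast_ne_zero.mpr hp.ne_zero)
  have havg : ∀ (g : ℤ) (g' : (ZMod (p ^ (2 * l)))ˣ), (g' : ZMod (p ^ (2 * l))) = (g : ZMod (p ^ (2 * l))) →
      Squarefree g → ¬ (p : ℤ) ∣ g → -((100 * N ^ 2 : ℕ) : ℤ) ≤ g → g ≤ ((100 * N ^ 2 : ℕ) : ℤ) →
      ‖(∑ b, (w b : ℂ) * Kl (p ^ (2 * l)) ((b ^ 2 * g'⁻¹ : (ZMod (p ^ (2 * l)))ˣ) : ZMod (p ^ (2 * l)))) /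
        (2 * (p : ℂ) ^ l) - (if g ∈ S then ((ArithmeticFunction.moebius g.natAbs : ℤ) : ℂ) / 2 else 0)‖ ≤ ε := by
    intro g g' hg' hg1 hg2 hg3 hg4
    by_cases hsq : IsSquare (g : ZMod p)
    · have hgG : g ∈ Gs (100 * N ^ 2) p := by
        rw [Two.mem_Gs]
        exact ⟨⟨hg3, hg4⟩, hg1, hg2, hsq⟩
      have h1 : ∀ b : (ZMod (p ^ (2 * l)))ˣ,
          Kl (p ^ (2 * l)) ((b ^ 2 * g'⁻¹ : (ZMod (p ^ (2 * l)))ˣ) : ZMod (p ^ (2 * l))) =
          2 * (p : ℂ) ^ l * ((ee (p ^ (2 * l)) (2 * b * r g)).re : ℂ) := fun b =>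
        Two.Kl_div hkl hp hp2 hl b (r g) g' (by rw [hg']; exact hr g (hGsub hgG))
      simp only [h1]
      have h2 := hw g hgG
      have h3 : (∑ b, (w b : ℂ) * (2 * (p : ℂ) ^ l * ((ee (p ^ (2 * l)) (2 * b * r g)).re : ℂ))) /
          (2 * (p : ℂ) ^ l) = ((∑ b, w b * (ee (p ^ (2 * l)) (2 * (b : ZMod (p ^ (2 * l))) * r g)).re : ℝ) : ℂ) := by
        rw [Complex.ofReal_sum, Finset.sum_div]
        refine Finset.sum_congr rfl fun b _ => ?_
        rw [Complex.ofReal_mul]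
        field_simp
      have h4 : (if g ∈ S then ((ArithmeticFunction.moebius g.natAbs : ℤ) : ℂ) / 2 else 0) =
          (((if g ∈ S then ((ArithmeticFunction.moebius g.natAbs : ℤ) : ℝ) / 2 else 0) : ℝ) : ℂ) := by
        split_ifs <;> push_cast <;> rfl
      rw [h3, h4, ← Complex.ofReal_sub, Complex.norm_real, Real.norm_eq_abs]
      convert h2
    · have hgS : g ∉ S := by
        intro hgS
        exact hsq (Two.mem_Gs.mp (hSsub hgS)).2.2.2
      rw [if_neg hgS, sub_zero]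
      have h0 : ∑ b, (w b : ℂ) * Kl (p ^ (2 * l)) ((b ^ 2 * g'⁻¹ : (ZMod (p ^ (2 * l)))ˣ) :
          ZMod (p ^ (2 * l))) = 0 := by
        refine Finset.sum_eq_zero fun b _ => ?_
        rw [(hkl p l hp hp2 hl).2.1 _ (Two.not_square hl g g' b hg' hsq), mul_zero]
      rw [h0, zero_div, norm_zero]
      exact hε0.le
  -- small coefficients
  have hsmall : ∀ m : ℕ, 1 ≤ m → m ≤ 100 * N ^ 2 →
      ‖mu m * TL m - (if m ∈ Sn then (1 / 2 : ℂ) else 0)‖ ≤ 2 * ε := by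
    intro m hm1 hm2
    by_cases hsqf : Squarefree m
    · by_cases hpm : p ∣ m
      · have h1 : m ∉ Sn := by
          intro hm
          rw [hSn, Finset.mem_filter] at hm
          have := Nat.mod_eq_zero_of_dvd hpm
          omega
        have h2 : TL m = 0 := by
          rw [hTL]
          refine Finset.sum_eq_zero fun b _ => ?_
          have h3 := not_isUnit_nat (l := l) hp hl m hpm
          have h4 : cL (p ^ (2 * l)) ((b ^ 2 : (ZMod (p ^ (2 * l)))ˣ) : ZMod (p ^ (2 * l))) m = 0 := by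
            unfold cL
            refine Finset.sum_eq_zero fun χ _ => ?_
            rw [MulChar.map_nonunit _ h3, mul_zero]
          rw [h4, mul_zero]
        rw [h2, if_neg h1, mul_zero, sub_zero, norm_zero]
        linarith
      · obtain ⟨m', hm'⟩ := isUnit_nat (l := l) hp m hpm
        have hpZ : ¬ (p : ℤ) ∣ (m : ℤ) := fun hd => hpm (by exact_mod_cast hd)
        have hsqZ : Squarefree (m : ℤ) := Int.squarefree_natCast.mpr hsqf
        have hmle : (m : ℤ) ≤ ((100 * N ^ 2 : ℕ) : ℤ) := by exact_mod_cast hm2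
        have e1 := havg (m : ℤ) m' (by rw [hm']; push_cast; rfl) hsqZ hpZ (by omega) hmle
        have e2 := havg (-(m : ℤ)) (-m') (by rw [Units.val_neg, hm']; push_cast; rfl)
          (by
            have := hsqZ
            rwa [← Int.squarefree_natAbs, Int.natAbs_neg, Int.squarefree_natAbs]) (by
            rwa [Int.dvd_neg]) (by omega) (by omega)
        rw [if_neg (hSneg m hm1), sub_zero] at e2
        have h6 : ((m : ℤ) ∈ S) = (m ∈ Sn) := propext (hSmem m)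
        simp only [h6, Int.natAbs_natCast] at e1
        set A₁ : ℂ := (∑ b, (w b : ℂ) * Kl (p ^ (2 * l)) ((b ^ 2 * m'⁻¹ : (ZMod (p ^ (2 * l)))ˣ) :
          ZMod (p ^ (2 * l)))) / (2 * (p : ℂ) ^ l) with hA₁
        set A₂ : ℂ := (∑ b, (w b : ℂ) * Kl (p ^ (2 * l)) ((b ^ 2 * (-m')⁻¹ : (ZMod (p ^ (2 * l)))ˣ) :
          ZMod (p ^ (2 * l)))) / (2 * (p : ℂ) ^ l) with hA₂
        have h1 : TL m = A₁ + A₂ := by
          have h2 : TL m = ∑ b, (w b : ℂ) *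
              ((Kl (p ^ (2 * l)) ((b ^ 2 * m'⁻¹ : (ZMod (p ^ (2 * l)))ˣ) : ZMod (p ^ (2 * l))) +
                Kl (p ^ (2 * l)) ((b ^ 2 * (-m')⁻¹ : (ZMod (p ^ (2 * l)))ˣ) : ZMod (p ^ (2 * l)))) /
                (2 * (p : ℂ) ^ l)) := by
            rw [hTL]
            refine Finset.sum_congr rfl fun b _ => ?_
            congr 1
            have h3 := cL_eq hch hp hp2 hl (b ^ 2) m' m hm'
            rw [h3]
            have h4 : -((b ^ 2 * m'⁻¹ : (ZMod (p ^ (2 * l)))ˣ) : ZMod (p ^ (2 * l))) =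
                ((b ^ 2 * (-m')⁻¹ : (ZMod (p ^ (2 * l)))ˣ) : ZMod (p ^ (2 * l))) := by
              rw [← Units.val_neg]
              congr 1
              rw [inv_neg, mul_neg]
            rw [h4]
          rw [h2, hA₁, hA₂, ← add_div, ← Finset.sum_add_distrib, Finset.sum_div]
          refine Finset.sum_congr rfl fun b _ => ?_
          ring
        have hmu1 : ‖mu m‖ ≤ 1 := norm_mu_le m
        have h7 : mu m * (if m ∈ Sn then ((ArithmeticFunction.moebius m : ℤ) : ℂ) / 2 else 0) =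
            (if m ∈ Sn then (1 / 2 : ℂ) else 0) := by
          by_cases hmS : m ∈ Sn
          · rw [if_pos hmS, if_pos hmS]
            unfold mu
            have h3 : (ArithmeticFunction.moebius m : ℤ) ^ 2 = 1 :=
              ArithmeticFunction.moebius_sq_eq_one_of_squarefree hsqf
            have h4 : ((ArithmeticFunction.moebius m : ℤ) : ℂ) * ((ArithmeticFunction.moebius m : ℤ) : ℂ) = 1 := by
              rw [← sq]; exact_mod_cast h3
            rw [← mul_div_assoc, h4]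
          · rw [if_neg hmS, if_neg hmS]
            simp
        rw [h1, ← h7]
        have h8 : mu m * (A₁ + A₂) - mu m * (if m ∈ Sn then ((ArithmeticFunction.moebius m : ℤ) : ℂ) / 2 else 0) =
            mu m * ((A₁ - (if m ∈ Sn then ((ArithmeticFunction.moebius m : ℤ) : ℂ) / 2 else 0)) + A₂) := by ring
        rw [h8, norm_mul]
        calc ‖mu m‖ * ‖(A₁ - (if m ∈ Sn then ((ArithmeticFunction.moebius m : ℤ) : ℂ) / 2 else 0)) + A₂‖
            ≤ 1 * (ε + ε) := by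
              refine mul_le_mul hmu1 ((norm_add_le _ _).trans (add_le_add e1 e2)) (norm_nonneg _) zero_le_one
          _ = 2 * ε := by ring
    · have h1 : mu m = 0 := by
        unfold mu
        rw [ArithmeticFunction.moebius_eq_zero_of_not_squarefree hsqf]
        simp
      have h2 : m ∉ Sn := fun hm => hsqf (Finset.mem_filter.mp hm).2.1
      rw [h1, if_neg h2, zero_mul, sub_zero, norm_zero]
      linarith
  -- the averages modulo `q'`
  have havg' : ∀ (g : ℤ) (g' : (ZMod (p ^ (2 * l - 1)))ˣ), (g' : ZMod (p ^ (2 * l - 1))) = (g : ZMod (p ^ (2 * l - 1))) →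
      Squarefree g → ¬ (p : ℤ) ∣ g → -((Z ^ 2 : ℕ) : ℤ) ≤ g → g ≤ ((Z ^ 2 : ℕ) : ℤ) →
      ‖∑ b, (w b : ℂ) * Kl (p ^ (2 * l - 1)) ((rd p l b ^ 2 * g'⁻¹ : (ZMod (p ^ (2 * l - 1)))ˣ) :
        ZMod (p ^ (2 * l - 1)))‖ ≤ 2 * (p : ℝ) ^ l * ε := by
    intro g g' hg' hg1 hg2 hg3 hg4
    by_cases hsqg : IsSquare (g : ZMod p)
    · have hgG : g ∈ Gs (Z ^ 2) p := by
        rw [Two.mem_Gs]
        exact ⟨⟨hg3, hg4⟩, hg1, hg2, hsqg⟩
      obtain ⟨Y, t, hYc, hYt, hYb⟩ := ((hklo p l hp hp2 hl2).2 g g' hg').2 (r g) (hr g hgG)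
      have e1 : ∑ b, (w b : ℂ) * Kl (p ^ (2 * l - 1)) ((rd p l b ^ 2 * g'⁻¹ : (ZMod (p ^ (2 * l - 1)))ˣ) :
          ZMod (p ^ (2 * l - 1))) = ∑ y ∈ Y, ∑ b, (w b : ℂ) * ee (p ^ (2 * l)) ((b : ZMod (p ^ (2 * l))) * t y) := by
        rw [Finset.sum_comm]
        refine Finset.sum_congr rfl fun b _ => ?_
        rw [hYb b, Finset.mul_sum]
      rw [e1]
      refine (norm_sum_le _ _).trans ?_
      calc ∑ y ∈ Y, ‖∑ b, (w b : ℂ) * ee (p ^ (2 * l)) ((b : ZMod (p ^ (2 * l))) * t y)‖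
          ≤ ∑ y ∈ Y, ε := Finset.sum_le_sum fun y hy => hwt g hgG (t y) (hYt y hy)
        _ = Y.card * ε := by rw [Finset.sum_const, nsmul_eq_mul]
        _ ≤ 2 * (p : ℝ) ^ l * ε := mul_le_mul_of_nonneg_right hYc hε0.le
    · have h0 : ∑ b, (w b : ℂ) * Kl (p ^ (2 * l - 1)) ((rd p l b ^ 2 * g'⁻¹ : (ZMod (p ^ (2 * l - 1)))ˣ) :
          ZMod (p ^ (2 * l - 1))) = 0 := by
        refine Finset.sum_eq_zero fun b _ => ?_
        rw [((hklo p l hp hp2 hl2).2 g g' hg').1 hsqg b, mul_zero]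
      rw [h0, norm_zero]
      positivity
  have hsmall' : ∀ m : ℕ, 1 ≤ m → m ≤ Z ^ 2 → ‖mu m * TL' m‖ ≤ 2 * sp * ε := by
    intro m hm1 hm2
    have hpos : 0 ≤ 2 * sp * ε := by positivity
    by_cases hsqf : Squarefree m
    · by_cases hpm : p ∣ m
      · have h2 : TL' m = 0 := by
          rw [hTL']
          refine Finset.sum_eq_zero fun b _ => ?_
          rw [(hcrk p (2 * l - 1) hp hp2 hk2 (rd p l (b ^ 2))).2.2.1 m hpm, mul_zero]
        rw [h2, mul_zero, norm_zero]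
        exact hpos
      · have hu : IsUnit (m : ZMod (p ^ (2 * l - 1))) := by
          rw [ZMod.isUnit_iff_coprime]
          exact (Nat.Coprime.pow_left _ ((Nat.Prime.coprime_iff_not_dvd hp).mpr hpm)).symm
        obtain ⟨m', hm'⟩ := hu
        have hpZ : ¬ (p : ℤ) ∣ (m : ℤ) := fun hd => hpm (by exact_mod_cast hd)
        have hsqZ : Squarefree (m : ℤ) := Int.squarefree_natCast.mpr hsqf
        have hmle : (m : ℤ) ≤ ((Z ^ 2 : ℕ) : ℤ) := by exact_mod_cast hm2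
        have e1 := havg' (m : ℤ) m' (by rw [hm']; push_cast; rfl) hsqZ hpZ (by omega) hmle
        have e2 := havg' (-(m : ℤ)) (-m') (by rw [Units.val_neg, hm']; push_cast; rfl)
          (by
            have := hsqZ
            rwa [← Int.squarefree_natAbs, Int.natAbs_neg, Int.squarefree_natAbs]) (by
            rwa [Int.dvd_neg]) (by omega) (by omega)
        have h2 : TL' m = (∑ b, (w b : ℂ) * Kl (p ^ (2 * l - 1)) ((rd p l b ^ 2 * m'⁻¹ :
              (ZMod (p ^ (2 * l - 1)))ˣ) : ZMod (p ^ (2 * l - 1))) +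
            ∑ b, (w b : ℂ) * Kl (p ^ (2 * l - 1)) ((rd p l b ^ 2 * (-m')⁻¹ :
              (ZMod (p ^ (2 * l - 1)))ˣ) : ZMod (p ^ (2 * l - 1)))) / (2 * (rq : ℂ)) := by
          rw [hTL', ← Finset.sum_add_distrib, Finset.sum_div]
          refine Finset.sum_congr rfl fun b _ => ?_
          rw [(hcrk p (2 * l - 1) hp hp2 hk2 (rd p l (b ^ 2))).2.2.2.1 m' m hm', map_pow]
          have h4 : -((rd p l b ^ 2 * m'⁻¹ : (ZMod (p ^ (2 * l - 1)))ˣ) : ZMod (p ^ (2 * l - 1))) =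
              ((rd p l b ^ 2 * (-m')⁻¹ : (ZMod (p ^ (2 * l - 1)))ˣ) : ZMod (p ^ (2 * l - 1))) := by
            rw [← Units.val_neg]
            congr 1
            rw [inv_neg, mul_neg]
          rw [h4]
          ring
        have h5 : ‖TL' m‖ ≤ 2 * sp * ε := by
          rw [h2, norm_div]
          have h3 : ‖(2 * (rq : ℂ))‖ = 2 * rq := by
            rw [norm_mul, Complex.norm_real, Real.norm_of_nonneg hsqpos.le, Complex.norm_ofNat]
          rw [h3, div_le_iff₀ (by positivity)]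
          refine (norm_add_le _ _).trans ?_
          have h4 : 2 * sp * ε * (2 * rq) = 4 * (p : ℝ) ^ l * ε := by rw [← hsqsp]; ring
          rw [h4]
          linarith
        rw [norm_mul]
        calc ‖mu m‖ * ‖TL' m‖ ≤ 1 * (2 * sp * ε) :=
              mul_le_mul (norm_mu_le m) h5 (norm_nonneg _) zero_le_one
          _ = _ := one_mul _
    · have h1 : mu m = 0 := by
        unfold mu
        rw [ArithmeticFunction.moebius_eq_zero_of_not_squarefree hsqf]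
        simp
      rw [h1, zero_mul, norm_zero]
      exact hpos
  have hNZ3 : (N : ℝ) ^ 3 ≤ (Z : ℝ) ^ 3 := pow_le_pow_left₀ (by linarith) hZN 3
  have hlow := hll hvb N hN2 Sn (fun m hm => by
    rw [hSn, Finset.mem_filter, Finset.mem_Icc] at hm
    exact hm.1) TL hTL2 (2 * ε) (by linarith) (by
      have h1 : 2 * ε * (6000 * (N : ℝ) ^ 3) ≤ ε * (12000 * p * (Z : ℝ) ^ 3) := by
        have h2 : (N : ℝ) ^ 3 ≤ p * (Z : ℝ) ^ 3 := by nlinarith
        nlinarith [mul_le_mul_of_nonneg_left h2 hε0.le]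
      linarith) hsmall
  have hlow' := hllb hvb Z sp (2 * sp * ε) TL' hZ10 hsp1 (by
      rw [hZR]; nlinarith [mul_nonneg (by linarith : (0 : ℝ) ≤ (N : ℝ) - 1) (sq_nonneg (p : ℝ))]) (by positivity) hTL2' (by
      have h1 : 2 * sp * ε * (6 * (Z : ℝ) ^ 3) ≤ ε * (12000 * p * (Z : ℝ) ^ 3) := by
        have h2 : sp * (Z : ℝ) ^ 3 ≤ p * (Z : ℝ) ^ 3 := mul_le_mul_of_nonneg_right hsple hZ3.le
        have h3 : 0 ≤ p * (Z : ℝ) ^ 3 := by positivity
        nlinarith [mul_le_mul_of_nonneg_left h2 hε0.le, mul_nonneg hε0.le h3]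
      linarith) hsmall'
  have hXU : 1 ≤ Real.exp (lam + U) := Real.one_le_exp (by rw [hU]; linarith)
  have hXU' : 1 ≤ Real.exp (lam - Real.log p / 2 + (U + 3 / 2 * Real.log p)) := by
    refine Real.one_le_exp ?_
    have : 0 ≤ U := by rw [hU]; linarith
    linarith
  have hright := right_upper hvb (Real.exp (lam + U)) hXU TR hTR2
  have hright' := right_upper hvb (Real.exp (lam - Real.log p / 2 + (U + 3 / 2 * Real.log p))) hXU' TR' hTR2'
  set SR := ∑' n : ℕ, mu (n + 1) * TR (n + 1) * ((VR ((n + 1 : ℕ) * Real.exp (lam + U)) : ℝ) : ℂ) with hSR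
  set SL := ∑' n : ℕ, mu (n + 1) * TL (n + 1) * ((VL ((n + 1 : ℕ) * (1 / (10 * N : ℝ))) : ℝ) : ℂ) with hSL
  set SR' := ∑' n : ℕ, mu (n + 1) * TR' (n + 1) *
    ((VR ((n + 1 : ℕ) * Real.exp (lam - Real.log p / 2 + (U + 3 / 2 * Real.log p))) : ℝ) : ℂ) with hSR'
  set SL' := ∑' n : ℕ, mu (n + 1) * TL' (n + 1) * ((VL ((n + 1 : ℕ) * (1 / (Z : ℝ))) : ℝ) : ℂ) with hSL'
  -- multiply by exp (U/2)
  have hU0 : 0 ≤ U := by rw [hU]; linarith
  have hexp : (0 : ℝ) < Real.exp (U / 2) := Real.exp_pos _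
  have hkap : 0 < kap p := Real.exp_pos _
  have h1 : Real.exp (-U / 2) * ‖SL‖ ≤ 5 * (C * Real.exp (-lam / 2) * Kth) + Real.exp (U / 2) * ‖SR‖ +
      kap p * (Real.exp ((U + 3 / 2 * Real.log p) / 2) * ‖SR'‖) +
      kap p * (Real.exp (-(U + 3 / 2 * Real.log p) / 2) * ‖SL'‖) := by
    set a₁ : ℂ := (Real.exp (U / 2) : ℂ) * SR with ha₁
    set a₂ : ℂ := (Real.exp (-U / 2) : ℂ) * SL with ha₂
    set a₃ : ℂ := (Real.exp ((U + 3 / 2 * Real.log p) / 2) : ℂ) * SR' with ha₃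
    set a₄ : ℂ := (Real.exp (-(U + 3 / 2 * Real.log p) / 2) : ℂ) * SL' with ha₄
    have n1 : ‖a₁‖ = Real.exp (U / 2) * ‖SR‖ := by
      rw [ha₁, norm_mul, Complex.norm_real, Real.norm_of_nonneg (Real.exp_pos _).le]
    have n2 : ‖a₂‖ = Real.exp (-U / 2) * ‖SL‖ := by
      rw [ha₂, norm_mul, Complex.norm_real, Real.norm_of_nonneg (Real.exp_pos _).le]
    have n3 : ‖a₃‖ = Real.exp ((U + 3 / 2 * Real.log p) / 2) * ‖SR'‖ := by
      rw [ha₃, norm_mul, Complex.norm_real, Real.norm_of_nonneg (Real.exp_pos _).le]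
    have n4 : ‖a₄‖ = Real.exp (-(U + 3 / 2 * Real.log p) / 2) * ‖SL'‖ := by
      rw [ha₄, norm_mul, Complex.norm_real, Real.norm_of_nonneg (Real.exp_pos _).le]
    have n5 : a₂ = a₁ - (kap p : ℂ) * a₃ + (kap p : ℂ) * a₄ - ((a₁ - a₂) - (kap p : ℂ) * (a₃ - a₄)) := by ring
    have n6 : ‖(kap p : ℂ) * a₃‖ = kap p * ‖a₃‖ := by
      rw [norm_mul, Complex.norm_real, Real.norm_of_nonneg hkap.le]
    have n7 : ‖(kap p : ℂ) * a₄‖ = kap p * ‖a₄‖ := by
      rw [norm_mul, Complex.norm_real, Real.norm_of_nonneg hkap.le]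
    have n8 : ‖a₂‖ ≤ ‖a₁‖ + ‖(kap p : ℂ) * a₃‖ + ‖(kap p : ℂ) * a₄‖ +
        ‖(a₁ - a₂) - (kap p : ℂ) * (a₃ - a₄)‖ := by
      conv_lhs => rw [n5]
      refine (norm_sub_le _ _).trans ?_
      have := norm_add_le (a₁ - (kap p : ℂ) * a₃) ((kap p : ℂ) * a₄)
      have := norm_sub_le a₁ ((kap p : ℂ) * a₃)
      linarith
    rw [n6, n7, n1, n2, n3, n4] at n8
    linarith
  have k1 : Real.exp (U / 2) * (kap p * Real.exp ((U + 3 / 2 * Real.log p) / 2)) = Real.exp U := by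
    unfold kap
    rw [← Real.exp_add, ← Real.exp_add]
    congr 1
    ring
  have k2 : Real.exp (U / 2) * (kap p * Real.exp (-(U + 3 / 2 * Real.log p) / 2)) ≤ 1 := by
    unfold kap
    rw [← Real.exp_add, ← Real.exp_add]
    apply Real.exp_le_one_iff.2
    nlinarith
  have h2 : ‖SL‖ ≤ Real.exp (U / 2) * (5 * (C * Real.exp (-lam / 2) * Kth)) +
      Real.exp U * ‖SR‖ + Real.exp U * ‖SR'‖ + ‖SL'‖ := by
    have e1 : Real.exp (U / 2) * (Real.exp (-U / 2) * ‖SL‖) = ‖SL‖ := by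
      rw [← mul_assoc, ← Real.exp_add, show U / 2 + -U / 2 = 0 by ring, Real.exp_zero, one_mul]
    have e2 : Real.exp (U / 2) * (Real.exp (U / 2) * ‖SR‖) = Real.exp U * ‖SR‖ := by
      rw [← mul_assoc, ← Real.exp_add, show U / 2 + U / 2 = U by ring]
    have e4 : Real.exp (U / 2) * (kap p * (Real.exp ((U + 3 / 2 * Real.log p) / 2) * ‖SR'‖)) =
        Real.exp U * ‖SR'‖ := by
      rw [← k1]; ring
    have e5 : Real.exp (U / 2) * (kap p * (Real.exp (-(U + 3 / 2 * Real.log p) / 2) * ‖SL'‖)) ≤ ‖SL'‖ := by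
      have := mul_le_mul_of_nonneg_right k2 (norm_nonneg SL')
      rw [one_mul] at this
      calc _ = Real.exp (U / 2) * (kap p * Real.exp (-(U + 3 / 2 * Real.log p) / 2)) * ‖SL'‖ := by ring
        _ ≤ _ := this
    have e3 := mul_le_mul_of_nonneg_left h1 hexp.le
    rw [e1, mul_add, mul_add, mul_add, e2, e4] at e3
    linarith
  have h3 : Real.exp (U / 2) * (5 * (C * Real.exp (-lam / 2) * Kth)) =
      5 * C * Kth * Real.sqrt (10 * N) := by
    have e1 : Real.exp (U / 2) = Real.sqrt (10 * N) * Real.exp (lam / 2) := by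
      rw [hU, add_div, Real.exp_add]
      congr 1
      rw [Real.sqrt_eq_rpow, Real.rpow_def_of_pos hZ]
      congr 1
      ring
    have e2 : Real.exp (lam / 2) * Real.exp (-lam / 2) = 1 := by
      rw [← Real.exp_add, show lam / 2 + -lam / 2 = 0 by ring, Real.exp_zero]
    rw [e1]
    calc Real.sqrt (10 * N) * Real.exp (lam / 2) * (5 * (C * Real.exp (-lam / 2) * Kth))
        = (Real.exp (lam / 2) * Real.exp (-lam / 2)) * (5 * C * Kth * Real.sqrt (10 * N)) := by ring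
      _ = _ := by rw [e2, one_mul]
  have hcube : ∀ (x s : ℝ), U ≤ x → 0 ≤ x → s ≤ 360 / Real.exp x ^ 3 → 0 ≤ s → Real.exp U * s ≤ 360 := by
    intro x s hx hx0 hs hs0
    have e0 : Real.exp U ≤ Real.exp x := Real.exp_le_exp.mpr hx
    have hx1 : 1 ≤ Real.exp x := Real.one_le_exp hx0
    have e1 : Real.exp x ≤ Real.exp x ^ 3 := by
      nlinarith [sq_nonneg (Real.exp x), mul_self_nonneg (Real.exp x - 1)]
    have hpos : 0 < Real.exp x := Real.exp_pos _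
    calc Real.exp U * s ≤ Real.exp x ^ 3 * (360 / Real.exp x ^ 3) :=
          mul_le_mul (e0.trans e1) hs hs0 (by positivity)
      _ = 360 := by field_simp
  have h4 : Real.exp U * ‖SR‖ ≤ 360 := hcube (lam + U) _ (by linarith) (by linarith) hright (norm_nonneg _)
  have h4' : Real.exp U * ‖SR'‖ ≤ 360 :=
    hcube (lam - Real.log p / 2 + (U + 3 / 2 * Real.log p)) _ (by linarith) (by linarith) hright' (norm_nonneg _)
  have hfin : (Sn.card : ℝ) / 5 - 2 ≤ 5 * C * Kth * Real.sqrt (10 * N) + 722 := by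
    linarith
  have h5 : (1 : ℝ) ≤ Real.sqrt (10 * N) := by
    rw [Real.one_le_sqrt]; linarith
  have h6 : (5 * C * Kth + 724) * Real.sqrt (10 * N) + 1 < N / (25 * p) := hN1
  have h7 : (N : ℝ) / (25 * p) = (N / (5 * p)) / 5 := by
    rw [div_div]
    congr 1
    ring
  nlinarith

end Pool.Agent.T2h55.UP
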