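import Pool.Agent.T2h55.UP.Stm

/-! Project UP (owner helper55), task UP_QS: quadratic Gauss sums over the units. -/

set_option autoImplicit false

open Filter Topology MeasureTheory Finset
open Pool.Agent.Y821.ME

namespace Pool.Agent.T2h55.UP

namespace QS

theorem dvd_aux {p : ℕ} (hp : p.Prime) (hp2 : p ≠ 2) {l v : ℕ} {k n : ℤ}
    (hk : ¬ (p : ℤ) ^ (v + 1) ∣ k) (h : (p : ℤ) ^ (2 * l) ∣ (p : ℤ) ^ l * (2 * k * n)) :
    (p : ℤ) ^ (2 * l) ∣ (p : ℤ) ^ (l + v) * n := by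
  have hpZ : Prime (p : ℤ) := Nat.prime_iff_prime_int.1 hp
  have hpl : (p : ℤ) ^ l ≠ 0 := pow_ne_zero _ hpZ.ne_zero
  rw [two_mul, pow_add] at h
  have h1 : (p : ℤ) ^ l ∣ 2 * k * n := (mul_dvd_mul_iff_left hpl).1 h
  have hk0 : k ≠ 0 := by
    rintro rfl
    exact hk (dvd_zero _)
  have hfin : FiniteMultiplicity (p : ℤ) k := by
    rw [Int.finiteMultiplicity_iff]
    refine ⟨?_, hk0⟩
    rw [Int.natAbs_natCast]
    exact hp.one_lt.ne'
  obtain ⟨c, hc, hpc⟩ := hfin.exists_eq_pow_mul_and_not_dvd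
  obtain ⟨w, hw⟩ : ∃ w, w = multiplicity (p : ℤ) k := ⟨_, rfl⟩
  rw [← hw] at hc
  have hwv : w ≤ v := by
    by_contra hcon
    refine hk ?_
    rw [hc]
    exact Dvd.dvd.mul_right (pow_dvd_pow _ (by omega)) _
  have hp2' : ¬ (p : ℤ) ∣ 2 := by
    intro hd
    have h2 : p ∣ 2 := by exact_mod_cast hd
    exact hp2 ((Nat.prime_dvd_prime_iff_eq hp Nat.prime_two).1 h2)
  have hcop : IsCoprime ((p : ℤ) ^ l) (2 * c) := by
    refine IsCoprime.pow_left ?_
    rw [hpZ.coprime_iff_not_dvd]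
    intro hd
    rcases hpZ.dvd_or_dvd hd with h2 | h2
    · exact hp2' h2
    · exact hpc h2
  have h2 : (p : ℤ) ^ l ∣ (2 * c) * ((p : ℤ) ^ w * n) := by
    have : 2 * k * n = (2 * c) * ((p : ℤ) ^ w * n) := by
      rw [hc]
      ring
    rwa [this] at h1
  have h3 : (p : ℤ) ^ l ∣ (p : ℤ) ^ w * n := hcop.dvd_of_dvd_mul_left h2
  have h4 : (p : ℤ) ^ l ∣ (p : ℤ) ^ v * n := by
    obtain ⟨d, rfl⟩ := Nat.exists_eq_add_of_le hwv
    have : (p : ℤ) ^ (w + d) * n = (p : ℤ) ^ d * ((p : ℤ) ^ w * n) := by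
      rw [pow_add]
      ring
    rw [this]
    exact Dvd.dvd.mul_left h3 _
  rw [two_mul, pow_add, pow_add, mul_assoc]
  exact mul_dvd_mul_left _ h4

end QS

open Classical in
theorem qs : S_QS := by
  intro p l v _ hp hp2 hv k hk t
  have hP0 : ((p : ZMod (p ^ (2 * l))) ^ l) * ((p : ZMod (p ^ (2 * l))) ^ l) = 0 := by
    rw [← pow_add, ← two_mul]
    have : ((p ^ (2 * l) : ℕ) : ZMod (p ^ (2 * l))) = 0 := ZMod.natCast_self _
    rw [Nat.cast_pow] at this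
    exact this
  obtain ⟨P, hP⟩ : ∃ P : ZMod (p ^ (2 * l)), P = (p : ZMod (p ^ (2 * l))) ^ l := ⟨_, rfl⟩
  rw [← hP] at hP0
  have hu : ∀ (s : ZMod (p ^ (2 * l))) (b : (ZMod (p ^ (2 * l)))ˣ),
      IsUnit ((b : ZMod (p ^ (2 * l))) + P * s) := fun s b => by
    have hnil : IsNilpotent (P * s) := ⟨2, by rw [pow_two, mul_mul_mul_comm, hP0, zero_mul]⟩
    exact hnil.isUnit_add_left_of_commute b.isUnit (Commute.all _ _)
  let σ : ZMod (p ^ (2 * l)) → (ZMod (p ^ (2 * l)))ˣ → (ZMod (p ^ (2 * l)))ˣ :=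
    fun s b => (hu s b).unit
  have hσ : ∀ s b, ((σ s b : (ZMod (p ^ (2 * l)))ˣ) : ZMod (p ^ (2 * l))) = b + P * s :=
    fun s b => rfl
  have hbij : ∀ s, Function.Bijective (σ s) := by
    intro s
    refine Finite.injective_iff_bijective.mp fun a b hab => ?_
    have h1 : ((σ s a : (ZMod (p ^ (2 * l)))ˣ) : ZMod (p ^ (2 * l))) = σ s b := by rw [hab]
    rw [hσ, hσ] at h1
    exact Units.ext (add_right_cancel h1)
  obtain ⟨f, hf⟩ : ∃ f : (ZMod (p ^ (2 * l)))ˣ → ℂ, f = fun b : (ZMod (p ^ (2 * l)))ˣ =>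
      ee (p ^ (2 * l)) ((b : ZMod (p ^ (2 * l))) * t) *
      ee (p ^ (2 * l)) ((k : ZMod (p ^ (2 * l))) * (b : ZMod (p ^ (2 * l))) ^ 2) := ⟨_, rfl⟩
  have hfσ : ∀ s b, f (σ s b) = f b * ee (p ^ (2 * l)) (s *
      (P * (t + 2 * (k : ZMod (p ^ (2 * l))) * (b : ZMod (p ^ (2 * l)))))) := by
    intro s b
    rw [hf]
    simp only [ee, hσ]
    rw [← AddChar.map_add_eq_mul, ← AddChar.map_add_eq_mul, ← AddChar.map_add_eq_mul]
    congr 1
    have : ((b : ZMod (p ^ (2 * l))) + P * s) * t +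
        (k : ZMod (p ^ (2 * l))) * ((b : ZMod (p ^ (2 * l))) + P * s) ^ 2 =
        ((b : ZMod (p ^ (2 * l))) * t + (k : ZMod (p ^ (2 * l))) * (b : ZMod (p ^ (2 * l))) ^ 2) +
        s * (P * (t + 2 * (k : ZMod (p ^ (2 * l))) * (b : ZMod (p ^ (2 * l))))) +
        (k : ZMod (p ^ (2 * l))) * s ^ 2 * (P * P) := by ring
    rw [this, hP0, mul_zero, add_zero]
  have hsum : ∀ s, ∑ b, f b = ∑ b, f b * ee (p ^ (2 * l)) (s *
      (P * (t + 2 * (k : ZMod (p ^ (2 * l))) * (b : ZMod (p ^ (2 * l)))))) := by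
    intro s
    rw [← (hbij s).sum_comp f]
    exact Finset.sum_congr rfl fun b _ => hfσ s b
  have horth : ∀ c : ZMod (p ^ (2 * l)), ∑ s, ee (p ^ (2 * l)) (s * c) =
      if c = 0 then ((p ^ (2 * l) : ℕ) : ℂ) else 0 := by
    intro c
    have h1 := AddChar.sum_mulShift (R := ZMod (p ^ (2 * l))) (R' := ℂ) c
      (ZMod.isPrimitive_stdAddChar (p ^ (2 * l)))
    rw [ZMod.card] at h1
    simp only [ee]
    rw [h1]
    split_ifs <;> simp
  have hq0 : ((p ^ (2 * l) : ℕ) : ℂ) ≠ 0 := Nat.cast_ne_zero.2 (NeZero.ne _)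
  obtain ⟨B, hB⟩ : ∃ B : Finset (ZMod (p ^ (2 * l)))ˣ, B = Finset.univ.filter
      fun b : (ZMod (p ^ (2 * l)))ˣ =>
      P * (t + 2 * (k : ZMod (p ^ (2 * l))) * (b : ZMod (p ^ (2 * l)))) = 0 := ⟨_, rfl⟩
  have hmain : ∑ b, f b = ∑ b ∈ B, f b := by
    have h1 : ((p ^ (2 * l) : ℕ) : ℂ) * ∑ b, f b = ((p ^ (2 * l) : ℕ) : ℂ) * ∑ b ∈ B, f b := by
      calc ((p ^ (2 * l) : ℕ) : ℂ) * ∑ b, f b = ∑ _s : ZMod (p ^ (2 * l)), ∑ b, f b := by
            rw [Finset.sum_const, Finset.card_univ, ZMod.card, nsmul_eq_mul]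
        _ = ∑ s : ZMod (p ^ (2 * l)), ∑ b, f b * ee (p ^ (2 * l)) (s *
              (P * (t + 2 * (k : ZMod (p ^ (2 * l))) * (b : ZMod (p ^ (2 * l)))))) :=
            Finset.sum_congr rfl fun s _ => hsum s
        _ = ∑ b, f b * ∑ s : ZMod (p ^ (2 * l)), ee (p ^ (2 * l)) (s *
              (P * (t + 2 * (k : ZMod (p ^ (2 * l))) * (b : ZMod (p ^ (2 * l)))))) := by
            rw [Finset.sum_comm]
            exact Finset.sum_congr rfl fun b _ => (Finset.mul_sum _ _ _).symm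
        _ = ((p ^ (2 * l) : ℕ) : ℂ) * ∑ b ∈ B, f b := by
            rw [hB, Finset.sum_filter, Finset.mul_sum]
            refine Finset.sum_congr rfl fun b _ => ?_
            rw [horth]
            split_ifs
            · ring
            · ring
    exact mul_left_cancel₀ hq0 h1
  have hnorm : ∀ b, ‖f b‖ = 1 := by
    intro b
    rw [hf]
    simp only [ee]
    rw [norm_mul, AddChar.norm_apply, AddChar.norm_apply, one_mul]
  have hcard : B.card ≤ p ^ (l + v) := by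
    rcases B.eq_empty_or_nonempty with h0 | ⟨b₀, hb₀⟩
    · rw [h0]
      simp
    · have hpos : 0 < p ^ (l + v) := pow_pos hp.pos _
      have h1 := IsAddCyclic.card_nsmul_eq_zero_le (α := ZMod (p ^ (2 * l))) hpos
      refine le_trans (Finset.card_le_card_of_injOn
        (fun b => (b : ZMod (p ^ (2 * l))) - (b₀ : ZMod (p ^ (2 * l)))) ?_ ?_) h1
      · intro b hb
        have hb' := hb
        rw [Finset.mem_coe, hB, Finset.mem_filter] at hb'
        rw [hB, Finset.mem_filter] at hb₀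
        rw [Finset.mem_coe, Finset.mem_filter]
        refine ⟨Finset.mem_univ _, ?_⟩
        have h2 : P * (2 * (k : ZMod (p ^ (2 * l))) * ((b : ZMod (p ^ (2 * l))) - (b₀ : ZMod (p ^ (2 * l))))) = 0 := by
          have : P * (2 * (k : ZMod (p ^ (2 * l))) * ((b : ZMod (p ^ (2 * l))) - (b₀ : ZMod (p ^ (2 * l))))) =
              P * (t + 2 * (k : ZMod (p ^ (2 * l))) * (b : ZMod (p ^ (2 * l)))) -
              P * (t + 2 * (k : ZMod (p ^ (2 * l))) * (b₀ : ZMod (p ^ (2 * l)))) := by ring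
          rw [this, hb'.2, hb₀.2, sub_zero]
        obtain ⟨n, hn⟩ := ZMod.intCast_surjective ((b : ZMod (p ^ (2 * l))) - (b₀ : ZMod (p ^ (2 * l))))
        rw [← hn, hP] at h2
        have h3 : (((p : ℤ) ^ l * (2 * k * n) : ℤ) : ZMod (p ^ (2 * l))) = 0 := by
          push_cast
          exact h2
        rw [ZMod.intCast_zmod_eq_zero_iff_dvd] at h3
        push_cast at h3
        have h4 := QS.dvd_aux hp hp2 hk h3
        have h5 : (((p : ℤ) ^ (l + v) * n : ℤ) : ZMod (p ^ (2 * l))) = 0 := by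
          rw [ZMod.intCast_zmod_eq_zero_iff_dvd]
          push_cast
          exact h4
        show p ^ (l + v) • ((b : ZMod (p ^ (2 * l))) - (b₀ : ZMod (p ^ (2 * l)))) = 0
        rw [← hn, nsmul_eq_mul]
        push_cast at h5 ⊢
        exact h5
      · intro b _ b' _ h
        exact Units.ext (sub_left_injective h)
  have hgoal : ‖∑ b, f b‖ ≤ (p : ℝ) ^ (l + v) := by
    rw [hmain]
    calc ‖∑ b ∈ B, f b‖ ≤ ∑ b ∈ B, ‖f b‖ := norm_sum_le _ _
      _ = B.card := by simp [hnorm]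
      _ ≤ ((p ^ (l + v) : ℕ) : ℝ) := by exact_mod_cast hcard
      _ = (p : ℝ) ^ (l + v) := by push_cast; ring
  rw [hf] at hgoal
  exact hgoal

end Pool.Agent.T2h55.UP
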