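import Pool.Agent.T2h55.UP.StmB
import Pool.Agent.Y821.ME.Rz2

/-! Project UP (owner helper55), task UPB_RZQB: Riesz products together with quadratic phases, second version. -/

set_option autoImplicit false

open Filter Topology MeasureTheory Finset
open Pool.Agent.Y821.ME

namespace Pool.Agent.T2h55.UP

namespace RZQB

open Pool.Agent.Y821.ME.RZ2

/-- uniform non-divisibility -/
lemma uniform' (p : ℕ) [Fact p.Prime] (SF : Finset ℤ) (ρ : ℤ → ℤ_[p]) (B : ℤ)
    (hρ : ∀ h : ℤ → ℤ, ∑ m ∈ SF, (h m : ℤ_[p]) * ρ m = 0 → ∀ m ∈ SF, h m = 0) :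
    ∃ n0 : ℕ, ∀ h : ℤ → ℤ, (∀ m ∈ SF, |h m| ≤ B) → (∃ m ∈ SF, h m ≠ 0) →
      ¬ ((p : ℤ_[p]) ^ n0 ∣ 2 * ∑ m ∈ SF, (h m : ℤ_[p]) * ρ m) := by
  classical
  let val : (↥SF → ℤ) → ℤ_[p] := fun g => 2 * ∑ m : ↥SF, (g m : ℤ_[p]) * ρ m
  let n : (↥SF → ℤ) → ℕ := fun g =>
    if h : ∃ n, ¬ ((p : ℤ_[p]) ^ n ∣ val g) then h.choose else 0
  have hT : Set.Finite {g : ↥SF → ℤ | ∀ m, g m ∈ Set.Icc (-B : ℤ) B} :=
    Set.Finite.pi' (fun _ => Set.finite_Icc _ _)
  obtain ⟨M, hM⟩ := (hT.image n).bddAbove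
  refine ⟨M, fun h hb hne hd => ?_⟩
  have hval : val (fun m => h m) = 2 * ∑ m ∈ SF, (h m : ℤ_[p]) * ρ m := by
    simp only [val]
    congr 1
    exact Finset.sum_coe_sort SF (fun m => (h m : ℤ_[p]) * ρ m)
  have hv0 : val (fun m => h m) ≠ 0 := by
    rw [hval]
    intro h0
    have h2 : (2 : ℤ_[p]) ≠ 0 := two_ne_zero
    have h1 := (mul_eq_zero.mp h0).resolve_left h2
    obtain ⟨m, hm, hm0⟩ := hne
    exact hm0 (hρ h h1 m hm)
  have hex := exists_not_dvd p _ hv0
  have hn : ¬ ((p : ℤ_[p]) ^ (n (fun m => h m)) ∣ val (fun m => h m)) := by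
    simp only [n]
    rw [dif_pos hex]
    exact hex.choose_spec
  apply hn
  have hle : n (fun m => h m) ≤ M := by
    apply hM
    refine ⟨_, ?_, rfl⟩
    intro m
    have := hb m m.2
    rw [abs_le] at this
    exact this
  rw [hval]
  exact (pow_dvd_pow _ hle).trans hd

/-- expansion of one factor -/
lemma expand (q : ℕ) [NeZero q] (R : ℤ → ZMod q) (ν : ℤ → ℂ) (j : ℤ) {S : Finset ℤ} (hj : j ∉ S)
    (b t : ZMod q) (E : ℂ) :
    (∏ i ∈ insert j S, fac q R ν b i) * (ee q (b * t) * E) =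
      (∏ i ∈ S, fac q R ν b i) * (ee q (b * t) * E) +
      ν j / 2 * ((∏ i ∈ S, fac q R ν b i) * (ee q (b * (t + 2 * R j)) * E)) +
      ν j / 2 * ((∏ i ∈ S, fac q R ν b i) * (ee q (b * (t + -(2 * R j))) * E)) := by
  rw [Finset.prod_insert hj]
  have e1 : b * (t + 2 * R j) = b * t + 2 * b * R j := by ring
  have e2 : b * (t + -(2 * R j)) = b * t + -(2 * b * R j) := by ring
  rw [e1, e2]
  simp only [fac, ee]
  rw [AddChar.map_add_eq_mul, AddChar.map_add_eq_mul]
  ring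

/-- the products with a quadratic phase -/
lemma quad (q : ℕ) [NeZero q] (R : ℤ → ZMod q) (ν : ℤ → ℂ) (hν : ∀ j, ‖ν j‖ ≤ 1) (E : (ZMod q)ˣ → ℂ) (B : ℝ)
    (hB : ∀ t : ZMod q, ‖∑ b : (ZMod q)ˣ, ee q ((b : ZMod q) * t) * E b‖ ≤ B) (S : Finset ℤ) :
    ∀ t : ZMod q, ‖∑ b : (ZMod q)ˣ, (∏ i ∈ S, fac q R ν (b : ZMod q) i) * (ee q ((b : ZMod q) * t) * E b)‖ ≤
      2 ^ S.card * B := by
  classical
  induction S using Finset.induction_on with
  | empty =>
    intro t
    simp only [Finset.prod_empty, one_mul, Finset.card_empty, pow_zero]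
    exact hB t
  | insert j S hj ih =>
    intro t
    rw [Finset.sum_congr rfl fun (b : (ZMod q)ˣ) _ => expand q R ν j hj (b : ZMod q) t (E b), Finset.sum_add_distrib,
      Finset.sum_add_distrib, ← Finset.mul_sum, ← Finset.mul_sum, Finset.card_insert_of_notMem hj]
    have h1 : ‖ν j / 2‖ ≤ 1 / 2 := by
      rw [norm_div, Complex.norm_ofNat]
      exact div_le_div_of_nonneg_right (hν j) (by norm_num)
    have h2 : ∀ t' : ZMod q, ‖ν j / 2 * ∑ b : (ZMod q)ˣ, (∏ i ∈ S, fac q R ν (b : ZMod q) i) *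
        (ee q ((b : ZMod q) * t') * E b)‖ ≤ 1 / 2 * (2 ^ S.card * B) := by
      intro t'
      rw [norm_mul]
      exact mul_le_mul h1 (ih t') (norm_nonneg _) (by norm_num)
    have h3 := norm_add₃_le (a := ∑ b : (ZMod q)ˣ, (∏ i ∈ S, fac q R ν (b : ZMod q) i) *
        (ee q ((b : ZMod q) * t) * E b))
      (b := ν j / 2 * ∑ b : (ZMod q)ˣ, (∏ i ∈ S, fac q R ν (b : ZMod q) i) *
        (ee q ((b : ZMod q) * (t + 2 * R j)) * E b))
      (c := ν j / 2 * ∑ b : (ZMod q)ˣ, (∏ i ∈ S, fac q R ν (b : ZMod q) i) *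
        (ee q ((b : ZMod q) * (t + -(2 * R j))) * E b))
    refine h3.trans ?_
    have h4 := ih t
    have h5 := h2 (t + 2 * R j)
    have h6 := h2 (t + -(2 * R j))
    have h7 : (2 : ℝ) ^ (S.card + 1) * B = 2 ^ S.card * B + 1 / 2 * (2 ^ S.card * B) +
        1 / 2 * (2 ^ S.card * B) := by
      rw [pow_succ]
      ring
    rw [h7]
    linarith

/-- other frequencies -/
lemma vanish (p l : ℕ) [Fact p.Prime] (R : ℤ → ZMod (p ^ (2 * l))) (ν : ℤ → ℂ) (S : Finset ℤ) :
    ∀ t : ZMod (p ^ (2 * l)), (∀ h : ℤ → ℤ, (∀ j ∈ S, |h j| ≤ 1) →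
      (p : ZMod (p ^ (2 * l))) * (t + 2 * ∑ j ∈ S, (h j : ZMod (p ^ (2 * l))) * R j) ≠ 0) →
    ∑ b : (ZMod (p ^ (2 * l)))ˣ, (∏ j ∈ S, fac (p ^ (2 * l)) R ν (b : ZMod (p ^ (2 * l))) j) *
      (ee (p ^ (2 * l)) ((b : ZMod (p ^ (2 * l))) * t) * 1) = 0 := by
  classical
  induction S using Finset.induction_on with
  | empty =>
    intro t ht
    have h1 := ht (fun _ => 0) (fun j hj => absurd hj (Finset.notMem_empty j))
    rw [Finset.sum_empty, mul_zero, add_zero] at h1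
    simp only [Finset.prod_empty, one_mul, mul_one]
    exact sum_units_eq_zero p l t h1
  | insert j S hj ih =>
    intro t ht
    have key : ∀ e : ℤ, |e| ≤ 1 → ∀ h : ℤ → ℤ, (∀ i ∈ S, |h i| ≤ 1) →
        (p : ZMod (p ^ (2 * l))) * (t + 2 * ((e : ZMod (p ^ (2 * l))) * R j) +
          2 * ∑ i ∈ S, (h i : ZMod (p ^ (2 * l))) * R i) ≠ 0 := by
      intro e he h hh
      have h1 := ht (Function.update h j e) ?_
      · rw [Finset.sum_insert hj, Function.update_self] at h1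
        have h2 : ∑ x ∈ S, ((Function.update h j e) x : ZMod (p ^ (2 * l))) * R x =
            ∑ x ∈ S, (h x : ZMod (p ^ (2 * l))) * R x := by
          refine Finset.sum_congr rfl fun x hx => ?_
          have hxj : x ≠ j := fun h3 => hj (h3 ▸ hx)
          rw [Function.update_of_ne hxj]
        rw [h2] at h1
        intro h3
        apply h1
        rw [← h3]
        ring
      · intro i hi
        by_cases hij : i = j
        · rw [hij, Function.update_self]
          exact he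
        · rw [Function.update_of_ne hij]
          exact hh i ((Finset.mem_insert.1 hi).resolve_left hij)
    rw [Finset.sum_congr rfl fun (b : (ZMod (p ^ (2 * l)))ˣ) _ => expand (p ^ (2 * l)) R ν j hj (b : ZMod (p ^ (2 * l))) t 1,
      Finset.sum_add_distrib, Finset.sum_add_distrib, ← Finset.mul_sum, ← Finset.mul_sum]
    have h0 := ih t (fun h hh => by
      have h1 := key 0 (by norm_num) h hh
      rw [Int.cast_zero, zero_mul, mul_zero, add_zero] at h1
      exact h1)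
    have h1 := ih (t + 2 * R j) (fun h hh => by
      have h1 := key 1 (by norm_num) h hh
      rw [Int.cast_one, one_mul] at h1
      exact h1)
    have h2 := ih (t + -(2 * R j)) (fun h hh => by
      have h1 := key (-1) (by norm_num) h hh
      rw [Int.cast_neg, Int.cast_one, neg_mul, one_mul, mul_neg] at h1
      exact h1)
    rw [h0, h1, h2]
    ring

/-- a common exponent for the integers in `K` -/
lemma expo (p : ℕ) (hp : 2 ≤ p) (K : Finset ℤ) (hK : 0 ∉ K) :
    ∃ v : ℕ, ∀ k ∈ K, ¬ (p : ℤ) ^ (v + 1) ∣ k := by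
  refine ⟨∑ k ∈ K, k.natAbs, fun k hk hd => ?_⟩
  have hk0 : k ≠ 0 := fun h => hK (h ▸ hk)
  have h1 : k.natAbs ≤ ∑ k ∈ K, k.natAbs := Finset.single_le_sum (f := fun k : ℤ => k.natAbs)
    (fun _ _ => Nat.zero_le _) hk
  have h2 := Int.natAbs_dvd_natAbs.2 hd
  rw [Int.natAbs_pow, Int.natAbs_natCast] at h2
  have h3 := Nat.le_of_dvd (Int.natAbs_pos.2 hk0) h2
  have h4 : (∑ k ∈ K, k.natAbs) + 1 < p ^ ((∑ k ∈ K, k.natAbs) + 1) := Nat.lt_pow_self hp
  omega

end RZQB

open RZQB Pool.Agent.Y821.ME.RZ2 in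
theorem rzqb (hli : S_LI2) (hqs : S_QS) : S_RZQB := by
  classical
  intro Y Y' p hpf hp2 hYY S hS K hK0 δ hδ
  have hpp : p.Prime := hpf.out
  have hp3 : 3 ≤ p := by
    have := hpp.two_le
    omega
  obtain ⟨ρ, hρ1, hρ2⟩ := hli Y' p hp2
  have hsub : Gs Y p ⊆ Gs Y' p := by
    intro g hg
    simp only [Gs, Finset.mem_filter, Finset.mem_Icc] at hg ⊢
    have : (Y : ℤ) ≤ Y' := by exact_mod_cast hYY
    exact ⟨⟨by linarith [hg.1.1], by linarith [hg.1.2]⟩, hg.2⟩
  obtain ⟨SF, hSF⟩ : ∃ SF, SF = Gs Y' p := ⟨_, rfl⟩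
  rw [← hSF] at hρ1 hρ2 hsub ⊢
  obtain ⟨n0, hn0⟩ := uniform' p SF ρ ((p : ℤ) + 1) hρ2
  obtain ⟨v, hv⟩ := expo p hpp.two_le K hK0
  obtain ⟨l1, hl1'⟩ : ∃ l1 : ℕ, 2 ^ S.card * (p : ℝ) ^ (v + 1) / δ < (p : ℝ) ^ l1 :=
    pow_unbounded_of_one_lt _ (by
      have : (3 : ℝ) ≤ p := by exact_mod_cast hp3
      linarith)
  refine ⟨n0 + v + l1 + 2, by omega, ?_⟩
  intro l hl0
  have hl1 : 1 ≤ l := by omega
  have hl2 : n0 ≤ 2 * l - 1 := by omega
  have hm1 : ∀ m ∈ SF, (m : ZMod (p ^ (2 * l))) * (PadicInt.toZModPow (2 * l) (ρ m)) ^ 2 = 1 := by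
    intro m h1
    have := congrArg (PadicInt.toZModPow (p := p) (2 * l)) (hρ1 m h1)
    rw [map_mul, map_pow, map_intCast, map_one] at this
    exact this
  let r : ℤ → (ZMod (p ^ (2 * l)))ˣ := fun m =>
    if h : IsUnit (PadicInt.toZModPow (p := p) (2 * l) (ρ m)) then h.unit else 1
  have hr : ∀ m ∈ SF, ((r m : (ZMod (p ^ (2 * l)))ˣ) : ZMod (p ^ (2 * l))) = PadicInt.toZModPow (2 * l) (ρ m) := by
    intro m h1
    have hu : IsUnit (PadicInt.toZModPow (p := p) (2 * l) (ρ m)) := by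
      have := hm1 m h1
      apply IsUnit.of_mul_eq_one ((m : ZMod (p ^ (2 * l))) * PadicInt.toZModPow (2 * l) (ρ m))
      rw [← this]; ring
    simp only [r]
    rw [dif_pos hu]
    rfl
  refine ⟨r, fun m h1 => by rw [hr m h1]; exact hm1 m h1, ?_⟩
  set R : ℤ → ZMod (p ^ (2 * l)) := fun m => ((r m : (ZMod (p ^ (2 * l)))ˣ) : ZMod (p ^ (2 * l))) with hRdef
  have hR : ∀ h : ℤ → ℤ, (∀ m ∈ SF, |h m| ≤ (p : ℤ) + 1) → (∃ m ∈ SF, h m ≠ 0) →
      (p : ZMod (p ^ (2 * l))) * (2 * ∑ m ∈ SF, (h m : ZMod (p ^ (2 * l))) * R m) ≠ 0 := by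
    intro h hb hne h0
    apply hn0 h hb hne
    have h1 : (2 * ∑ m ∈ SF, (h m : ZMod (p ^ (2 * l))) * R m) =
        PadicInt.toZModPow (2 * l) (2 * ∑ m ∈ SF, (h m : ℤ_[p]) * ρ m) := by
      rw [map_mul, map_sum, map_ofNat]
      congr 1
      apply Finset.sum_congr rfl
      intro m hm
      rw [map_mul, map_intCast, ← hr m hm]
    rw [h1] at h0
    exact (pow_dvd_pow _ hl2).trans (dvd_of_mul_eq_zero p l hl1 _ h0)
  let ν : ℤ → ℂ := fun m => ((ArithmeticFunction.moebius m.natAbs : ℤ) : ℂ)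
  have hν : ∀ j, ‖ν j‖ ≤ 1 := by
    intro j
    have h2 : |((ArithmeticFunction.moebius j.natAbs : ℤ) : ℝ)| ≤ 1 := by
      exact_mod_cast ArithmeticFunction.abs_moebius_le_one (n := j.natAbs)
    show ‖((ArithmeticFunction.moebius j.natAbs : ℤ) : ℂ)‖ ≤ 1
    rw [Complex.norm_intCast]
    exact h2
  have hSsub : S ⊆ SF := hS.trans hsub
  have hri := riesz p l SF R ν (fun h hh => hR h fun m hm => (hh m hm).trans (by
    have : (3 : ℤ) ≤ p := by exact_mod_cast hp3
    linarith)) S hSsub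
  have hcard : (0 : ℝ) < (Fintype.card (ZMod (p ^ (2 * l)))ˣ : ℝ) := by
    exact_mod_cast Fintype.card_pos
  have hcardC : (Fintype.card (ZMod (p ^ (2 * l)))ˣ : ℂ) ≠ 0 := by
    have : Fintype.card (ZMod (p ^ (2 * l)))ˣ ≠ 0 := Fintype.card_ne_zero
    exact_mod_cast this
  let w : (ZMod (p ^ (2 * l)))ˣ → ℝ := fun b => (Fintype.card (ZMod (p ^ (2 * l)))ˣ : ℝ)⁻¹ *
    ∏ j ∈ S, (1 + ((ArithmeticFunction.moebius j.natAbs : ℤ) : ℝ) * (ee (p ^ (2 * l)) (2 * (b : ZMod (p ^ (2 * l))) * r j)).re)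
  have hconj : ∀ x : ZMod (p ^ (2 * l)), ee (p ^ (2 * l)) x + ee (p ^ (2 * l)) (-x) = 2 * ((ee (p ^ (2 * l)) x).re : ℂ) := by
    intro x
    have : ee (p ^ (2 * l)) (-x) = (starRingEnd ℂ) (ee (p ^ (2 * l)) x) := by
      simp only [ee]
      exact AddChar.map_neg_eq_conj _ _
    rw [this, Complex.add_conj]
    push_cast
    ring
  have hnorm : ∀ x : ZMod (p ^ (2 * l)), |(ee (p ^ (2 * l)) x).re| ≤ 1 := by
    intro x
    refine (Complex.abs_re_le_norm _).trans ?_
    simp only [ee]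
    rw [AddChar.norm_apply]
  have hwC : ∀ b, (w b : ℂ) = (Fintype.card (ZMod (p ^ (2 * l)))ˣ : ℂ)⁻¹ *
      ∏ j ∈ S, fac (p ^ (2 * l)) R ν (b : ZMod (p ^ (2 * l))) j := by
    intro b
    simp only [w]
    push_cast
    congr 1
    apply Finset.prod_congr rfl
    intro j _
    simp only [fac, hconj, ν, R]
    ring
  -- the sums with the weights
  have hsum : ∀ E : (ZMod (p ^ (2 * l)))ˣ → ℂ, ∑ b, (w b : ℂ) * E b =
      (Fintype.card (ZMod (p ^ (2 * l)))ˣ : ℂ)⁻¹ *
        ∑ b : (ZMod (p ^ (2 * l)))ˣ, (∏ j ∈ S, fac (p ^ (2 * l)) R ν (b : ZMod (p ^ (2 * l))) j) * E b := by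
    intro E
    rw [Finset.mul_sum (s := (Finset.univ : Finset (ZMod (p ^ (2 * l)))ˣ))]
    refine Finset.sum_congr rfl fun b _ => ?_
    rw [hwC, mul_assoc]
  have hmain : ∀ g : ℤ → ℤ, (∀ m ∈ SF, |g m| ≤ 1) →
      ∑ b : (ZMod (p ^ (2 * l)))ˣ, (w b : ℂ) *
        ee (p ^ (2 * l)) ((b : ZMod (p ^ (2 * l))) * (2 * ∑ m ∈ SF, (g m : ZMod (p ^ (2 * l))) * R m)) =
      ∏ m ∈ SF, cc ν S m (g m) := by
    intro g hg
    have h1 := hri g (fun m hm => (hg m hm).trans (by norm_num)) (fun m hm => hg m (hSsub hm))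
    rw [hsum, h1, ← mul_assoc, inv_mul_cancel₀ hcardC, one_mul]
  refine ⟨w, ?_, ?_, ?_, ?_, ?_⟩
  · intro b
    apply mul_nonneg (inv_nonneg.mpr hcard.le)
    apply Finset.prod_nonneg
    intro j _
    have h1 := hnorm (2 * (b : ZMod (p ^ (2 * l))) * r j)
    have h2 : |((ArithmeticFunction.moebius j.natAbs : ℤ) : ℝ)| ≤ 1 := by
      exact_mod_cast ArithmeticFunction.abs_moebius_le_one (n := j.natAbs)
    have h3 : |((ArithmeticFunction.moebius j.natAbs : ℤ) : ℝ) * (ee (p ^ (2 * l)) (2 * (b : ZMod (p ^ (2 * l))) * r j)).re| ≤ 1 := by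
      rw [abs_mul]
      calc _ ≤ 1 * 1 := mul_le_mul h2 h1 (abs_nonneg _) zero_le_one
        _ = 1 := by norm_num
    linarith [(abs_le.mp h3).1]
  · have h1 := hmain (fun _ => 0) (fun m _ => by norm_num)
    have h2 : ∏ m ∈ SF, cc ν S m ((fun _ => (0 : ℤ)) m) = 1 := by
      apply Finset.prod_eq_one
      intro m _
      simp [cc]
    rw [h2] at h1
    have h3 : ((∑ b, w b : ℝ) : ℂ) = 1 := by
      rw [← h1]
      push_cast
      apply Finset.sum_congr rfl
      intro b _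
      simp [ee]
    exact_mod_cast h3
  · intro m hm'
    have hm : m ∈ SF := hsub hm'
    let g : ℤ → ℤ := fun j => if j = m then 1 else 0
    have h1 := hmain g (fun j _ => by simp only [g]; split_ifs <;> norm_num)
    have h2 : ∏ j ∈ SF, cc ν S j (g j) = cc ν S m 1 := by
      rw [← Finset.mul_prod_erase SF _ hm]
      have : ∏ j ∈ SF.erase m, cc ν S j (g j) = 1 := by
        apply Finset.prod_eq_one
        intro j hj
        simp only [g, if_neg (Finset.ne_of_mem_erase hj)]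
        simp [cc]
      rw [this, mul_one]
      simp [g]
    have h3 : ∑ j ∈ SF, (g j : ZMod (p ^ (2 * l))) * R j = R m := by
      rw [← Finset.add_sum_erase SF _ hm]
      have : ∑ j ∈ SF.erase m, (g j : ZMod (p ^ (2 * l))) * R j = 0 := by
        apply Finset.sum_eq_zero
        intro j hj
        simp only [g, if_neg (Finset.ne_of_mem_erase hj)]
        simp
      rw [this, add_zero]
      simp [g]
    rw [h2, h3] at h1
    have h4 : ∑ b, (w b : ℂ) * ee (p ^ (2 * l)) (2 * (b : ZMod (p ^ (2 * l))) * r m) =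
        cc ν S m 1 := by
      rw [← h1]
      apply Finset.sum_congr rfl
      intro b _
      congr 2
      simp only [R]
      ring
    rw [h4]
    simp only [cc, ν]
    by_cases hmS : m ∈ S
    · simp only [hmS, if_true]
      norm_num
    · simp [hmS]
  · intro k hk t
    rw [hsum (fun b => ee (p ^ (2 * l)) ((b : ZMod (p ^ (2 * l))) * t) *
      ee (p ^ (2 * l)) ((k : ZMod (p ^ (2 * l))) * (b : ZMod (p ^ (2 * l))) ^ 2)), norm_mul, norm_inv,
      Complex.norm_natCast]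
    have h1 := quad (p ^ (2 * l)) R ν hν
      (fun b => ee (p ^ (2 * l)) ((k : ZMod (p ^ (2 * l))) * (b : ZMod (p ^ (2 * l))) ^ 2))
      ((p : ℝ) ^ (l + v)) (fun t => hqs p l v hpp hp2 (by omega) k (hv k hk) t) S t
    have hp0 : (0 : ℝ) < p := by exact_mod_cast hpp.pos
    have h2 : (p : ℝ) ^ (2 * l - 1) ≤ (Fintype.card (ZMod (p ^ (2 * l)))ˣ : ℝ) := by
      rw [ZMod.card_units_eq_totient, Nat.totient_prime_pow hpp (by omega)]
      have h3 : p ^ (2 * l - 1) ≤ p ^ (2 * l - 1) * (p - 1) := Nat.le_mul_of_pos_right _ (by omega)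
      exact_mod_cast h3
    have h3 : (p : ℝ) ^ (l + v) * (p : ℝ) ^ l = (p : ℝ) ^ (v + 1) * (p : ℝ) ^ (2 * l - 1) := by
      rw [← pow_add, ← pow_add]
      congr 1
      omega
    have h4 : 2 ^ S.card * (p : ℝ) ^ (v + 1) ≤ δ * (p : ℝ) ^ l := by
      rw [div_lt_iff₀ hδ] at hl1'
      have h5 : (p : ℝ) ^ l1 ≤ (p : ℝ) ^ l := pow_le_pow_right₀ (by exact_mod_cast hpp.one_le) (by omega)
      have h6 := mul_le_mul_of_nonneg_left h5 hδ.le
      linarith
    rw [inv_mul_le_iff₀ hcard]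
    refine h1.trans ?_
    have hpl : 0 < (p : ℝ) ^ l := pow_pos hp0 l
    have hp2l : 0 < (p : ℝ) ^ (2 * l - 1) := pow_pos hp0 _
    have h5 : 2 ^ S.card * (p : ℝ) ^ (l + v) * (p : ℝ) ^ l ≤ δ * (p : ℝ) ^ (2 * l - 1) * (p : ℝ) ^ l := by
      rw [mul_assoc, h3, ← mul_assoc]
      have := mul_le_mul_of_nonneg_right h4 hp2l.le
      linarith
    have h6 := le_of_mul_le_mul_right h5 hpl
    refine h6.trans ?_
    rw [mul_comm]
    exact mul_le_mul_of_nonneg_right h2 hδ.le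
  · intro g hg t ht
    have h1 : ∑ b : (ZMod (p ^ (2 * l)))ˣ, (w b : ℂ) * ee (p ^ (2 * l)) ((b : ZMod (p ^ (2 * l))) * t) =
        ∑ b : (ZMod (p ^ (2 * l)))ˣ, (w b : ℂ) * (ee (p ^ (2 * l)) ((b : ZMod (p ^ (2 * l))) * t) * 1) :=
      Finset.sum_congr rfl fun b _ => by rw [mul_one]
    rw [h1, hsum (fun b => ee (p ^ (2 * l)) ((b : ZMod (p ^ (2 * l))) * t) * 1), vanish p l R ν S t ?_, mul_zero]
    intro h hh
    -- the combination
    have key : ∀ s : ℤ, |s| = 1 → (p : ZMod (p ^ (2 * l))) * t =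
        (s : ZMod (p ^ (2 * l))) * (2 * (p : ZMod (p ^ (2 * l))) ^ 2 * r g) →
        (p : ZMod (p ^ (2 * l))) * (t + 2 * ∑ j ∈ S, (h j : ZMod (p ^ (2 * l))) * R j) ≠ 0 := by
      intro s hs hst
      have h2 := hR (fun m => (if m ∈ S then h m else 0) + if m = g then s * p else 0) ?_ ?_
      · have h3 : ∑ m ∈ SF, (((if m ∈ S then h m else 0) + if m = g then s * p else 0 : ℤ) :
            ZMod (p ^ (2 * l))) * R m = ∑ j ∈ S, (h j : ZMod (p ^ (2 * l))) * R j + s * p * R g := by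
          have h4 : ∀ m ∈ SF, (((if m ∈ S then h m else 0) + if m = g then s * p else 0 : ℤ) :
              ZMod (p ^ (2 * l))) * R m = (if m ∈ S then (h m : ZMod (p ^ (2 * l))) * R m else 0) +
              if m = g then (s : ZMod (p ^ (2 * l))) * p * R m else 0 := by
            intro m _
            split_ifs <;> push_cast <;> ring
          rw [Finset.sum_congr rfl h4, Finset.sum_add_distrib, Finset.sum_ite_mem,
            Finset.inter_eq_right.2 hSsub, Finset.sum_ite_eq' SF g, if_pos hg]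
        rw [h3] at h2
        intro h5
        apply h2
        rw [← h5, mul_add _ t, hst]
        ring
      · intro m _
        have h4 : |if m ∈ S then h m else 0| ≤ 1 := by
          split_ifs with h5
          · exact hh m h5
          · norm_num
        have h5 : |if m = g then s * (p : ℤ) else 0| ≤ p := by
          split_ifs
          · rw [abs_mul, hs, one_mul, abs_of_nonneg (Int.natCast_nonneg p)]
          · rw [abs_zero]
            exact Int.natCast_nonneg p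
        refine (abs_add_le _ _).trans ?_
        linarith
      · refine ⟨g, hg, ?_⟩
        have h4 : |if g ∈ S then h g else 0| ≤ 1 := by
          split_ifs with h5
          · exact hh g h5
          · norm_num
        show (if g ∈ S then h g else 0) + (if g = g then s * (p : ℤ) else 0) ≠ 0
        rw [if_pos rfl]
        have hp3' : (3 : ℤ) ≤ p := by exact_mod_cast hp3
        rw [abs_le] at h4
        rcases (abs_eq (by norm_num)).1 hs with h5 | h5
        · rw [h5]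
          intro h6
          linarith
        · rw [h5]
          intro h6
          linarith
    rcases ht with h2 | h2
    · exact key 1 (by norm_num) (by rw [h2, Int.cast_one, one_mul])
    · exact key (-1) (by norm_num) (by rw [h2, Int.cast_neg, Int.cast_one, neg_mul, one_mul])

end Pool.Agent.T2h55.UP
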