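import Pool.Agent.T2h55.UP.StmB

/-! Task SH of project UP, part B: rescaling. -/

set_option autoImplicit false

open Filter Topology MeasureTheory Finset
open Pool.Agent.Y821.ME

namespace Pool.Agent.T2h55.UP

theorem sh : S_SH := by
  intro lam p hp M u
  have hp' : (0 : ℝ) < p := Nat.cast_pos.mpr hp
  have hexp : Real.exp (lam - Real.log p / 2 - (u - 3 / 2 * Real.log p)) = p * Real.exp (lam - u) := by
    rw [show lam - Real.log p / 2 - (u - 3 / 2 * Real.log p) = Real.log p + (lam - u) by ring, Real.exp_add,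
      Real.exp_log hp']
  have h1 : ∫ v in Set.Ioi (0 : ℝ), M (v / p) * (th1 (v * Real.exp (lam - u)) / v : ℝ) =
      ∫ v in Set.Ioi (0 : ℝ), M v * (th1 (v * Real.exp (lam - Real.log p / 2 - (u - 3 / 2 * Real.log p))) / v : ℝ) := by
    have h2 := MeasureTheory.integral_comp_mul_left_Ioi
      (fun v : ℝ => M (v / p) * (th1 (v * Real.exp (lam - u)) / v : ℝ)) (0 : ℝ) hp'
    rw [mul_zero] at h2
    have h3 : ∫ v in Set.Ioi (0 : ℝ), M (v / p) * (th1 (v * Real.exp (lam - u)) / v : ℝ) =
        (p : ℝ) • ∫ x in Set.Ioi (0 : ℝ), M (p * x / p) * (th1 (p * x * Real.exp (lam - u)) / (p * x) : ℝ) := by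
      rw [h2, smul_smul, mul_inv_cancel₀ hp'.ne', one_smul]
    rw [h3, ← integral_smul]
    refine setIntegral_congr_fun measurableSet_Ioi fun x hx => ?_
    have hx' : (0 : ℝ) < x := hx
    rw [hexp, mul_div_cancel_left₀ x hp'.ne', Complex.real_smul]
    have e1 : (p : ℝ) * x * Real.exp (lam - u) = x * (p * Real.exp (lam - u)) := by ring
    rw [e1]
    have e2 : th1 (x * (p * Real.exp (lam - u))) / x =
        p * (th1 (x * (p * Real.exp (lam - u))) / (p * x)) := by
      field_simp
    rw [e2]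
    push_cast
    ring
  unfold aF
  rw [h1, ← mul_assoc]
  congr 1
  unfold kap
  rw [← Complex.ofReal_mul, ← Real.exp_add]
  congr 2
  ring

end Pool.Agent.T2h55.UP
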