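import Pool.Agent.T2h55.UP.Stm

/-! # Baire category and pigeonhole -/

set_option autoImplicit false

open Filter Topology MeasureTheory Finset
open Pool.Agent.Y821.ME

namespace Pool.Agent.T2h55.UP

namespace Fn

theorem cont_F (R : ℕ) : Continuous (F R) := by
  unfold F
  fun_prop

/-- the open sets -/
def V (p m : ℕ) : Set ℝ :=
  {x | ∃ R : ℕ, m ≤ R ∧ ∃ j : ℕ, j < p ∧ (m : ℝ) * Real.sqrt R < ‖F R (x + j / p)‖}

theorem V_open (p m : ℕ) : IsOpen (V p m) := by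
  have h1 : V p m = ⋃ R : ℕ, ⋃ _ : m ≤ R, ⋃ j : ℕ, ⋃ _ : j < p,
      {x : ℝ | (m : ℝ) * Real.sqrt R < ‖F R (x + j / p)‖} := by
    ext x
    simp only [V, Set.mem_ofPred_eq, Set.mem_iUnion, exists_prop]
  rw [h1]
  refine isOpen_iUnion fun R => isOpen_iUnion fun _ => isOpen_iUnion fun j => isOpen_iUnion fun _ => ?_
  exact isOpen_lt continuous_const ((cont_F R).comp (by fun_prop)).norm

theorem not_big {x : ℝ} (h : ¬ Big x) :
    ∃ C : ℝ, ∀ᶠ R : ℕ in atTop, ‖F R x‖ ≤ C * Real.sqrt R := by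
  unfold Big at h
  rw [not_forall] at h
  obtain ⟨C, hC⟩ := h
  refine ⟨C, ?_⟩
  rw [not_frequently] at hC
  filter_upwards [hC] with R hR
  exact not_lt.1 hR

theorem V_dense (h : S_MAIN) {p : ℕ} (hp : p.Prime) (hp2 : p ≠ 2)
    (hn : ∀ a k : ℕ, ¬ Big ((a : ℝ) / (p : ℝ) ^ k)) (m : ℕ) : Dense (V p m) := by
  by_contra hd
  have hd' : interior (V p m)ᶜ ≠ ∅ := fun h0 => hd (by
    have h7 := interior_eq_empty_iff_dense_compl.1 h0
    rwa [compl_compl] at h7)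
  obtain ⟨x, hx⟩ := Set.nonempty_iff_ne_empty.2 hd'
  have h1 : interior (V p m)ᶜ ∈ 𝓝 x := isOpen_interior.mem_nhds hx
  obtain ⟨α, β, ⟨h2, h3⟩, h4⟩ := mem_nhds_iff_exists_Ioo_subset.1 h1
  refine h p hp hp2 m α β m (Nat.cast_nonneg _) (h2.trans h3) ?_ fun a k => not_big (hn a k)
  intro y hy R hR j hj
  have h5 : y ∉ V p m := interior_subset (h4 hy)
  by_contra hcon
  exact h5 ⟨R, hR, j, hj, not_le.1 hcon⟩

/-- pigeonhole -/
theorem big_of_mem {p : ℕ} {x : ℝ} (hx : ∀ m, x ∈ V p m) : ∃ j : ℕ, j < p ∧ Big (x + j / p) := by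
  by_contra hcon
  push Not at hcon
  have h1 : ∀ j : ℕ, ∃ C : ℝ, ∃ N : ℕ, j < p → ∀ R : ℕ, N ≤ R →
      ‖F R (x + j / p)‖ ≤ C * Real.sqrt R := by
    intro j
    by_cases hj : j < p
    · obtain ⟨C, hC⟩ := not_big (hcon j hj)
      obtain ⟨N, hN⟩ := eventually_atTop.1 hC
      exact ⟨C, N, fun _ => hN⟩
    · exact ⟨0, 0, fun h => absurd h hj⟩
  choose C N hCN using h1
  obtain ⟨m, hm⟩ : ∃ m : ℕ, ∀ j ∈ range p, C j ≤ m ∧ N j ≤ m := by
    obtain ⟨A, hA⟩ := exists_nat_ge (∑ j ∈ range p, |C j|)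
    refine ⟨A + ∑ j ∈ range p, N j, fun j hj => ⟨?_, ?_⟩⟩
    · have h2 : |C j| ≤ ∑ j ∈ range p, |C j| :=
        Finset.single_le_sum (f := fun j => |C j|) (fun i _ => abs_nonneg _) hj
      have h3 : (0 : ℝ) ≤ ((∑ j ∈ range p, N j : ℕ) : ℝ) := Nat.cast_nonneg _
      push_cast at h3 ⊢
      linarith [le_abs_self (C j)]
    · have h2 : N j ≤ ∑ j ∈ range p, N j :=
        Finset.single_le_sum (f := fun j => N j) (fun i _ => Nat.zero_le _) hj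
      omega
  obtain ⟨R, hR, j, hj, h2⟩ := hx m
  obtain ⟨h3, h4⟩ := hm j (mem_range.2 hj)
  have h5 := hCN j hj R (h4.trans hR)
  have h6 : C j * Real.sqrt R ≤ m * Real.sqrt R := mul_le_mul_of_nonneg_right h3 (Real.sqrt_nonneg _)
  linarith

theorem residual_V (h : S_MAIN) {p : ℕ} (hp : p.Prime) (hp2 : p ≠ 2)
    (hn : ∀ a k : ℕ, ¬ Big ((a : ℝ) / (p : ℝ) ^ k)) :
    ∀ᶠ x in residual ℝ, ∃ j : ℕ, j < p ∧ Big (x + j / p) := by
  have h1 : ∀ᶠ x in residual ℝ, ∀ m : ℕ, x ∈ V p m :=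
    eventually_countable_forall.2 fun m => residual_of_dense_open (V_open p m)
      (V_dense h hp hp2 hn m)
  exact h1.mono fun x hx => big_of_mem hx

end Fn

open Fn

theorem fin (h : S_MAIN) : S_FIN := by
  have hb : ∀ p : ℕ, p.Prime → p ≠ 2 →
      (∃ a k : ℕ, Big ((a : ℝ) / (p : ℝ) ^ k)) ∨ ∀ᶠ x in residual ℝ, ∃ j : ℕ, j < p ∧ Big (x + j / p) := by
    intro p hp hp2
    by_cases hn : ∃ a k : ℕ, Big ((a : ℝ) / (p : ℝ) ^ k)
    · exact Or.inl hn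
    · push Not at hn
      exact Or.inr (residual_V h hp hp2 hn)
  refine ⟨?_, hb⟩
  rcases hb 3 Nat.prime_three (by norm_num) with ⟨a, k, h1⟩ | h1
  · exact ⟨_, h1⟩
  · obtain ⟨x, j, -, hx⟩ := (dense_of_mem_residual h1).nonempty
    exact ⟨_, hx⟩

end Pool.Agent.T2h55.UP
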