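import Pool.Agent.T2h55.UP.Fin

/-! # Baire category and pigeonhole, second version -/

set_option autoImplicit false

open Filter Topology MeasureTheory Finset
open Pool.Agent.Y821.ME

namespace Pool.Agent.T2h55.UP

open Fn

/-- the second form of the main theorem -/
def S_MAIN2 : Prop := ∀ p : ℕ, p.Prime → p ≠ 2 → ∀ (C α β : ℝ) (R₀ : ℕ), 0 ≤ C → α < β →
  (∀ x ∈ Set.Ioo α β, ∀ R : ℕ, R₀ ≤ R → ∀ j : ℕ, j < p → ‖F R (x + j / p)‖ ≤ C * Real.sqrt R) →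
  ∃ l₀ : ℕ, ∀ l : ℕ, l₀ ≤ l → ∃ a : ℕ, ¬ p ∣ a ∧ Big ((a : ℝ) / (p : ℝ) ^ (2 * l))

theorem V_dense2 (h : S_MAIN2) {p : ℕ} (hp : p.Prime) (hp2 : p ≠ 2)
    (hn : ¬ ∀ᶠ l : ℕ in atTop, ∃ a : ℕ, ¬ p ∣ a ∧ Big ((a : ℝ) / (p : ℝ) ^ (2 * l))) (m : ℕ) :
    Dense (V p m) := by
  by_contra hd
  have hd' : interior (V p m)ᶜ ≠ ∅ := fun h0 => hd (by
    have h7 := interior_eq_empty_iff_dense_compl.1 h0
    rwa [compl_compl] at h7)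
  obtain ⟨x, hx⟩ := Set.nonempty_iff_ne_empty.2 hd'
  have h1 : interior (V p m)ᶜ ∈ 𝓝 x := isOpen_interior.mem_nhds hx
  obtain ⟨α, β, ⟨h2, h3⟩, h4⟩ := mem_nhds_iff_exists_Ioo_subset.1 h1
  apply hn
  refine eventually_atTop.2 (h p hp hp2 m α β m (Nat.cast_nonneg _) (h2.trans h3) ?_)
  intro y hy R hR j hj
  have h5 : y ∉ V p m := interior_subset (h4 hy)
  by_contra hcon
  exact h5 ⟨R, hR, j, hj, not_le.1 hcon⟩

theorem dich (h : S_MAIN2) {p : ℕ} (hp : p.Prime) (hp2 : p ≠ 2) :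
    (∀ᶠ l : ℕ in atTop, ∃ a : ℕ, ¬ p ∣ a ∧ Big ((a : ℝ) / (p : ℝ) ^ (2 * l))) ∨
    ∀ᶠ x in residual ℝ, ∃ j : ℕ, j < p ∧ Big (x + j / p) := by
  by_cases hn : ∀ᶠ l : ℕ in atTop, ∃ a : ℕ, ¬ p ∣ a ∧ Big ((a : ℝ) / (p : ℝ) ^ (2 * l))
  · exact Or.inl hn
  · right
    have h1 : ∀ᶠ x in residual ℝ, ∀ m : ℕ, x ∈ V p m :=
      eventually_countable_forall.2 fun m => residual_of_dense_open (V_open p m)
        (V_dense2 h hp hp2 hn m)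
    exact h1.mono fun x hx => big_of_mem hx

theorem one_point (h : S_MAIN2) : ∃ x : ℝ, Big x := by
  rcases dich h Nat.prime_three (by norm_num) with h1 | h1
  · obtain ⟨l, a, -, hx⟩ := h1.exists
    exact ⟨_, hx⟩
  · obtain ⟨x, j, -, hx⟩ := (dense_of_mem_residual h1).nonempty
    exact ⟨_, hx⟩

end Pool.Agent.T2h55.UP
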