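import Pool.Agent.T2h55.UP.Fin

/-! # Baire category, part B -/

set_option autoImplicit false

open Filter Topology MeasureTheory Finset
open Pool.Agent.Y821.ME

namespace Pool.Agent.T2h55.UP

open Fn

/-- the form of the main theorem in part B -/
def S_MAINB : Prop := ∀ p : ℕ, p.Prime → p ≠ 2 → ∀ (C α β : ℝ) (R₀ : ℕ), 0 ≤ C → α < β →
  (∀ x ∈ Set.Ioo α β, ∀ R : ℕ, R₀ ≤ R → ‖F R x‖ ≤ C * Real.sqrt R) →
  ∃ l₀ : ℕ, ∀ l : ℕ, l₀ ≤ l → ∃ a : ℕ, ¬ p ∣ a ∧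
    (Big ((a : ℝ) / (p : ℝ) ^ (2 * l)) ∨ Big ((a : ℝ) / (p : ℝ) ^ (2 * l - 1)))

/-- the open sets -/
def W (m : ℕ) : Set ℝ := {x | ∃ R : ℕ, m ≤ R ∧ (m : ℝ) * Real.sqrt R < ‖F R x‖}

theorem W_open (m : ℕ) : IsOpen (W m) := by
  have h1 : W m = ⋃ R : ℕ, ⋃ _ : m ≤ R, {x : ℝ | (m : ℝ) * Real.sqrt R < ‖F R x‖} := by
    ext x
    simp only [W, Set.mem_ofPred_eq, Set.mem_iUnion, exists_prop]
  rw [h1]
  refine isOpen_iUnion fun R => isOpen_iUnion fun _ => ?_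
  exact isOpen_lt continuous_const (cont_F R).norm

theorem W_dense (h : S_MAINB) {p : ℕ} (hp : p.Prime) (hp2 : p ≠ 2)
    (hn : ¬ ∀ᶠ l : ℕ in atTop, ∃ a : ℕ, ¬ p ∣ a ∧
      (Big ((a : ℝ) / (p : ℝ) ^ (2 * l)) ∨ Big ((a : ℝ) / (p : ℝ) ^ (2 * l - 1)))) (m : ℕ) :
    Dense (W m) := by
  by_contra hd
  have hd' : interior (W m)ᶜ ≠ ∅ := fun h0 => hd (by
    have h7 := interior_eq_empty_iff_dense_compl.1 h0
    rwa [compl_compl] at h7)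
  obtain ⟨x, hx⟩ := Set.nonempty_iff_ne_empty.2 hd'
  have h1 : interior (W m)ᶜ ∈ 𝓝 x := isOpen_interior.mem_nhds hx
  obtain ⟨α, β, ⟨h2, h3⟩, h4⟩ := mem_nhds_iff_exists_Ioo_subset.1 h1
  apply hn
  refine eventually_atTop.2 (h p hp hp2 m α β m (Nat.cast_nonneg _) (h2.trans h3) ?_)
  intro y hy R hR
  have h5 : y ∉ W m := interior_subset (h4 hy)
  by_contra hcon
  exact h5 ⟨R, hR, not_le.1 hcon⟩

theorem big_of_memW {x : ℝ} (hx : ∀ m, x ∈ W m) : Big x := by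
  intro C
  rw [frequently_atTop]
  intro N
  obtain ⟨A, hA⟩ := exists_nat_ge C
  obtain ⟨R, hR, h2⟩ := hx (A + N)
  refine ⟨R, by omega, ?_⟩
  have h3 : C ≤ ((A + N : ℕ) : ℝ) := by
    push_cast
    linarith [Nat.cast_nonneg (α := ℝ) N]
  exact (mul_le_mul_of_nonneg_right h3 (Real.sqrt_nonneg _)).trans_lt h2

theorem dichB (h : S_MAINB) {p : ℕ} (hp : p.Prime) (hp2 : p ≠ 2) :
    (∀ᶠ l : ℕ in atTop, ∃ a : ℕ, ¬ p ∣ a ∧
      (Big ((a : ℝ) / (p : ℝ) ^ (2 * l)) ∨ Big ((a : ℝ) / (p : ℝ) ^ (2 * l - 1)))) ∨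
    ∀ᶠ x in residual ℝ, Big x := by
  by_cases hn : ∀ᶠ l : ℕ in atTop, ∃ a : ℕ, ¬ p ∣ a ∧
      (Big ((a : ℝ) / (p : ℝ) ^ (2 * l)) ∨ Big ((a : ℝ) / (p : ℝ) ^ (2 * l - 1)))
  · exact Or.inl hn
  · right
    have h1 : ∀ᶠ x in residual ℝ, ∀ m : ℕ, x ∈ W m :=
      eventually_countable_forall.2 fun m => residual_of_dense_open (W_open m) (W_dense h hp hp2 hn m)
    exact h1.mono fun x hx => big_of_memW hx

theorem one_pointB (h : S_MAINB) : ∃ x : ℝ, Big x := by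
  rcases dichB h Nat.prime_three (by norm_num) with h1 | h1
  · obtain ⟨l, a, -, hx | hx⟩ := h1.exists
    · exact ⟨_, hx⟩
    · exact ⟨_, hx⟩
  · obtain ⟨x, hx⟩ := (dense_of_mem_residual h1).nonempty
    exact ⟨_, hx⟩

end Pool.Agent.T2h55.UP
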