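import Pool.Agent.T2h55.UP.Stm

/-! Task HQ of project UP: from bounds with constants depending on the point to `HypQ`. -/

set_option autoImplicit false

open Filter Topology MeasureTheory Finset
open Pool.Agent.Y821.ME

namespace Pool.Agent.T2h55.UP

namespace UP_HQ

theorem F_add_nat (R : ℕ) (x : ℝ) (m : ℕ) : F R (x + m) = F R x := by
  unfold F
  refine Finset.sum_congr rfl fun n _ => ?_
  congr 1
  have e : 2 * (Real.pi : ℂ) * Complex.I * n * ((x + m : ℝ) : ℂ) =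
      2 * Real.pi * Complex.I * n * (x : ℂ) + ((n * m : ℕ) : ℂ) * (2 * Real.pi * Complex.I) := by
    push_cast
    ring
  rw [e, Complex.exp_add, Complex.exp_nat_mul_two_pi_mul_I, mul_one]

end UP_HQ

theorem hq : S_HQ := by
  intro p k hp h
  choose Cf hCf using h
  refine ⟨∑ r ∈ range (p ^ k), |Cf r|, Finset.sum_nonneg fun r _ => abs_nonneg _, ?_⟩
  intro a _
  have hpk : 0 < p ^ k := pow_pos hp.pos k
  have hr : a % p ^ k ∈ range (p ^ k) := Finset.mem_range.2 (Nat.mod_lt _ hpk)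
  have hle : Cf (a % p ^ k) ≤ ∑ r ∈ range (p ^ k), |Cf r| :=
    (le_abs_self _).trans (Finset.single_le_sum (f := fun r => |Cf r|) (fun r _ => abs_nonneg _) hr)
  have hx : (((a : ℚ) / ((p ^ k : ℕ) : ℚ) : ℚ) : ℝ) =
      ((a % p ^ k : ℕ) : ℝ) / (p : ℝ) ^ k + ((a / p ^ k : ℕ) : ℝ) := by
    have hp0 : (p : ℝ) ^ k ≠ 0 := pow_ne_zero _ (by exact_mod_cast hp.ne_zero)
    have h1 : (p : ℝ) ^ k * ((a / p ^ k : ℕ) : ℝ) + ((a % p ^ k : ℕ) : ℝ) = a := by
      have := Nat.div_add_mod a (p ^ k)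
      exact_mod_cast this
    have h2 : (((a : ℚ) / ((p ^ k : ℕ) : ℚ) : ℚ) : ℝ) = (a : ℝ) / (p : ℝ) ^ k := by
      push_cast
      rfl
    rw [h2, div_eq_iff hp0, add_mul, div_mul_cancel₀ _ hp0]
    linarith
  filter_upwards [hCf (a % p ^ k)] with R hR
  rw [hx, UP_HQ.F_add_nat]
  exact hR.trans (mul_le_mul_of_nonneg_right hle (Real.sqrt_nonneg _))

end Pool.Agent.T2h55.UP
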