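import Pool.Agent.T2h55.UP.Stm

/-! LOC: the upper limit for the fractions in the interval -/

set_option autoImplicit false

open Filter Topology MeasureTheory Finset
open Pool.Agent.Y821.ME

namespace Pool.Agent.T2h55.UP

namespace LOC

theorem F_add_int (R : ℕ) (x : ℝ) (m : ℤ) : F R (x + m) = F R x := by
  unfold F
  refine Finset.sum_congr rfl fun n _ => ?_
  congr 1
  have e : 2 * Real.pi * Complex.I * n * ((x + m : ℝ) : ℂ) =
      2 * Real.pi * Complex.I * n * (x : ℂ) + ((n * m : ℤ) : ℂ) * (2 * Real.pi * Complex.I) := by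
    push_cast
    ring
  rw [e, Complex.exp_add, Complex.exp_int_mul_two_pi_mul_I, mul_one]

theorem cop_neg {p k : ℕ} [NeZero (p ^ k)] (a : ZMod (p ^ k)) (n : ℕ) :
    cop p k (-a) n = (starRingEnd ℂ) (cop p k a n) := by
  unfold cop
  split_ifs
  · rw [map_zero]
  · unfold ee
    rw [neg_mul, AddChar.map_neg_eq_conj]

theorem Mx_neg {p k : ℕ} [NeZero (p ^ k)] (a : ZMod (p ^ k)) (v : ℝ) :
    ‖Mx (cop p k (-a)) v‖ = ‖Mx (cop p k a) v‖ := by
  have h : Mx (cop p k (-a)) v = (starRingEnd ℂ) (Mx (cop p k a) v) := by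
    unfold Mx
    rw [map_sum]
    refine Finset.sum_congr rfl fun n _ => ?_
    rw [map_mul, cop_neg]
    congr 1
    unfold mu
    rw [map_intCast]
  rw [h, RCLike.norm_conj]

end LOC

theorem loc : S_LOC := by
  intro hch p l _ hp hp2 hl C α β R₀ hC hF a ha
  obtain ⟨n, hn⟩ := ha
  refine ⟨(R₀ : ℝ), fun v hv => ?_⟩
  have hv0 : 0 ≤ v := (Nat.cast_nonneg _).trans hv
  have hR : R₀ ≤ ⌊v⌋₊ := Nat.le_floor hv
  have hb : ∀ j : ℕ, j < p → ‖F ⌊v⌋₊ (((a : ZMod (p ^ (2 * l))).val : ℝ) / (p : ℝ) ^ (2 * l) +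
      (j : ℝ) / p)‖ ≤ C * Real.sqrt v := by
    intro j hj
    have h1 := hF _ hn ⌊v⌋₊ hR j hj
    have e : ((a : ZMod (p ^ (2 * l))).val : ℝ) / (p : ℝ) ^ (2 * l) + n + (j : ℝ) / p =
        ((a : ZMod (p ^ (2 * l))).val : ℝ) / (p : ℝ) ^ (2 * l) + (j : ℝ) / p + n := by ring
    rw [e, LOC.F_add_int] at h1
    exact h1.trans (floor_bound hC hv0)
  have hcop : ‖Mx (cop p (2 * l) (a : ZMod (p ^ (2 * l)))) v‖ ≤ 2 * (C * Real.sqrt v) := by
    refine Mx_cop_le hp (show 1 ≤ 2 * l by omega) (a : ZMod (p ^ (2 * l))) v _ ?_ ?_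
    · have h2 := hb 0 hp.pos
      rw [Nat.cast_zero, zero_div, add_zero] at h2
      push_cast
      exact h2
    · intro j hj
      have h2 := hb j (Finset.mem_range.1 hj)
      push_cast
      exact h2
  rw [Mx_cR hch hp hp2 hl, norm_div, Complex.norm_ofNat]
  have h3 := norm_add_le (Mx (cop p (2 * l) (a : ZMod (p ^ (2 * l)))) v)
    (Mx (cop p (2 * l) (-a)) v)
  rw [LOC.Mx_neg] at h3
  linarith

end Pool.Agent.T2h55.UP
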