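import Pool.Agent.T2h55.UP.StmB

/-! Project UP (owner helper55), task UPB_RZB: weights supported by `φ (b² / q) ≠ 0`, second version. -/

set_option autoImplicit false

open Filter Topology MeasureTheory Finset
open Pool.Agent.Y821.ME

namespace Pool.Agent.T2h55.UP

namespace RZB

theorem ee_sq (p l : ℕ) [NeZero (p ^ (2 * l))] (k : ℤ) (b : (ZMod (p ^ (2 * l)))ˣ) :
    Complex.exp (2 * Real.pi * Complex.I * k *
      (((((b ^ 2 : (ZMod (p ^ (2 * l)))ˣ) : ZMod (p ^ (2 * l))).val : ℝ) / (p : ℝ) ^ (2 * l) : ℝ) : ℂ)) =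
    ee (p ^ (2 * l)) ((k : ZMod (p ^ (2 * l))) * (b : ZMod (p ^ (2 * l))) ^ 2) := by
  unfold ee
  have h1 : (k : ZMod (p ^ (2 * l))) * (b : ZMod (p ^ (2 * l))) ^ 2 =
      ((k * ((((b ^ 2 : (ZMod (p ^ (2 * l)))ˣ) : ZMod (p ^ (2 * l))).val : ℕ) : ℤ) : ℤ) :
        ZMod (p ^ (2 * l))) := by
    push_cast
    rw [ZMod.natCast_val, ZMod.cast_id', id]
  rw [h1, ZMod.stdAddChar_coe]
  congr 1
  push_cast
  ring

/-- the estimate -/
theorem est {I : Type} [Fintype I] (w φ : I → ℝ) (E : I → ℂ) (Q : ℤ → I → ℂ) (K : Finset ℤ)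
    (c : ℤ → ℂ) (c₀ : ℂ) {η δ : ℝ} (hw : ∀ b, 0 ≤ w b) (hw1 : ∑ b, w b = 1)
    (hE : ∀ b, ‖E b‖ ≤ 1)
    (h1 : ∀ b, ‖(φ b : ℂ) - c₀ - ∑ k ∈ K, c k * Q k b‖ ≤ η)
    (h2 : ∀ k ∈ K, ‖∑ b, (w b : ℂ) * (E b * Q k b)‖ ≤ δ) :
    ‖∑ b, (w b : ℂ) * E b * φ b - c₀ * ∑ b, (w b : ℂ) * E b‖ ≤ η + (∑ k ∈ K, ‖c k‖) * δ := by
  have e1 : ∑ b, (w b : ℂ) * E b * φ b - c₀ * ∑ b, (w b : ℂ) * E b =
      ∑ b, (w b : ℂ) * E b * ((φ b : ℂ) - c₀ - ∑ k ∈ K, c k * Q k b) +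
      ∑ k ∈ K, c k * ∑ b, (w b : ℂ) * (E b * Q k b) := by
    have e2 : ∑ k ∈ K, c k * ∑ b, (w b : ℂ) * (E b * Q k b) =
        ∑ b, (w b : ℂ) * E b * ∑ k ∈ K, c k * Q k b := by
      simp only [Finset.mul_sum]
      rw [Finset.sum_comm]
      refine Finset.sum_congr rfl fun b _ => Finset.sum_congr rfl fun k _ => ?_
      ring
    rw [e2, ← Finset.sum_add_distrib, Finset.mul_sum, ← Finset.sum_sub_distrib]
    refine Finset.sum_congr rfl fun b _ => ?_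
    ring
  rw [e1]
  refine (norm_add_le _ _).trans (add_le_add ?_ ?_)
  · calc ‖∑ b, (w b : ℂ) * E b * ((φ b : ℂ) - c₀ - ∑ k ∈ K, c k * Q k b)‖
        ≤ ∑ b, ‖(w b : ℂ) * E b * ((φ b : ℂ) - c₀ - ∑ k ∈ K, c k * Q k b)‖ := norm_sum_le _ _
      _ ≤ ∑ b, w b * η := by
          refine Finset.sum_le_sum fun b _ => ?_
          rw [norm_mul, norm_mul, Complex.norm_real, Real.norm_eq_abs, abs_of_nonneg (hw b), mul_assoc]
          refine mul_le_mul_of_nonneg_left ?_ (hw b)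
          calc ‖E b‖ * ‖(φ b : ℂ) - c₀ - ∑ k ∈ K, c k * Q k b‖ ≤ 1 * η :=
                mul_le_mul (hE b) (h1 b) (norm_nonneg _) zero_le_one
            _ = η := one_mul _
      _ = η := by rw [← Finset.sum_mul, hw1, one_mul]
  · calc ‖∑ k ∈ K, c k * ∑ b, (w b : ℂ) * (E b * Q k b)‖
        ≤ ∑ k ∈ K, ‖c k * ∑ b, (w b : ℂ) * (E b * Q k b)‖ := norm_sum_le _ _
      _ ≤ ∑ k ∈ K, ‖c k‖ * δ := by
          refine Finset.sum_le_sum fun k hk => ?_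
          rw [norm_mul]
          exact mul_le_mul_of_nonneg_left (h2 k hk) (norm_nonneg _)
      _ = (∑ k ∈ K, ‖c k‖) * δ := (Finset.sum_mul _ _ _).symm

end RZB

theorem rzb (happ : S_APP) (hrz : S_RZQB) : S_RZB := by
  classical
  intro φ hc hp h0 hx Y Y' p _ hp2 hYY S hS ε hε
  obtain ⟨c₁, hc₁, H⟩ := happ φ hc hp h0 hx
  obtain ⟨η, hηd⟩ : ∃ η, η = min (c₁ / 4) (ε * c₁ / 6) := ⟨_, rfl⟩
  have hη : 0 < η := by
    rw [hηd]
    exact lt_min (by positivity) (by positivity)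
  have hη1 : η ≤ c₁ / 4 := hηd ▸ min_le_left _ _
  have hη2 : η ≤ ε * c₁ / 6 := hηd ▸ min_le_right _ _
  obtain ⟨K, c, c₀, hK0, hc₀, hA⟩ := H η hη
  obtain ⟨A, hAd⟩ : ∃ A, A = ∑ k ∈ K, ‖c k‖ := ⟨_, rfl⟩
  have hA0 : 0 ≤ A := hAd ▸ Finset.sum_nonneg fun k _ => norm_nonneg _
  obtain ⟨l₀, hl₀, HL⟩ := hrz Y Y' p hp2 hYY S hS K hK0 (η / (A + 1)) (by positivity)
  refine ⟨l₀, hl₀, fun l hl => ?_⟩
  obtain ⟨r, hr, w₀, hw0, hw1, hwS, hwK, hwT⟩ := HL l hl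
  refine ⟨r, hr, ?_⟩
  obtain ⟨ψ, hψ⟩ : ∃ ψ : (ZMod (p ^ (2 * l)))ˣ → ℝ, ψ = fun b : (ZMod (p ^ (2 * l)))ˣ =>
      φ ((((b ^ 2 : (ZMod (p ^ (2 * l)))ˣ) : ZMod (p ^ (2 * l))).val : ℝ) / (p : ℝ) ^ (2 * l)) :=
    ⟨_, rfl⟩
  have hψ0 : ∀ b, 0 ≤ ψ b := fun b => by rw [hψ]; exact h0 _
  have hAδ : A * (η / (A + 1)) ≤ η := by
    rw [← mul_div_assoc, div_le_iff₀ (by linarith)]
    nlinarith
  -- the estimate
  have key : ∀ t : ZMod (p ^ (2 * l)),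
      ‖∑ b, (w₀ b : ℂ) * ee (p ^ (2 * l)) ((b : ZMod (p ^ (2 * l))) * t) * ψ b -
        c₀ * ∑ b, (w₀ b : ℂ) * ee (p ^ (2 * l)) ((b : ZMod (p ^ (2 * l))) * t)‖ ≤ 2 * η := by
    intro t
    have h1 := RZB.est w₀ ψ (fun b => ee (p ^ (2 * l)) ((b : ZMod (p ^ (2 * l))) * t))
      (fun k b => ee (p ^ (2 * l)) ((k : ZMod (p ^ (2 * l))) * (b : ZMod (p ^ (2 * l))) ^ 2))
      K c c₀ (η := η) (δ := η / (A + 1)) hw0 hw1
      (fun b => by
        show ‖ee (p ^ (2 * l)) ((b : ZMod (p ^ (2 * l))) * t)‖ ≤ 1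
        unfold ee
        rw [AddChar.norm_apply])
      (fun b => by
        have h2 := hA ((((b ^ 2 : (ZMod (p ^ (2 * l)))ˣ) : ZMod (p ^ (2 * l))).val : ℝ) /
          (p : ℝ) ^ (2 * l))
        simp only [RZB.ee_sq] at h2
        rw [hψ]
        exact h2)
      (fun k hk => hwK k hk t)
    rw [← hAd] at h1
    linarith
  obtain ⟨Z, hZ⟩ : ∃ Z : ℝ, Z = ∑ b, w₀ b * ψ b := ⟨_, rfl⟩
  have hZ0 : 0 ≤ Z := hZ ▸ Finset.sum_nonneg fun b _ => mul_nonneg (hw0 b) (hψ0 b)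
  have hZc : ‖(Z : ℂ) - c₀‖ ≤ 2 * η := by
    have h1 := key 0
    have h2 : ∀ b : (ZMod (p ^ (2 * l)))ˣ,
        ee (p ^ (2 * l)) ((b : ZMod (p ^ (2 * l))) * 0) = 1 := fun b => by
      unfold ee
      rw [mul_zero, AddChar.map_zero_eq_one]
    simp only [h2, mul_one] at h1
    have h3 : ∑ b, (w₀ b : ℂ) = 1 := by exact_mod_cast congrArg (fun x : ℝ => (x : ℂ)) hw1
    have h4 : ∑ b, (w₀ b : ℂ) * (ψ b : ℂ) = Z := by
      rw [hZ]
      push_cast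
      rfl
    rw [h3, h4, mul_one] at h1
    exact h1
  have hZ1 : c₁ / 2 ≤ Z := by
    have h1 := norm_sub_norm_le c₀ (Z : ℂ)
    rw [norm_sub_rev, Complex.norm_real, Real.norm_eq_abs, abs_of_nonneg hZ0] at h1
    linarith
  have hZpos : 0 < Z := by linarith
  refine ⟨fun b => w₀ b * ψ b / Z, fun b => div_nonneg (mul_nonneg (hw0 b) (hψ0 b)) hZ0, ?_, ?_, ?_, ?_⟩
  · rw [← Finset.sum_div, ← hZ, div_self hZpos.ne']
  · intro b hb h1
    apply hb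
    have h2 : ψ b = 0 := by rw [hψ]; exact h1
    show w₀ b * ψ b / Z = 0
    rw [h2, mul_zero, zero_div]
  · intro g hg
    obtain ⟨T, hT⟩ : ∃ T : ℝ, T =
        if g ∈ S then ((ArithmeticFunction.moebius g.natAbs : ℤ) : ℝ) / 2 else 0 := ⟨_, rfl⟩
    have hT1 : |T| ≤ 1 / 2 := by
      rw [hT]
      split_ifs
      · have h1 : |((ArithmeticFunction.moebius g.natAbs : ℤ) : ℝ)| ≤ 1 := by
          have h2 := ArithmeticFunction.abs_moebius_le_one (n := g.natAbs)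
          exact_mod_cast h2
        rw [abs_div, abs_two]
        linarith
      · rw [abs_zero]
        norm_num
    have hTc : ∑ b, (w₀ b : ℂ) * ee (p ^ (2 * l)) ((b : ZMod (p ^ (2 * l))) *
        (2 * (r g : ZMod (p ^ (2 * l))))) = (T : ℂ) := by
      have h1 := hwS g hg
      have h2 : (T : ℂ) = if g ∈ S then ((ArithmeticFunction.moebius g.natAbs : ℤ) : ℂ) / 2 else 0 := by
        rw [hT]
        split_ifs <;> push_cast <;> rfl
      rw [h2, ← h1]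
      refine Finset.sum_congr rfl fun b _ => ?_
      congr 2
      ring
    obtain ⟨N, hN⟩ : ∃ N : ℂ, N = ∑ b, (w₀ b : ℂ) * ee (p ^ (2 * l)) ((b : ZMod (p ^ (2 * l))) *
        (2 * (r g : ZMod (p ^ (2 * l))))) * ψ b := ⟨_, rfl⟩
    have hkey := key (2 * (r g : ZMod (p ^ (2 * l))))
    rw [← hN, hTc] at hkey
    have hNZ : ‖N - Z * T‖ ≤ 3 * η := by
      have h1 : N - Z * T = (N - c₀ * T) + (c₀ - Z) * T := by ring
      rw [h1]
      refine (norm_add_le _ _).trans ?_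
      rw [norm_mul, norm_sub_rev c₀, Complex.norm_real, Real.norm_eq_abs]
      have h2 : ‖(Z : ℂ) - c₀‖ * |T| ≤ (2 * η) * (1 / 2) :=
        mul_le_mul hZc hT1 (abs_nonneg _) (by linarith)
      linarith
    have hre : ∑ b, (w₀ b * ψ b / Z) * (ee (p ^ (2 * l)) (2 * (b : ZMod (p ^ (2 * l))) * r g)).re =
        (N / Z).re := by
      have h1 : N / Z = ∑ b, ((w₀ b * ψ b / Z : ℝ) : ℂ) *
          ee (p ^ (2 * l)) (2 * (b : ZMod (p ^ (2 * l))) * r g) := by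
        rw [hN, Finset.sum_div]
        refine Finset.sum_congr rfl fun b _ => ?_
        have h2 : (b : ZMod (p ^ (2 * l))) * (2 * (r g : ZMod (p ^ (2 * l)))) =
            2 * (b : ZMod (p ^ (2 * l))) * r g := by ring
        rw [h2]
        push_cast
        ring
      rw [h1, Complex.re_sum]
      refine Finset.sum_congr rfl fun b _ => ?_
      rw [Complex.re_ofReal_mul]
    rw [hre, ← hT]
    have h1 : (N / Z).re - T = (N / Z - T).re := by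
      rw [Complex.sub_re, Complex.ofReal_re]
    rw [h1]
    refine (Complex.abs_re_le_norm _).trans ?_
    have hZC : (Z : ℂ) ≠ 0 := by exact_mod_cast hZpos.ne'
    have h2 : N / Z - T = (N - Z * T) / Z := by
      field_simp
    rw [h2, norm_div, Complex.norm_real, Real.norm_eq_abs, abs_of_pos hZpos, div_le_iff₀ hZpos]
    have h3 : ε * (c₁ / 2) ≤ ε * Z := mul_le_mul_of_nonneg_left hZ1 hε.le
    linarith
  · intro g hg t ht
    have h1 := hwT g hg t ht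
    have h2 := key t
    rw [h1, mul_zero, sub_zero] at h2
    have h3 : ∑ b, ((w₀ b * ψ b / Z : ℝ) : ℂ) * ee (p ^ (2 * l)) ((b : ZMod (p ^ (2 * l))) * t) =
        (∑ b, (w₀ b : ℂ) * ee (p ^ (2 * l)) ((b : ZMod (p ^ (2 * l))) * t) * ψ b) / Z := by
      rw [Finset.sum_div]
      refine Finset.sum_congr rfl fun b _ => ?_
      push_cast
      ring
    rw [h3, norm_div, Complex.norm_real, Real.norm_eq_abs, abs_of_pos hZpos, div_le_iff₀ hZpos]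
    have h4 : ε * (c₁ / 2) ≤ ε * Z := mul_le_mul_of_nonneg_left hZ1 hε.le
    have h5 : 0 < ε * c₁ := mul_pos hε hc₁
    linarith

end Pool.Agent.T2h55.UP
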