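import Pool.Agent.T2h55.UP.Rzqb

/-! Project UP (owner helper55), task UP_RZQ: Riesz products together with quadratic phases; the case of equal bounds
of `rzqb` (helper21). -/

set_option autoImplicit false

open Filter Topology MeasureTheory Finset
open Pool.Agent.Y821.ME

namespace Pool.Agent.T2h55.UP

theorem rzq (hli : S_LI2) (hqs : S_QS) : S_RZQ := by
  intro Y p _ hp2 S hS K hK d hd
  obtain ⟨l₀, h1, h2⟩ := rzqb hli hqs Y Y p hp2 le_rfl S hS K hK d hd
  refine ⟨l₀, by omega, fun l hl => ?_⟩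
  obtain ⟨r, hr, w, hw0, hw1, hw2, hw3, -⟩ := h2 l hl
  exact ⟨r, hr, w, hw0, hw1, hw2, hw3⟩

end Pool.Agent.T2h55.UP
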