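import Pool.Agent.T2h55.UP.Stm

/-! # The averaged inequality, local version -/

set_option autoImplicit false

open Filter Topology MeasureTheory Finset
open Pool.Agent.Y821.ME

namespace Pool.Agent.T2h55.UP

open Pool.Agent.Y821.ME.Two

theorem serl : S_SERL := by
  intro htrig hsup hlap hlim hpair hch hkl hser C C₁ p l _ hC hC₁ h hp hp2 hl w hw0 hw1 hloc TR TL
    hTR hTL lam U hlam
  have hch0 := fun (χ : DirichletCharacter ℂ (p ^ (2 * l))) (hχ : χ.IsPrimitive) =>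
    Mx_chi hp (show 1 ≤ 2 * l by omega) hC₁ h hχ
  have hq : 2 ≤ p ^ (2 * l) := by
    calc 2 ≤ p := hp.two_le
      _ = p ^ 1 := (pow_one p).symm
      _ ≤ p ^ (2 * l) := Nat.pow_le_pow_right hp.pos (by omega)
  choose BR hBR using fun b : (ZMod (p ^ (2 * l)))ˣ => cR_bound (l := l) hch hp hp2 hl hC₁ h (b ^ 2)
  choose BL hBL using fun b : (ZMod (p ^ (2 * l)))ˣ =>
    cL_bound (p ^ (2 * l)) hch0 ((b ^ 2 : (ZMod (p ^ (2 * l)))ˣ) : ZMod (p ^ (2 * l)))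
  have hR2 : ∀ n, ‖TR n‖ ≤ 2 := by
    intro n
    rw [hTR]
    refine (norm_sum_le _ _).trans ?_
    calc ∑ b, ‖(w b : ℂ) * cR (p ^ (2 * l)) ((b ^ 2 : (ZMod (p ^ (2 * l)))ˣ) : ZMod (p ^ (2 * l))) n‖
        ≤ ∑ b, w b * 2 := by
          refine Finset.sum_le_sum fun b _ => ?_
          rw [norm_mul, Complex.norm_real, Real.norm_of_nonneg (hw0 b)]
          exact mul_le_mul_of_nonneg_left ((norm_cR_le hch hp hp2 hl (b ^ 2) n).trans (by norm_num)) (hw0 b)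
      _ = 2 := by rw [← Finset.sum_mul, hw1, one_mul]
  have hL2 : ∀ n, ‖TL n‖ ≤ 2 := by
    intro n
    rw [hTL]
    refine (norm_sum_le _ _).trans ?_
    calc ∑ b, ‖(w b : ℂ) * cL (p ^ (2 * l)) ((b ^ 2 : (ZMod (p ^ (2 * l)))ˣ) : ZMod (p ^ (2 * l))) n‖
        ≤ ∑ b, w b * 2 := by
          refine Finset.sum_le_sum fun b _ => ?_
          rw [norm_mul, Complex.norm_real, Real.norm_of_nonneg (hw0 b)]
          exact mul_le_mul_of_nonneg_left (norm_cL_le hch hkl hp hp2 hl (b ^ 2) n) (hw0 b)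
      _ = 2 := by rw [← Finset.sum_mul, hw1, one_mul]
  refine ⟨?_, hR2, hL2⟩
  have hMR : ∀ v, 1 ≤ v → ‖Mx TR v‖ ≤ (∑ b, w b * BR b) * Real.sqrt v := by
    intro v hv
    rw [hTR, Mx_sum univ (fun b => (w b : ℂ))
      (fun b n => cR (p ^ (2 * l)) ((b ^ 2 : (ZMod (p ^ (2 * l)))ˣ) : ZMod (p ^ (2 * l))) n), Finset.sum_mul]
    refine (norm_sum_le _ _).trans (Finset.sum_le_sum fun b _ => ?_)
    rw [norm_mul, Complex.norm_real, Real.norm_of_nonneg (hw0 b), mul_assoc]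
    exact mul_le_mul_of_nonneg_left (hBR b v hv) (hw0 b)
  have hML : ∀ v, 1 ≤ v → ‖Mx TL v‖ ≤ (∑ b, w b * BL b) * Real.sqrt v := by
    intro v hv
    rw [hTL, Mx_sum univ (fun b => (w b : ℂ))
      (fun b n => cL (p ^ (2 * l)) ((b ^ 2 : (ZMod (p ^ (2 * l)))ˣ) : ZMod (p ^ (2 * l))) n), Finset.sum_mul]
    refine (norm_sum_le _ _).trans (Finset.sum_le_sum fun b _ => ?_)
    rw [norm_mul, Complex.norm_real, Real.norm_of_nonneg (hw0 b), mul_assoc]
    exact mul_le_mul_of_nonneg_left (hBL b v hv) (hw0 b)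
  have hA : ∀ u, ‖aF lam (Mx TR) u - aF lam (Mx TL) (-u)‖ ≤ 2 * C * Real.exp (-lam / 2) * Kth := by
    intro u
    have h1 := aF_sum hlap univ (fun b => (w b : ℂ))
      (fun b n => cR (p ^ (2 * l)) ((b ^ 2 : (ZMod (p ^ (2 * l)))ˣ) : ZMod (p ^ (2 * l))) n) lam BR
      (fun b _ v hv => hBR b v hv) u
    have h2 := aF_sum hlap univ (fun b => (w b : ℂ))
      (fun b n => cL (p ^ (2 * l)) ((b ^ 2 : (ZMod (p ^ (2 * l)))ˣ) : ZMod (p ^ (2 * l))) n) lam BL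
      (fun b _ v hv => hBL b v hv) (-u)
    rw [hTR, hTL, h1, h2, ← Finset.sum_sub_distrib]
    refine (norm_sum_le _ _).trans ?_
    calc ∑ b, ‖(w b : ℂ) * aF lam (Mx (cR (p ^ (2 * l)) ((b ^ 2 : (ZMod (p ^ (2 * l)))ˣ) : ZMod (p ^ (2 * l))))) u -
          (w b : ℂ) * aF lam (Mx (cL (p ^ (2 * l)) ((b ^ 2 : (ZMod (p ^ (2 * l)))ˣ) : ZMod (p ^ (2 * l))))) (-u)‖
        ≤ ∑ b, w b * (2 * C * Real.exp (-lam / 2) * Kth) := by
          refine Finset.sum_le_sum fun b _ => ?_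
          rw [← mul_sub, norm_mul, Complex.norm_real, Real.norm_of_nonneg (hw0 b)]
          rcases eq_or_ne (w b) 0 with hb | hb
          · rw [hb, zero_mul, zero_mul]
          · refine mul_le_mul_of_nonneg_left ?_ (hw0 b)
            rw [hlam]
            exact inequality_two (p ^ (2 * l)) htrig hsup hlap hlim hpair hq hch0 _
              ⟨BR b, hBR b⟩ (hloc b hb) u
      _ = _ := by rw [← Finset.sum_mul, hw1, one_mul]
  have hD := norm_D_le (fun t => aF lam (Mx TR) t - aF lam (Mx TL) (-t)) _ hA (-U)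
  rw [D_sub (aF lam (Mx TR)) (fun t => aF lam (Mx TL) (-t))] at hD
  rw [(hser lam _ TR hR2 hMR (-U)).1, (hser lam _ TL hL2 hML (-U)).2] at hD
  rw [neg_neg, sub_neg_eq_add, ← sub_eq_add_neg] at hD
  exact hD

end Pool.Agent.T2h55.UP
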