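import Pool.Agent.Y821.ME.Fin2E

/-!
# Project UP (helper55, MP_b6b996_nt, slot 2): the Möbius exponential sum is not `O(√R)` at one single real point

`F R x = ∑_{n ≤ R} μ(n) e(n x)`; `Big x` says that `|F R x| > C √R` infinitely often, for EVERY `C`
(the starting result `SqrtBoundFails` has a point which depends on `C`).  Aim:

(a) there is a real `x` with `Big x`;
(b) for every odd prime `p`, either some `a / p ^ k` is `Big`, or for all `x` in a residual (comeagre) set one of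
`x + j/p`, `j < p`, is `Big`.

Proof.  Suppose (b) fails.  By Baire (task FIN) there are an interval `(α, β)`, `C` and `R₀` with
`|F R (x + j/p)| ≤ C √R` for all `x ∈ (α, β)`, `R ≥ R₀`, `j < p`, and at the points `a / p ^ k` the sums are
`O(√R)` with non-uniform constants.  The proof of the starting theorem `Two.main_two`
(file `Pool/Agent/Y821/ME/Fin2E.lean`) takes an average over `b` with Riesz product weights `w b` of an inequality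
for the fraction `b² / p ^ (2l)`; the uniform constant is used only in the upper limits.  Multiply the weights by
`φ (b² / p ^ (2l))` where `φ` is a bump with support in `(α, β) + ℤ`: the averages of the Kloosterman sums change
only by `ε`, since `∑_b w b e((b t + k b²) / p ^ (2l))` is small for `k ≠ 0` (quadratic Gauss sums).

All starting files are on main (directory `Pool/Agent/Y821/ME/`): copy them to the same paths under
`/workdir/pool` (Stm, Stm2, FinA, FinB, FinC, FinD, FinE, Fin2B, Fin2C, Fin2D, Fin2E; for RZQ also Rz2) and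
`lake build Pool.Agent.Y821.ME.Fin2E` (2 minutes).
-/

set_option autoImplicit false

open Filter Topology MeasureTheory Finset
open Pool.Agent.Y821.ME

namespace Pool.Agent.T2h55.UP

/-- `|F R x| > C √R` for arbitrarily large `R`, for every `C` -/
def Big (x : ℝ) : Prop := ∀ C : ℝ, ∃ᶠ R : ℕ in atTop, C * Real.sqrt R < ‖F R x‖

/-- (HQ, 60 lines) from bounds with constants which depend on the point to `HypQ`.
Proof.  Choose `C a` for every `a`; let `C = max 0 (max over r < p ^ k of |C r|)`.  For `a ∈ ℕ` let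
`r = a % p ^ k`: `a / p ^ k = r / p ^ k + (integer)`, and `F R` has period `1` (`exp (2 π i n m) = 1`), so the bound
of `r` holds at `a`.  `HypQ` is written with `((a / (p ^ k : ℕ) : ℚ) : ℝ)`; use `push_cast`. -/
def S_HQ : Prop := ∀ p k : ℕ, p.Prime →
  (∀ a : ℕ, ∃ C : ℝ, ∀ᶠ R : ℕ in atTop, ‖F R ((a : ℝ) / (p : ℝ) ^ k)‖ ≤ C * Real.sqrt R) →
  ∃ C : ℝ, 0 ≤ C ∧ Two.HypQ C p k

/-- (LOC, 70 lines) the upper limit for the fractions in the interval.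
Proof.  Let `x = a.val / p ^ (2l) + n ∈ (α, β)`.  For `R ≥ R₀` and `j < p`: `‖F R (x + j/p)‖ ≤ C √R`, and since
`F R` has period `1` the same bound holds for `F R (a.val / p ^ (2l) + j/p)` (`j = 0` included).  For
`v ≥ v₀ = max R₀ 0`, `Mx_cop_le` (FinB) with `D = C √v` (`floor_bound`, `Nat.le_floor`) gives
`‖Mx (cop p (2l) a) v‖ ≤ 2 C √v`.  As `cop p (2l) (-a) n` is the complex conjugate of `cop p (2l) a n`
(`AddChar.map_neg_eq_conj`, see `Kl_div` in Fin2C) and `mu n` is real, `Mx (cop (-a)) v` is the conjugate of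
`Mx (cop a) v` and has the same norm.  Now `Mx_cR` (FinD): `Mx (cR a) = (Mx (cop a) + Mx (cop (-a))) / 2`. -/
def S_LOC : Prop := S_CH → ∀ (p l : ℕ) [NeZero (p ^ (2 * l))], p.Prime → p ≠ 2 → 1 ≤ l →
  ∀ (C α β : ℝ) (R₀ : ℕ), 0 ≤ C →
  (∀ x ∈ Set.Ioo α β, ∀ R : ℕ, R₀ ≤ R → ∀ j : ℕ, j < p → ‖F R (x + j / p)‖ ≤ C * Real.sqrt R) →
  ∀ a : (ZMod (p ^ (2 * l)))ˣ,
  (∃ n : ℤ, ((a : ZMod (p ^ (2 * l))).val : ℝ) / (p : ℝ) ^ (2 * l) + n ∈ Set.Ioo α β) →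
  ∃ v₀ : ℝ, ∀ v, v₀ ≤ v → ‖Mx (cR (p ^ (2 * l)) a) v‖ ≤ 2 * C * Real.sqrt v

/-- (BMP, 40 lines) a periodic bump function.
Proof.  Let `c = (α + β)/2`, `d = (β - α)/2`,
`φ x = max 0 (d - ‖((x - c : ℝ) : AddCircle (1 : ℝ))‖)`.  Continuous, periodic, `φ c = d > 0`.  If `φ x ≠ 0` then
`‖(x - c : AddCircle 1)‖ < d`; by `AddCircle.norm_eq` this is `|x - c - round (x - c)| < d`; `n = -round (x - c)`. -/
def S_BMP : Prop := ∀ α β : ℝ, α < β → ∃ φ : ℝ → ℝ, Continuous φ ∧ (∀ x, φ (x + 1) = φ x) ∧ (∀ x, 0 ≤ φ x) ∧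
  (∃ x, φ x ≠ 0) ∧ ∀ x, φ x ≠ 0 → ∃ n : ℤ, x + n ∈ Set.Ioo α β

/-- (APP, 100 lines) approximation by trigonometric polynomials, with a lower bound for the constant coefficient.
Proof.  `φ` gives a continuous function on `AddCircle (1 : ℝ)` (`Function.Periodic.lift`, continuity by
`continuous_coinduced_dom` / `QuotientAddGroup`; or `AddCircle.liftIco`), and the span of the `fourier n` is dense
in `C(AddCircle 1, ℂ)` (`span_fourier_closure_eq_top`): for `η' > 0` there are a finite set `K'` of integers and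
`c` with `‖φ x - ∑_{k ∈ K'} c k e(k x)‖ ≤ η'` for all `x` (`fourier_coe_apply`).  Let `K = K' \ {0}`, `c₀ = c 0`
or `0`.  Integrate over `[0, 1]`: `∫ e(k x) = 0` for `k ≠ 0`, so `‖∫_0^1 φ - c₀‖ ≤ η'`.  As `φ` is continuous,
`≥ 0` and not identically `0`, `J = ∫_0^1 φ > 0` (period `1`).  Take `c₁ = J/2`, `η' = min η (J/2)`. -/
def S_APP : Prop := ∀ φ : ℝ → ℝ, Continuous φ → (∀ x, φ (x + 1) = φ x) → (∀ x, 0 ≤ φ x) → (∃ x, φ x ≠ 0) →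
  ∃ c₁ : ℝ, 0 < c₁ ∧ ∀ η : ℝ, 0 < η → ∃ (K : Finset ℤ) (c : ℤ → ℂ) (c₀ : ℂ), 0 ∉ K ∧ c₁ ≤ ‖c₀‖ ∧
    ∀ x : ℝ, ‖(φ x : ℂ) - c₀ - ∑ k ∈ K, c k * Complex.exp (2 * Real.pi * Complex.I * k * x)‖ ≤ η

/-- (QS, 110 lines) quadratic Gauss sums over the units.
Proof.  Write `q = p ^ (2l)`, `f b = ee (b t) * ee (k b²)`.  `p ^ l` is nilpotent, so for every `s : ZMod q` the map
`b ↦ b + p ^ l s` is a bijection of the units (see `sum_units_eq_zero` in Rz2), and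
`f (b + p ^ l s) = f b * ee (s * (p ^ l * (t + 2 k b)))` as `(p ^ l)² = 0`.  Sum over all `s`:
`q ∑_b f b = ∑_b f b ∑_s ee (s * (p ^ l (t + 2 k b))) = q ∑_{b : p ^ l (t + 2 k b) = 0} f b`
(`AddChar.sum_mulShift`, `ZMod.isPrimitive_stdAddChar`).  So the norm is at most the number of the units `b` with
`p ^ l (t + 2 k b) = 0`.  If `b₀` is one of them, then for every other one `p ^ l * 2 k (b - b₀) = 0`, hence
`p ^ (2l) ∣ p ^ l 2 k (b - b₀)` (integers), hence `p ^ (l - v) ∣ b - b₀` (`p ≠ 2`, `p ^ (v+1) ∤ k`), hence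
`p ^ (l + v) • (b - b₀) = 0`; and at most `p ^ (l + v)` elements `x` of `ZMod q` satisfy `p ^ (l + v) • x = 0`
(`IsAddCyclic.card_nsmul_eq_zero_le`). -/
def S_QS : Prop := ∀ (p l v : ℕ) [NeZero (p ^ (2 * l))], p.Prime → p ≠ 2 → v < l →
  ∀ k : ℤ, ¬ (p : ℤ) ^ (v + 1) ∣ k → ∀ t : ZMod (p ^ (2 * l)),
  ‖∑ b : (ZMod (p ^ (2 * l)))ˣ, ee (p ^ (2 * l)) ((b : ZMod (p ^ (2 * l))) * t) *
      ee (p ^ (2 * l)) ((k : ZMod (p ^ (2 * l))) * (b : ZMod (p ^ (2 * l))) ^ 2)‖ ≤ (p : ℝ) ^ (l + v)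

open Classical in
/-- (RZQ, 200 lines, of which 140 are a copy of `rz2` in `Pool/Agent/Y821/ME/Rz2.lean`)
`theorem rzq (hli : S_LI2) (hqs : S_QS) : S_RZQ`: Riesz products together with quadratic phases.
Proof.  Import Rz2, take `r` and `w` from the proof of `rz2` (copy it).  The last lines of that proof in fact give
the complex equality `∑_b w b * ee (2 b r g) = cc ν S g 1` (first new claim).  Second new claim: for all finite `S`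
and all `t`, `‖∑_b (∏_{j ∈ S} fac q R ν b j) * ee (b t) * ee (k b²)‖ ≤ 2 ^ |S| * p ^ (l + v)` by induction over `S`:
`fac = 1 + ν/2 (ee (b 2 R_j) + ee (-(b 2 R_j)))`, `|ν| ≤ 1`, so one more factor gives at most
`(1 + 1/2 + 1/2)` times the bound for all `t`; start: QS.  Here `v` is such that `p ^ (v+1)` divides no `k ∈ K`
(for example `v = ∑_{k ∈ K} |k|`, as `p ^ (v+1) > v + 1`), and `l > v`.  Divide by the number of units
`φ(p ^ (2l)) = p ^ (2l-1) (p - 1) ≥ p ^ (2l-1)` (`ZMod.card_units_eq_totient`, `Nat.totient_prime_pow`):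
the bound is `2 ^ |S| p ^ (v + 1) / p ^ l → 0`. -/
def S_RZQ : Prop := ∀ (Y p : ℕ) [Fact p.Prime], p ≠ 2 → ∀ S ⊆ Gs Y p,
  ∀ (K : Finset ℤ), 0 ∉ K → ∀ δ : ℝ, 0 < δ →
  ∃ l₀ : ℕ, 1 ≤ l₀ ∧ ∀ l : ℕ, l₀ ≤ l → ∃ r : ℤ → (ZMod (p ^ (2 * l)))ˣ,
    (∀ g ∈ Gs Y p, (g : ZMod (p ^ (2 * l))) * (r g : ZMod (p ^ (2 * l))) ^ 2 = 1) ∧
    ∃ w : (ZMod (p ^ (2 * l)))ˣ → ℝ, (∀ b, 0 ≤ w b) ∧ ∑ b, w b = 1 ∧
      (∀ g ∈ Gs Y p, ∑ b, (w b : ℂ) * ee (p ^ (2 * l)) (2 * (b : ZMod (p ^ (2 * l))) * r g) =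
          if g ∈ S then ((ArithmeticFunction.moebius g.natAbs : ℤ) : ℂ) / 2 else 0) ∧
      ∀ k ∈ K, ∀ t : ZMod (p ^ (2 * l)), ‖∑ b, (w b : ℂ) * (ee (p ^ (2 * l)) ((b : ZMod (p ^ (2 * l))) * t) *
        ee (p ^ (2 * l)) ((k : ZMod (p ^ (2 * l))) * (b : ZMod (p ^ (2 * l))) ^ 2))‖ ≤ δ

open Classical in
/-- (RZ3, 140 lines) `theorem rz3 (happ : S_APP) (hrz : S_RZQ) : S_RZ3`: weights supported by `φ (b² / q) ≠ 0`.
Proof.  Let `c₁` be as in APP, `η = min (c₁/4) (ε c₁/6)`, `K, c, c₀` as in APP for `η`,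
`A = ∑_{k ∈ K} ‖c k‖`, `δ = η / (A + 1)`; `l₀`, `r`, `w₀` as in RZQ.  With `x_b = (b²).val / q`,
`exp (2 π i k x_b) = ee (k b²)` (`ZMod.stdAddChar_coe`, see `ee_mul` in FinB).  Hence for every `t`
`‖∑_b w₀ b ee (b t) φ(x_b) - c₀ ∑_b w₀ b ee (b t)‖ ≤ η + A δ ≤ 2 η` (*).
Let `Z = ∑_b w₀ b φ(x_b) ≥ 0`; (*) for `t = 0`: `‖Z - c₀‖ ≤ 2 η ≤ c₁/2`, so `Z ≥ c₁/2 > 0`.
Let `w b = w₀ b φ(x_b) / Z`.  For `t = 2 r_g`, `T = if g ∈ S then μ/2 else 0` (`|T| ≤ 1/2`), `N_g` the first sum: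
`‖N_g - c₀ T‖ ≤ 2 η`, so `‖N_g / Z - T‖ ≤ (2 η + 2 η |T|) / Z ≤ 6 η / c₁ ≤ ε`; take the real part. -/
def S_RZ3 : Prop := ∀ φ : ℝ → ℝ, Continuous φ → (∀ x, φ (x + 1) = φ x) → (∀ x, 0 ≤ φ x) → (∃ x, φ x ≠ 0) →
  ∀ (Y p : ℕ) [Fact p.Prime], p ≠ 2 → ∀ S ⊆ Gs Y p, ∀ ε : ℝ, 0 < ε →
  ∃ l₀ : ℕ, 1 ≤ l₀ ∧ ∀ l : ℕ, l₀ ≤ l → ∃ r : ℤ → (ZMod (p ^ (2 * l)))ˣ,
    (∀ g ∈ Gs Y p, (g : ZMod (p ^ (2 * l))) * (r g : ZMod (p ^ (2 * l))) ^ 2 = 1) ∧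
    ∃ w : (ZMod (p ^ (2 * l)))ˣ → ℝ, (∀ b, 0 ≤ w b) ∧ ∑ b, w b = 1 ∧
      (∀ b, w b ≠ 0 →
        φ ((((b ^ 2 : (ZMod (p ^ (2 * l)))ˣ) : ZMod (p ^ (2 * l))).val : ℝ) / (p : ℝ) ^ (2 * l)) ≠ 0) ∧
      ∀ g ∈ Gs Y p, |∑ b, w b * (ee (p ^ (2 * l)) (2 * (b : ZMod (p ^ (2 * l))) * r g)).re -
          (if g ∈ S then ((ArithmeticFunction.moebius g.natAbs : ℤ) : ℝ) / 2 else 0)| ≤ ε

/-- (LL, 100 lines) the lower bound for the series on the left, approximate version of `left_lower` (FinE).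
Proof.  `δ ≤ 1/6000`, so `mu m ≠ 0` for `m ∈ S` (otherwise `‖0 - 1/2‖ ≤ δ`) and `mu m * mu m = 1`.  Let
`TL' m = if 1 ≤ m ≤ 100 N² then (if m ∈ S then mu m / 2 else 0) else TL m`; `left_lower` applies to `TL'`.  The two
series are absolutely convergent (bound `6 Z³ / (n+1)³`, `Z = 10 N`, see the proof of `left_lower`) and differ by
`∑_{m ≤ 100 N²} (mu m * TL m - target) VL(m / Z)`, at most `δ ∑ 3 Z³ / m³ ≤ 6 δ Z³ = 6000 N³ δ ≤ 1` (`hvb.1`,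
`cube_tsum0`). -/
def S_LL : Prop := S_VB → ∀ N : ℕ, 1 ≤ N → ∀ S : Finset ℕ, (∀ m ∈ S, 2 * N ≤ m ∧ m ≤ 3 * N) →
  ∀ TL : ℕ → ℂ, (∀ n, ‖TL n‖ ≤ 2) → ∀ δ : ℝ, 0 ≤ δ → δ * (6000 * (N : ℝ) ^ 3) ≤ 1 →
  (∀ m : ℕ, 1 ≤ m → m ≤ 100 * N ^ 2 → ‖mu m * TL m - (if m ∈ S then (1 / 2 : ℂ) else 0)‖ ≤ δ) →
  (S.card : ℝ) / 5 - 2 ≤
    ‖∑' n : ℕ, mu (n + 1) * TL (n + 1) * (VL ((n + 1 : ℕ) * (1 / (10 * N : ℝ))) : ℝ)‖

/-- (SERL, 120 lines, a copy of `series_inequality_two` in Fin2D) the averaged inequality, local version.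
Proof.  Copy `Two.series_inequality_two`; `HypQ C₁` serves for `hch0`, `cR_bound`, `cL_bound`, `Mx_chi`.  Only change:
in `hA` the terms with `w b = 0` are `0`, and for `w b ≠ 0` use `Two.inequality_two` with the hypothesis `hloc b`
in place of `cR_ev`. -/
def S_SERL : Prop := S_TRIG → S_SUP → S_LAP → S_LIM → S_PAIR → S_CH → S_KL2 → S_SER →
  ∀ (C C₁ : ℝ) (p l : ℕ) [NeZero (p ^ (2 * l))], 0 ≤ C → 0 ≤ C₁ → Two.HypQ C₁ p (2 * l) → p.Prime → p ≠ 2 →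
  1 ≤ l → ∀ w : (ZMod (p ^ (2 * l)))ˣ → ℝ, (∀ b, 0 ≤ w b) → ∑ b, w b = 1 →
  (∀ b, w b ≠ 0 → ∃ v₀ : ℝ, ∀ v, v₀ ≤ v →
    ‖Mx (cR (p ^ (2 * l)) ((b ^ 2 : (ZMod (p ^ (2 * l)))ˣ) : ZMod (p ^ (2 * l)))) v‖ ≤ 2 * C * Real.sqrt v) →
  ∀ TR TL : ℕ → ℂ,
    (TR = fun n => ∑ b, (w b : ℂ) *
      cR (p ^ (2 * l)) ((b ^ 2 : (ZMod (p ^ (2 * l)))ˣ) : ZMod (p ^ (2 * l))) n) →
    (TL = fun n => ∑ b, (w b : ℂ) *
      cL (p ^ (2 * l)) ((b ^ 2 : (ZMod (p ^ (2 * l)))ˣ) : ZMod (p ^ (2 * l))) n) →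
  ∀ lam U : ℝ, lam = Real.log ((p ^ (2 * l) : ℕ) / Real.pi) / 2 →
    ‖(Real.exp (U / 2) : ℂ) *
        ∑' n : ℕ, mu (n + 1) * TR (n + 1) * (VR ((n + 1 : ℕ) * Real.exp (lam + U)) : ℝ) -
      (Real.exp (-U / 2) : ℂ) *
        ∑' n : ℕ, mu (n + 1) * TL (n + 1) * (VL ((n + 1 : ℕ) * Real.exp (lam - U)) : ℝ)‖ ≤
      5 * (2 * C * Real.exp (-lam / 2) * Kth) ∧ (∀ n, ‖TR n‖ ≤ 2) ∧ (∀ n, ‖TL n‖ ≤ 2)

/-- (MAIN, helper55) -/
def S_MAIN : Prop := ∀ p : ℕ, p.Prime → p ≠ 2 → ∀ (C α β : ℝ) (R₀ : ℕ), 0 ≤ C → α < β →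
  (∀ x ∈ Set.Ioo α β, ∀ R : ℕ, R₀ ≤ R → ∀ j : ℕ, j < p → ‖F R (x + j / p)‖ ≤ C * Real.sqrt R) →
  (∀ a k : ℕ, ∃ C : ℝ, ∀ᶠ R : ℕ in atTop, ‖F R ((a : ℝ) / (p : ℝ) ^ k)‖ ≤ C * Real.sqrt R) → False

/-- (FIN, 110 lines) `theorem fin (h : S_MAIN) : S_FIN`: Baire category and pigeonhole.
Proof.  Suppose no `a / p ^ k` is `Big`: for all `a k` there is `C` with `∀ᶠ R, ‖F R (a / p ^ k)‖ ≤ C √R`.
For `m : ℕ` let `V m = {x | ∃ R ≥ m, ∃ j < p, m √R < ‖F R (x + j/p)‖}`; it is open (`F R` is continuous).  It is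
dense: otherwise its complement contains an interval `(α, β)` (nonempty open set), against `h` with `C = m`,
`R₀ = m`.  So `⋂ m, V m` is residual (`residual_of_dense_open`, `eventually_countable_forall`).  Let `x` be in it:
for every `m` there is `j_m < p` and `R ≥ m` with `m √R < ‖F R (x + j_m/p)‖`; some `j < p` is `j_m` for infinitely
many `m` (if for every `j` the set of the `m` were bounded, a larger `m` gives a contradiction; or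
`Filter.Tendsto.exists...`/`Nat.frequently_atTop_iff_infinite`), and then `Big (x + j/p)`: given `C` and `N`, take
such an `m ≥ max C N`.  For part (a) take `p = 3`: a residual set is not empty
(`Dense` / `(h.and ...).exists`, `ℝ` is a Baire space, `residual` is `NeBot`). -/
def S_FIN : Prop := (∃ x : ℝ, Big x) ∧ ∀ p : ℕ, p.Prime → p ≠ 2 →
  (∃ a k : ℕ, Big ((a : ℝ) / (p : ℝ) ^ k)) ∨ ∀ᶠ x in residual ℝ, ∃ j : ℕ, j < p ∧ Big (x + j / p)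

end Pool.Agent.T2h55.UP
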