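import Pool.Agent.T2h55.UP.Stm

/-!
# Project UP, part B: `Big x` itself for comeagre many `x` (no shifts `x + j/p`)

Aim: for every odd prime `p`, either for all large `l` there is `a` prime to `p` such that `a / p ^ (2l)` or
`a / p ^ (2l-1)` is `Big`, or `Big x` for all `x` in a residual set.

Let `q = p ^ (2l)`, `q' = p ^ (2l-1)`.  For a unit `a` modulo `q`:
`Re F_v (a/q) = ∑_{n ≤ v, p ∤ n} μ(n) cos (2 π a n / q) - ∑_{m ≤ v/p, p ∤ m} μ(m) cos (2 π a m / q')`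
(as `μ(p m) = -μ(m)`), that is `Mx (cR q a) v - Mx (cR q' a') (v / p)`.  Both terms are combinations of primitive
characters (modulo `q` and modulo `q'`).  So the almost periodic function of part A has a second summand with
characters modulo `q'`; its dual series is small because the averages of the Kloosterman sums modulo `q'` over the
Riesz weights vanish (other frequencies).
-/

set_option autoImplicit false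

open Filter Topology MeasureTheory Finset
open Pool.Agent.Y821.ME

namespace Pool.Agent.T2h55.UP

/-- reduction of the units modulo `p ^ (2l)` to the units modulo `p ^ (2l-1)` -/
noncomputable def rd (p l : ℕ) : (ZMod (p ^ (2 * l)))ˣ →* (ZMod (p ^ (2 * l - 1)))ˣ :=
  ZMod.unitsMap (pow_dvd_pow p (Nat.sub_le (2 * l) 1))

/-- `p ^ (-3/4)` -/
noncomputable def kap (p : ℕ) : ℝ := Real.exp (-(3 / 4 * Real.log p))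

/-- (CHK, 150 lines, a copy of parts of Ch.lean) `S_CH` for every exponent `k ≥ 2`.
Proof.  Import `Pool.Agent.Y821.ME.Ch`.  The lemmas `CH.inversion`, `CH.gauss_inv`, `CH.gauss_sq`, `CH.gauss_mul`,
`CH.inv_unit`, `CH.prim_inv` hold for every `q`.  Copy `CH.gauss_zero` with `2 * l` replaced by `k ≥ 2`
(nilpotent: `(p ^ (k-1)) ^ 2 = 0` as `2 (k-1) ≥ k`), and copy `ch` with `2 * l` replaced by `k` and `(p : ℂ) ^ l`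
replaced by `(Real.sqrt (p ^ k : ℕ) : ℂ)` (its square is `p ^ k`; `h3` becomes
`(q : ℂ) ^ (1/2 : ℂ) = (Real.sqrt q : ℂ)`). -/
def S_CHK : Prop := ∀ (p k : ℕ) [NeZero (p ^ k)], p.Prime → p ≠ 2 → 2 ≤ k →
  ∀ a : (ZMod (p ^ k))ˣ,
  (∀ n : (ZMod (p ^ k))ˣ, ∑ χ ∈ Ev (p ^ k), cf (p ^ k) a χ * χ (n : ZMod (p ^ k)) =
    (ee (p ^ k) (a * n) + ee (p ^ k) (-(a * n))) / 2) ∧
  ∀ m : (ZMod (p ^ k))ˣ, ∑ χ ∈ Ev (p ^ k), cf (p ^ k) a χ *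
      (DirichletCharacter.rootNumber χ)⁻¹ * χ⁻¹ (m : ZMod (p ^ k)) =
    (Kl (p ^ k) ((a * m⁻¹ : (ZMod (p ^ k))ˣ) : ZMod (p ^ k)) +
      Kl (p ^ k) (-((a * m⁻¹ : (ZMod (p ^ k))ˣ) : ZMod (p ^ k)))) / (2 * (Real.sqrt ((p ^ k : ℕ) : ℝ) : ℂ))

/-- (CRK, 90 lines) `theorem crk (h : S_CHK) : S_CRK`: the coefficients for every exponent `k ≥ 2`.
Proof.  Copy `isUnit_nat`, `not_isUnit_nat`, `cR_eq`, `norm_cR_le`, `cL_eq` from FinC with `2 * l` replaced by `k`;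
the last two claims from `Two.Mx_cop_all` (Fin2B, every exponent `k ≥ 2`) and `cR_eq` (copy of `Mx_cR` in FinD and
of `Two.cR_bound` in Fin2D), and from `Two.cL_bound` (Fin2C, every `q`) with `Two.Mx_chi` (Fin2B). -/
def S_CRK : Prop := ∀ (p k : ℕ) [NeZero (p ^ k)], p.Prime → p ≠ 2 → 2 ≤ k → ∀ a : (ZMod (p ^ k))ˣ,
  (∀ n : ℕ, cR (p ^ k) a n = (cop p k a n + cop p k (-a) n) / 2) ∧
  (∀ n : ℕ, ‖cR (p ^ k) a n‖ ≤ 1) ∧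
  (∀ n : ℕ, p ∣ n → cL (p ^ k) a n = 0) ∧
  (∀ (m : (ZMod (p ^ k))ˣ) (n : ℕ), (m : ZMod (p ^ k)) = n →
    cL (p ^ k) a n = (Kl (p ^ k) ((a * m⁻¹ : (ZMod (p ^ k))ˣ) : ZMod (p ^ k)) +
      Kl (p ^ k) (-((a * m⁻¹ : (ZMod (p ^ k))ˣ) : ZMod (p ^ k)))) / (2 * (Real.sqrt ((p ^ k : ℕ) : ℝ) : ℂ))) ∧
  ∀ C₁ : ℝ, 0 ≤ C₁ → Two.HypQ C₁ p k →
    (∃ B : ℝ, ∀ v, 1 ≤ v → ‖Mx (cR (p ^ k) a) v‖ ≤ B * Real.sqrt v) ∧
    (∃ B : ℝ, ∀ v, 1 ≤ v → ‖Mx (cL (p ^ k) a) v‖ ≤ B * Real.sqrt v)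

/-- (KLO, 170 lines) Kloosterman sums modulo `q' = p ^ (2l-1)`.
Proof.  `kl_restrict` (KlM.lean) with `P = p ^ l`, `q = q'` (`(p ^ l)² = 0` modulo `q'`): the sum `Kl q' c` is
restricted to the `x` with `p ^ l (x - c x⁻¹) = 0`, i.e. `p ^ l (x² - c) = 0` (`cond_iff`), i.e.
`x² ≡ c` modulo `p ^ (l-1)`.  Their number is at most `2 p ^ l`: if `z` is one of them, then all are `≡ ± z` modulo
`p ^ (l-1)` (`l - 1 ≥ 1`; one of `x - z`, `x + z` is a unit, as in `dich`), and a class modulo `p ^ (l-1)` has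
`p ^ l` elements modulo `q'` (e.g. `p ^ l • (x - z) = 0`, `IsAddCyclic.card_nsmul_eq_zero_le`).  This gives (i).
(ii) For `c = b² g⁻¹` with `g` not a square modulo `p` there is no such `x` (`l ≥ 2`).
(iii) Let `g r² = 1` modulo `q = p ^ (2l)`, `Y = {y : p ^ l (y - g'⁻¹ y⁻¹) = 0}`.  With `x = b' y`
(`b' = rd p l b`) we get `Kl q' (b'² g'⁻¹) = ∑_{y ∈ Y} ee q' (b' h y)`, `h y = y + g'⁻¹ y⁻¹`.  Let
`t y = p * ((h y).val : ZMod q)`: `ee q' (b' h y) = exp (2 π i b h / q') = ee q (b t y)`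
(`ZMod.stdAddChar_coe`, see `ee_mul` in FinB).  Lastly `y ≡ ± r` modulo `p ^ (l-1)` and, as `g⁻¹ = r²`,
`h y ∓ 2 r = (y ∓ r)² / y ≡ 0` modulo `p ^ (2l-2)`, so `p * t y = p² h y = ± 2 p² r` modulo `p ^ (2l)`. -/
def S_KLO : Prop := ∀ (p l : ℕ) [NeZero (p ^ (2 * l))] [NeZero (p ^ (2 * l - 1))], p.Prime → p ≠ 2 → 2 ≤ l →
  (∀ c : (ZMod (p ^ (2 * l - 1)))ˣ, ‖Kl (p ^ (2 * l - 1)) (c : ZMod (p ^ (2 * l - 1)))‖ ≤ 2 * (p : ℝ) ^ l) ∧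
  ∀ (g : ℤ) (g' : (ZMod (p ^ (2 * l - 1)))ˣ), (g' : ZMod (p ^ (2 * l - 1))) = (g : ZMod (p ^ (2 * l - 1))) →
    (¬ IsSquare (g : ZMod p) → ∀ b : (ZMod (p ^ (2 * l)))ˣ,
      Kl (p ^ (2 * l - 1)) ((rd p l b ^ 2 * g'⁻¹ : (ZMod (p ^ (2 * l - 1)))ˣ) : ZMod (p ^ (2 * l - 1))) = 0) ∧
    ∀ r : (ZMod (p ^ (2 * l)))ˣ, (g : ZMod (p ^ (2 * l))) * (r : ZMod (p ^ (2 * l))) ^ 2 = 1 →
      ∃ (Y : Finset (ZMod (p ^ (2 * l - 1)))ˣ) (t : (ZMod (p ^ (2 * l - 1)))ˣ → ZMod (p ^ (2 * l))),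
        (Y.card : ℝ) ≤ 2 * (p : ℝ) ^ l ∧
        (∀ y ∈ Y, (p : ZMod (p ^ (2 * l))) * t y = 2 * (p : ZMod (p ^ (2 * l))) ^ 2 * r ∨
          (p : ZMod (p ^ (2 * l))) * t y = -(2 * (p : ZMod (p ^ (2 * l))) ^ 2 * r)) ∧
        ∀ b : (ZMod (p ^ (2 * l)))ˣ,
          Kl (p ^ (2 * l - 1)) ((rd p l b ^ 2 * g'⁻¹ : (ZMod (p ^ (2 * l - 1)))ˣ) : ZMod (p ^ (2 * l - 1))) =
            ∑ y ∈ Y, ee (p ^ (2 * l)) ((b : ZMod (p ^ (2 * l))) * t y)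

/-- (SH, 40 lines) rescaling.
Proof.  In `aF lam (fun v => M (v / p)) u` substitute `v = p w` (`MeasureTheory.integral_comp_mul_left_Ioi`):
`∫ M(w) th1 (p w e^(lam-u)) / w dw`, and `p e^(lam - u) = e^((lam - log p / 2) - (u - 3/2 log p))`,
`e^(-u/2) = e^(-3/4 log p) e^(-(u - 3/2 log p)/2)`.  (No integrability is needed.) -/
def S_SH : Prop := ∀ (lam : ℝ) (p : ℕ), 0 < p → ∀ (M : ℝ → ℂ) (u : ℝ),
  aF lam (fun v => M (v / p)) u = (kap p : ℂ) * aF (lam - Real.log p / 2) M (u - 3 / 2 * Real.log p)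

/-- (DT, 30 lines) translations of `Disc` functions.
Proof.  `∫ A (v - s) K (u - v) dv = ∫ A v K ((u - s) - v) dv = ∑ c γ e^(i γ (u - s))`. -/
def S_DT : Prop := ∀ (A : ℝ → ℂ) (s : ℝ), Disc A → Disc (fun u => A (u - s))

/-- (INEQB, 200 lines) the inequality for two levels, adapted from `Two.inequality_two` (Fin2C).
Proof.  `lam' = lam - log p / 2 = log (q'/π) / 2`, `s = 3/2 log p`.  As in `Two.inequality_two` the functions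
`A₁ u = aF lam (Mx (cR q a)) u - aF lam (Mx (cL q a)) (-u)` and (with `q'`, `lam'`, `a'`) `A₂` are sums over the even
primitive characters of functions to which `S_TRIG` applies, hence continuous, bounded, `Disc`.  So is
`A u = A₁ u - κ A₂ (u - s)` (`S_DT`, `Disc_sum` over `Bool` or `Fin 2`).  Upper limit at `+∞`: by `S_SH`
`aF lam (Mx (cR q a)) u - κ aF lam' (Mx (cR q' a')) (u - s) = aF lam M u` with
`M v = Mx (cR q a) v - Mx (cR q' a') (v / p)` (linearity of the integral, integrable by `S_LAP`); `S_LIM` for `M`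
(measurable, `0` for `v < 1`, `O(√v)`) gives `‖aF lam M u‖ ≤ C e^(-lam/2) Kth + ε`; the two other terms are
`O(e^(-u/2))` by `S_LAP`.  Now `S_SUP`. -/
def S_INEQB : Prop := S_TRIG → S_SUP → S_LAP → S_LIM → S_PAIR → S_SH → S_DT →
  ∀ (p q q' : ℕ) [NeZero q] [NeZero q'], 0 < p → q = p * q' → 2 ≤ q' →
  (∀ χ : DirichletCharacter ℂ q, χ.IsPrimitive →
      ∃ B : ℝ, 0 ≤ B ∧ ∀ v : ℝ, 1 ≤ v → ‖Mx (fun n => χ n) v‖ ≤ B * Real.sqrt v) →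
  (∀ χ : DirichletCharacter ℂ q', χ.IsPrimitive →
      ∃ B : ℝ, 0 ≤ B ∧ ∀ v : ℝ, 1 ≤ v → ‖Mx (fun n => χ n) v‖ ≤ B * Real.sqrt v) →
  ∀ (C : ℝ) (a : ZMod q) (a' : ZMod q'), 0 ≤ C →
  (∃ B : ℝ, ∀ v, 1 ≤ v → ‖Mx (cR q a) v‖ ≤ B * Real.sqrt v) →
  (∃ B : ℝ, ∀ v, 1 ≤ v → ‖Mx (cR q' a') v‖ ≤ B * Real.sqrt v) →
  (∃ v₀ : ℝ, ∀ v, v₀ ≤ v → ‖Mx (cR q a) v - Mx (cR q' a') (v / p)‖ ≤ C * Real.sqrt v) →
  ∀ lam : ℝ, lam = Real.log (q / Real.pi) / 2 → ∀ u : ℝ,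
    ‖(aF lam (Mx (cR q a)) u - aF lam (Mx (cL q a)) (-u)) -
      (kap p : ℂ) * (aF (lam - Real.log p / 2) (Mx (cR q' a')) (u - 3 / 2 * Real.log p) -
        aF (lam - Real.log p / 2) (Mx (cL q' a')) (-(u - 3 / 2 * Real.log p)))‖ ≤
      C * Real.exp (-lam / 2) * Kth

/-- (HV, 120 lines) `theorem hv (h : S_CRK) : S_HV`: the upper limit for the fractions in the interval.
Proof.  Let `A v = Mx (cop p (2l) a) v - Mx (cop p (2l-1) a') (v / p)`, `a' = rd p l a`.  Then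
`A v = F ⌊v⌋ (a.val / p ^ (2l))`: split the sum `Mx (fun n => ee q (a * n)) v` (`Mx_ee`, FinB) into `p ∤ n` and
`n = p m`, `m ≤ v / p` (`Nat.floor_div_natCast`): `μ (p m) = - μ m` if `p ∤ m`, else `0`, and
`ee q (a * (p m)) = ee q' (a' * m)`.  The point `x = a.val / p ^ (2l) + n` lies in `(α, β)` and `F R` has period `1`,
so `‖A v‖ ≤ C √v` for `v ≥ R₀` (`floor_bound`).  By the first claim of `S_CRK` the quantity is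
`(A v + A⁻ v) / 2` where `A⁻` belongs to `-a` and is the complex conjugate of `A v`. -/
def S_HV : Prop := ∀ (p l : ℕ) [NeZero (p ^ (2 * l))] [NeZero (p ^ (2 * l - 1))], p.Prime → p ≠ 2 → 2 ≤ l →
  ∀ (C α β : ℝ) (R₀ : ℕ), 0 ≤ C →
  (∀ x ∈ Set.Ioo α β, ∀ R : ℕ, R₀ ≤ R → ‖F R x‖ ≤ C * Real.sqrt R) →
  ∀ a : (ZMod (p ^ (2 * l)))ˣ,
  (∃ n : ℤ, ((a : ZMod (p ^ (2 * l))).val : ℝ) / (p : ℝ) ^ (2 * l) + n ∈ Set.Ioo α β) →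
  ∃ v₀ : ℝ, ∀ v, v₀ ≤ v → ‖Mx (cR (p ^ (2 * l)) a) v -
    Mx (cR (p ^ (2 * l - 1)) ((rd p l a : (ZMod (p ^ (2 * l - 1)))ˣ) : ZMod (p ^ (2 * l - 1)))) (v / p)‖ ≤
    C * Real.sqrt v

/-- (AVG, 150 lines) averages and the combination `D`, abstract form (compare `series_inequality_two` in Fin2D).
Proof.  First `S_SER` for coefficients bounded by `2 A`: apply it to `c / A` and multiply by `A`
(`aF_sum` with one summand, `D_sum`, `tsum_mul_left`).  Let `TR = ∑ w cr` etc.  By `aF_sum` and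
`∑ w = 1`, `‖(aF lam (Mx TR) u - aF lam (Mx TL) (-u)) - κ (aF lam' (Mx TR') (u-s) - aF lam' (Mx TL') (-(u-s)))‖ ≤ C'`
for all `u` (terms with `w b = 0` vanish).  Apply `norm_D_le` at `-U`; `D` is linear (`D_sub`, `D_sum`) and commutes
with translations (`D (fun u => f (u - s)) u = D f (u - s)`); then `S_SER` for the four functions, at `-U` and at
`-U - s = -(U + s)`. -/
def S_AVG : Prop := S_LAP → S_SER → ∀ (ι : Type) [Fintype ι] (w : ι → ℝ) (cr cl cr' cl' : ι → ℕ → ℂ) (A : ℝ),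
  1 ≤ A → (∀ b, 0 ≤ w b) → ∑ b, w b = 1 →
  (∀ b n, ‖cr b n‖ ≤ 2 * A ∧ ‖cl b n‖ ≤ 2 * A ∧ ‖cr' b n‖ ≤ 2 * A ∧ ‖cl' b n‖ ≤ 2 * A) →
  (∀ b, ∃ B : ℝ, ∀ v, 1 ≤ v → ‖Mx (cr b) v‖ ≤ B * Real.sqrt v) →
  (∀ b, ∃ B : ℝ, ∀ v, 1 ≤ v → ‖Mx (cl b) v‖ ≤ B * Real.sqrt v) →
  (∀ b, ∃ B : ℝ, ∀ v, 1 ≤ v → ‖Mx (cr' b) v‖ ≤ B * Real.sqrt v) →
  (∀ b, ∃ B : ℝ, ∀ v, 1 ≤ v → ‖Mx (cl' b) v‖ ≤ B * Real.sqrt v) →
  ∀ lam lam' κ s C' : ℝ,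
  (∀ b, w b ≠ 0 → ∀ u, ‖(aF lam (Mx (cr b)) u - aF lam (Mx (cl b)) (-u)) -
      (κ : ℂ) * (aF lam' (Mx (cr' b)) (u - s) - aF lam' (Mx (cl' b)) (-(u - s)))‖ ≤ C') →
  ∀ TR TL TR' TL' : ℕ → ℂ,
    (TR = fun n => ∑ b, (w b : ℂ) * cr b n) → (TL = fun n => ∑ b, (w b : ℂ) * cl b n) →
    (TR' = fun n => ∑ b, (w b : ℂ) * cr' b n) → (TL' = fun n => ∑ b, (w b : ℂ) * cl' b n) →
  ∀ U : ℝ,
    ‖((Real.exp (U / 2) : ℂ) *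
        ∑' n : ℕ, mu (n + 1) * TR (n + 1) * (VR ((n + 1 : ℕ) * Real.exp (lam + U)) : ℝ) -
      (Real.exp (-U / 2) : ℂ) *
        ∑' n : ℕ, mu (n + 1) * TL (n + 1) * (VL ((n + 1 : ℕ) * Real.exp (lam - U)) : ℝ)) -
      (κ : ℂ) * ((Real.exp ((U + s) / 2) : ℂ) *
        ∑' n : ℕ, mu (n + 1) * TR' (n + 1) * (VR ((n + 1 : ℕ) * Real.exp (lam' + (U + s))) : ℝ) -
      (Real.exp (-(U + s) / 2) : ℂ) *
        ∑' n : ℕ, mu (n + 1) * TL' (n + 1) * (VL ((n + 1 : ℕ) * Real.exp (lam' - (U + s))) : ℝ))‖ ≤ 5 * C'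

/-- (LLB, 80 lines) the second dual series is small; see the proof of `left_lower` in FinE.
Proof.  Bound of the terms: `‖mu‖ ‖T‖ |VL (m/Z)| ≤ 2 A * 3 Z³ / m³` (`hvb.1`).  The terms with `m ≤ Z²` give at most
`δ ∑ 3 Z³ / m³ ≤ 6 δ Z³ ≤ 1` (`cube_tsum0`), those with `m > Z²` at most `6 A Z³ / Z⁴ = 6 A / Z ≤ 1`
(`cube_tsum` with `Y = Z²`). -/
def S_LLB : Prop := S_VB → ∀ (Z : ℕ) (A δ : ℝ) (T : ℕ → ℂ), 10 ≤ Z → 1 ≤ A → 6 * A ≤ Z → 0 ≤ δ →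
  (∀ n, ‖T n‖ ≤ 2 * A) → δ * (6 * (Z : ℝ) ^ 3) ≤ 1 →
  (∀ m : ℕ, 1 ≤ m → m ≤ Z ^ 2 → ‖mu m * T m‖ ≤ δ) →
  ‖∑' n : ℕ, mu (n + 1) * T (n + 1) * (VL ((n + 1 : ℕ) * (1 / (Z : ℝ))) : ℝ)‖ ≤ 2

open Classical in
/-- (RZQB, 90 lines beyond the proof of `rzq`) `theorem rzqb (hli : S_LI2) (hqs : S_QS) : S_RZQB`.
Proof.  Copy `rzq` with `SF = Gs Y' p` for the independence and the square roots (`S ⊆ Gs Y p ⊆ Gs Y' p`,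
`mem_Gs`).  New last claim: for `g ∈ Gs Y' p`, `σ = ±1` and `h : ℤ → ℤ` with `|h j| ≤ 1` the `p`-adic number
`2 (∑_{j ∈ S} h_j ρ_j + σ p ρ_g)` is not `0` (LI2: the coefficient of `ρ_g` is `σ p + h_g ≠ 0`), and there are
finitely many of them up to the values of `h` on `S`, so that for `l` large none is divisible by `p ^ (2l-1)`
(generalise `RZ2.uniform` to a bound `|h m| ≤ p + 1`; `dvd_of_mul_eq_zero`).  Hence if `p t = 2 σ p² r_g` then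
`p (t + 2 ∑_{j ∈ S} h_j R_j) = p (2 (σ p r_g + ∑_{j ∈ S} h_j R_j)) ≠ 0` for all these `h`, and by induction
over `S` (for all `t` with this property; expand one factor `fac`, `t` becomes `t`, `t + 2 R_j`, `t - 2 R_j`;
start: `sum_units_eq_zero`) `∑_b (∏_{j ∈ S} fac b j) ee (b t) = 0`. -/
def S_RZQB : Prop := ∀ (Y Y' p : ℕ) [Fact p.Prime], p ≠ 2 → Y ≤ Y' → ∀ S ⊆ Gs Y p,
  ∀ (K : Finset ℤ), 0 ∉ K → ∀ δ : ℝ, 0 < δ →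
  ∃ l₀ : ℕ, 2 ≤ l₀ ∧ ∀ l : ℕ, l₀ ≤ l → ∃ r : ℤ → (ZMod (p ^ (2 * l)))ˣ,
    (∀ g ∈ Gs Y' p, (g : ZMod (p ^ (2 * l))) * (r g : ZMod (p ^ (2 * l))) ^ 2 = 1) ∧
    ∃ w : (ZMod (p ^ (2 * l)))ˣ → ℝ, (∀ b, 0 ≤ w b) ∧ ∑ b, w b = 1 ∧
      (∀ g ∈ Gs Y p, ∑ b, (w b : ℂ) * ee (p ^ (2 * l)) (2 * (b : ZMod (p ^ (2 * l))) * r g) =
          if g ∈ S then ((ArithmeticFunction.moebius g.natAbs : ℤ) : ℂ) / 2 else 0) ∧
      (∀ k ∈ K, ∀ t : ZMod (p ^ (2 * l)), ‖∑ b, (w b : ℂ) * (ee (p ^ (2 * l)) ((b : ZMod (p ^ (2 * l))) * t) *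
        ee (p ^ (2 * l)) ((k : ZMod (p ^ (2 * l))) * (b : ZMod (p ^ (2 * l))) ^ 2))‖ ≤ δ) ∧
      ∀ g ∈ Gs Y' p, ∀ t : ZMod (p ^ (2 * l)),
        ((p : ZMod (p ^ (2 * l))) * t = 2 * (p : ZMod (p ^ (2 * l))) ^ 2 * r g ∨
          (p : ZMod (p ^ (2 * l))) * t = -(2 * (p : ZMod (p ^ (2 * l))) ^ 2 * r g)) →
        ∑ b, (w b : ℂ) * ee (p ^ (2 * l)) ((b : ZMod (p ^ (2 * l))) * t) = 0

open Classical in
/-- (RZB, a copy of `rz3` plus 20 lines) `theorem rzb (happ : S_APP) (hrz : S_RZQB) : S_RZB`.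
Proof.  Copy `rz3` (use `S_RZQB`, take also `η ≤ ε c₁ / 4`).  New last claim: by (*) of the proof of RZ3 for this `t`,
`‖∑_b w₀ b φ(x_b) ee (b t)‖ ≤ 2 η` since `∑_b w₀ b ee (b t) = 0`; divide by `Z ≥ c₁/2`:
`‖∑_b w b ee (b t)‖ ≤ 4 η / c₁ ≤ ε`. -/
def S_RZB : Prop := ∀ φ : ℝ → ℝ, Continuous φ → (∀ x, φ (x + 1) = φ x) → (∀ x, 0 ≤ φ x) → (∃ x, φ x ≠ 0) →
  ∀ (Y Y' p : ℕ) [Fact p.Prime], p ≠ 2 → Y ≤ Y' → ∀ S ⊆ Gs Y p, ∀ ε : ℝ, 0 < ε →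
  ∃ l₀ : ℕ, 2 ≤ l₀ ∧ ∀ l : ℕ, l₀ ≤ l → ∃ r : ℤ → (ZMod (p ^ (2 * l)))ˣ,
    (∀ g ∈ Gs Y' p, (g : ZMod (p ^ (2 * l))) * (r g : ZMod (p ^ (2 * l))) ^ 2 = 1) ∧
    ∃ w : (ZMod (p ^ (2 * l)))ˣ → ℝ, (∀ b, 0 ≤ w b) ∧ ∑ b, w b = 1 ∧
      (∀ b, w b ≠ 0 →
        φ ((((b ^ 2 : (ZMod (p ^ (2 * l)))ˣ) : ZMod (p ^ (2 * l))).val : ℝ) / (p : ℝ) ^ (2 * l)) ≠ 0) ∧
      (∀ g ∈ Gs Y p, |∑ b, w b * (ee (p ^ (2 * l)) (2 * (b : ZMod (p ^ (2 * l))) * r g)).re -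
          (if g ∈ S then ((ArithmeticFunction.moebius g.natAbs : ℤ) : ℝ) / 2 else 0)| ≤ ε) ∧
      ∀ g ∈ Gs Y' p, ∀ t : ZMod (p ^ (2 * l)),
        ((p : ZMod (p ^ (2 * l))) * t = 2 * (p : ZMod (p ^ (2 * l))) ^ 2 * r g ∨
          (p : ZMod (p ^ (2 * l))) * t = -(2 * (p : ZMod (p ^ (2 * l))) ^ 2 * r g)) →
        ‖∑ b, (w b : ℂ) * ee (p ^ (2 * l)) ((b : ZMod (p ^ (2 * l))) * t)‖ ≤ ε

end Pool.Agent.T2h55.UP
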